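import Pool.Agent.Helper76.PWF.Int

/-!
# PWF ALL: the means for all `s >= 2`
-/

set_option autoImplicit false

open Complex Finset Filter Topology MeasureTheory

namespace Pool.PWF

open Pool.OMG

theorem ball_of_closedBall {c : ℂ} {r : ℝ} (hr : 0 < r) {U : Set ℂ} (hU : IsOpen U)
    (h : Metric.closedBall c r ⊆ U) : ∃ R : ℝ, r < R ∧ Metric.ball c R ⊆ U := by
  obtain ⟨δ, hδ, hδ2⟩ := (isCompact_closedBall c r).exists_thickening_subset_open hU h
  refine ⟨r + δ, by linarith, fun z hz => ?_⟩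
  apply hδ2
  rw [Metric.mem_thickening_iff]
  rw [Metric.mem_ball, dist_eq_norm] at hz
  rcases le_or_gt ‖z - c‖ r with h | h
  · exact ⟨z, by rw [Metric.mem_closedBall, dist_eq_norm]; exact h, by simpa using hδ⟩
  · have h0 : 0 < ‖z - c‖ := by linarith
    refine ⟨c + ((r / ‖z - c‖ : ℝ) : ℂ) * (z - c), ?_, ?_⟩
    · rw [Metric.mem_closedBall, dist_eq_norm, add_sub_cancel_left, norm_mul, Complex.norm_real,
        Real.norm_of_nonneg (by positivity), div_mul_cancel₀ _ h0.ne']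
    · rw [dist_eq_norm]
      have e : z - (c + ((r / ‖z - c‖ : ℝ) : ℂ) * (z - c)) =
          ((1 - r / ‖z - c‖ : ℝ) : ℂ) * (z - c) := by push_cast; ring
      have h1 : 0 ≤ 1 - r / ‖z - c‖ := by
        rw [sub_nonneg, div_le_one h0]; exact h.le
      rw [e, norm_mul, Complex.norm_real, Real.norm_of_nonneg h1, sub_mul, one_mul,
        div_mul_cancel₀ _ h0.ne']
      linarith

theorem zf_one {w : ℂ} (h : 1 ≤ w.re) : riemannZeta₁ w ≠ 0 := by
  rcases eq_or_ne w 1 with h2 | h2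
  · rw [h2]; simp
  · intro h0
    have h4 := riemannZeta_eq_inv_sub_mul h2
    rw [h0, mul_zero] at h4
    exact riemannZeta_ne_zero_of_one_le_re h h4

theorem phi_diff' {c : ℂ} {R : ℝ} (h : ∀ z ∈ Metric.ball c R, riemannZeta₁ (6 * z) ≠ 0) :
    DifferentiableOn ℂ Phi (Metric.ball c R) := by
  intro z hz
  have hd : ∀ c : ℂ, DifferentiableAt ℂ (fun z : ℂ => riemannZeta₁ (c * z)) z := fun c =>
    (differentiable_riemannZeta₁ (c * z)).comp z
      ((differentiableAt_const c).mul differentiableAt_id)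
  have h1 : DifferentiableAt ℂ (fun z : ℂ => 6 * z - 1) z :=
    ((differentiableAt_const _).mul differentiableAt_id).sub (differentiableAt_const _)
  exact ((((hd 2).mul (hd 3)).mul h1).div (hd 6) (h z hz)).differentiableWithinAt

theorem kf_diff' {c : ℂ} {R : ℝ} (h : DifferentiableOn ℂ Phi (Metric.ball c R)) :
    DifferentiableOn ℂ Kf (Metric.ball c R) := by
  have hd : ∀ b : ℂ, DifferentiableOn ℂ (dslope Phi b) (Metric.ball c R) := by
    intro b
    by_cases hb : b ∈ Metric.ball c R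
    · rw [Complex.differentiableOn_dslope (Metric.isOpen_ball.mem_nhds hb)]
      exact h
    · rw [differentiableOn_dslope_of_notMem hb]
      exact h
  exact ((hd 0).add ((hd (1 / 2)).const_mul 2)).sub ((hd (1 / 3)).const_mul 3)

/-- the coefficients at `s`, if the closed disc of radius `q` is free of zeros of `zeta(6z)` -/
theorem coeff_bound {s q : ℝ} (hs : 1 / 2 < s) (hq0 : 0 < q) (hqs : q ≤ s)
    (h : ∀ z ∈ Metric.closedBall (s : ℂ) q, riemannZeta₁ (6 * z) ≠ 0) :
    ∃ C : ℝ, ∀ k : ℕ, ‖PowerSeries.coeff k (T (s : ℂ) Hf)‖ ≤ C * (1 / q) ^ k := by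
  have hs0 : 0 < s := by linarith
  have hcont : Continuous fun z : ℂ => riemannZeta₁ (6 * z) :=
    differentiable_riemannZeta₁.continuous.comp (continuous_const.mul continuous_id)
  have hopen : IsOpen {z : ℂ | riemannZeta₁ (6 * z) ≠ 0} := isOpen_ne_fun hcont continuous_const
  obtain ⟨R, hR, hball⟩ := ball_of_closedBall hq0 hopen h
  have hK := kf_diff' (phi_diff' hball)
  obtain ⟨C, hC⟩ := T_bound (q := q) hK hq0 hR
  refine ⟨1 / (2 * s) + C, fun k => ?_⟩
  have hopen2 : {s : ℂ | 1 / 2 < s.re} ∈ 𝓝 (s : ℂ) := by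
    apply (isOpen_lt continuous_const Complex.continuous_re).mem_nhds
    simpa using hs
  have hcongr : T (s : ℂ) Hf = T (s : ℂ) (fun z => (-1 / 2 : ℂ) / (z - 0) + Kf z) := by
    apply T_congr
    filter_upwards [hopen2] with z hz
    exact hf_eq hz
  have hadd : T (s : ℂ) (fun z => (-1 / 2 : ℂ) / (z - 0) + Kf z) =
      T (s : ℂ) (fun z => (-1 / 2 : ℂ) / (z - 0)) + T (s : ℂ) Kf := by
    apply T_add
    · apply DifferentiableOn.analyticAt (s := {z : ℂ | 1 / 2 < z.re}) _ hopen2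
      intro z hz
      have hz1 : 1 / 2 < z.re := hz
      have hne : z - 0 ≠ 0 := by
        rw [sub_zero]; rintro rfl; norm_num at hz1
      have hd : DifferentiableAt ℂ (fun z : ℂ => z - 0) z := by fun_prop
      exact ((differentiableAt_const _).div hd hne).differentiableWithinAt
    · exact hK.analyticAt (Metric.isOpen_ball.mem_nhds (Metric.mem_ball_self (by linarith)))
  have hsne : (s : ℂ) ≠ 0 := by exact_mod_cast hs0.ne'
  rw [hcongr, hadd, map_add, T_inv hsne, sub_zero]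
  have h1 : ‖(-1 / 2 : ℂ) * (1 / (s : ℂ)) ^ (k + 1)‖ ≤ 1 / (2 * s) * (1 / q) ^ k := by
    have h2 : ‖(-1 / 2 : ℂ)‖ = 1 / 2 := by norm_num
    have h5 : ‖1 / (s : ℂ)‖ = 1 / s := by
      rw [norm_div, norm_one, Complex.norm_real, Real.norm_of_nonneg hs0.le]
    rw [norm_mul, norm_pow, h5]
    have h3 : (1 / s) ^ k ≤ (1 / q) ^ k :=
      pow_le_pow_left₀ (by positivity) (one_div_le_one_div_of_le hq0 hqs) k
    rw [h2, pow_succ]
    have h4 : 1 / 2 * ((1 / s) ^ k * (1 / s)) = 1 / (2 * s) * (1 / s) ^ k := by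
      field_simp
    rw [h4]
    exact mul_le_mul_of_nonneg_left h3 (by positivity)
  calc _ ≤ ‖(-1 / 2 : ℂ) * (1 / (s : ℂ)) ^ (k + 1)‖ + ‖PowerSeries.coeff k (T (s : ℂ) Kf)‖ :=
        norm_add_le _ _
    _ ≤ 1 / (2 * s) * (1 / q) ^ k + C * (1 / q) ^ k := add_le_add h1 (hC k)
    _ = _ := by ring

/-- the means are the normalized coefficients -/
theorem mean_coeff {s : ℝ} (hs : 1 / 2 < s) (k : ℕ) :
    |∫ x in Set.Ioi (1 : ℝ), E x * Real.log x ^ k * x ^ (-s - 1)| =
      (k.factorial : ℝ) * ‖PowerSeries.coeff k (T (s : ℂ) Hf)‖ := by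
  have ham : Measurable (fun y => E (Real.exp y)) := E_measurable.comp Real.measurable_exp
  obtain ⟨C, hC⟩ := E_bound (r := (1 / 2 + s) / 2) (by linarith)
  have h1 := jc_eq ham hC (H := Hf) (fun z hz => E_laplace (by linarith)) (s0 := s)
    (by linarith) k
  rw [mean_eq, ← h1, Complex.norm_real, Real.norm_eq_abs, abs_mul, Nat.abs_cast]

/-- an explicit power saving below the exponent `1/6` for every `s >= 2` -/
theorem all_s (s : ℝ) (hs : 2 ≤ s) : ∃ C : ℝ, ∀ k : ℕ,
    |s ^ (k + 1) / (k.factorial : ℝ) *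
      (∫ x in Set.Ioi (1 : ℝ), E x * Real.log x ^ k * x ^ (-s - 1))| ≤
      C * Real.exp ((k : ℝ) / s) ^ (1 / 6 - 3 / (10 * s)) := by
  have hs0 : 0 < s := by linarith
  set u : ℝ := (1 / 6 - 3 / (10 * s)) / s with hu
  have hu0 : 0 ≤ u := by
    rw [hu]
    apply div_nonneg _ hs0.le
    rw [sub_nonneg, div_le_iff₀ (by positivity)]
    linarith
  set q : ℝ := s * Real.exp (-u) with hq
  have hq0 : 0 < q := by positivity
  have hqs : q ≤ s := by
    rw [hq]
    have : Real.exp (-u) ≤ 1 := Real.exp_le_one_iff.mpr (by linarith)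
    nlinarith
  -- the bound for `q^2`
  have hq2 : q ^ 2 ≤ s ^ 2 - s / 3 + 2 / 3 := by
    have e1 : Real.exp (-u) ^ 2 ≤ 1 - 2 * u + 2 * u ^ 2 := by
      have h1 : Real.exp (-u) ^ 2 = Real.exp (-(2 * u)) := by
        rw [← Real.exp_nat_mul]; congr 1; push_cast; ring
      rw [h1, Real.exp_neg]
      have h2 := Real.quadratic_le_exp_of_nonneg (x := 2 * u) (by linarith)
      rw [inv_le_comm₀ (Real.exp_pos _) (by nlinarith)]
      refine le_trans ?_ h2
      rw [inv_le_iff_one_le_mul₀ (by nlinarith)]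
      nlinarith [sq_nonneg (u ^ 2), mul_nonneg hu0 hu0]
    have e2 : q ^ 2 = s ^ 2 * Real.exp (-u) ^ 2 := by rw [hq]; ring
    have e3 : s * u = 1 / 6 - 3 / (10 * s) := by rw [hu]; field_simp
    have e4 : s ^ 2 * u = s / 6 - 3 / 10 := by
      rw [hu]; field_simp
    have e5 : s * u ≤ 1 / 6 := by
      rw [e3]
      have : 0 ≤ 3 / (10 * s) := by positivity
      linarith
    have e6 : 0 ≤ s * u := by positivity
    rw [e2]
    calc s ^ 2 * Real.exp (-u) ^ 2 ≤ s ^ 2 * (1 - 2 * u + 2 * u ^ 2) :=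
          mul_le_mul_of_nonneg_left e1 (by positivity)
      _ = s ^ 2 - 2 * (s ^ 2 * u) + 2 * (s * u) ^ 2 := by ring
      _ ≤ _ := by rw [e4]; nlinarith
  have hzf : ∀ z ∈ Metric.closedBall (s : ℂ) q, riemannZeta₁ (6 * z) ≠ 0 := by
    intro z hz
    rw [Metric.mem_closedBall, dist_eq_norm] at hz
    rcases le_or_gt (1 / 6) z.re with h1 | h1
    · apply zf_one
      simp
      linarith
    · apply zf
      have hsq : ‖z - s‖ ^ 2 ≤ q ^ 2 := pow_le_pow_left₀ (norm_nonneg _) hz 2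
      rw [Complex.sq_norm, Complex.normSq_apply] at hsq
      simp only [Complex.sub_re, Complex.sub_im, Complex.ofReal_re, Complex.ofReal_im,
        sub_zero] at hsq
      have h2 : ‖z - 2‖ ^ 2 ≤ 2 ^ 2 := by
        rw [Complex.sq_norm, Complex.normSq_apply]
        simp only [Complex.sub_re, Complex.sub_im]
        norm_num
        nlinarith
      have h3 : ‖z - 2‖ ≤ 2 := le_of_sq_le_sq h2 (by norm_num)
      have : 6 * z - 12 = 6 * (z - 2) := by ring
      rw [this, norm_mul]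
      have h6 : ‖(6 : ℂ)‖ = 6 := by norm_num
      rw [h6]
      linarith
  obtain ⟨C, hC⟩ := coeff_bound (by linarith) hq0 hqs hzf
  refine ⟨s * C, fun k => ?_⟩
  have hk : (0 : ℝ) < (k.factorial : ℝ) := by exact_mod_cast k.factorial_pos
  rw [abs_mul, mean_coeff (by linarith), abs_of_nonneg (by positivity)]
  have e1 : s ^ (k + 1) / (k.factorial : ℝ) *
      ((k.factorial : ℝ) * ‖PowerSeries.coeff k (T (s : ℂ) Hf)‖) =
      s ^ (k + 1) * ‖PowerSeries.coeff k (T (s : ℂ) Hf)‖ := by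
    field_simp
  rw [e1]
  have e2 : s ^ (k + 1) * (C * (1 / q) ^ k) =
      s * C * Real.exp ((k : ℝ) / s) ^ (1 / 6 - 3 / (10 * s)) := by
    have e3 : Real.exp ((k : ℝ) / s) ^ (1 / 6 - 3 / (10 * s)) = (s * (1 / q)) ^ k := by
      have e4 : s * (1 / q) = Real.exp u := by
        rw [hq, Real.exp_neg]
        field_simp
      rw [e4, ← Real.exp_mul, ← Real.exp_nat_mul]
      congr 1
      rw [hu]
      field_simp
    rw [e3, mul_pow, pow_succ]
    ring
  rw [← e2]
  exact mul_le_mul_of_nonneg_left (hC k) (by positivity)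

end Pool.PWF
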