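import Pool.Agent.Helper76.OMM.Zfd

/-!
# PWF ZFZ: the zeta function has no zero in the closed disc `|w - 12| <= 12`

`(1 - 2^(1-w)) (1 - 3^(-w)) zeta(w) = sum_k ((6k+1)^(-w) - (6k+2)^(-w) - (6k+4)^(-w) + (6k+5)^(-w))`
for `Re w > 0`, and this is `1 - 2^(-w)` up to `|w| 3^(-sigma) / (3 sigma)`.
-/

set_option autoImplicit false

open Complex Finset Filter Topology MeasureTheory

namespace Pool.PWF

open Pool.OMM

/-- the terms -/
private noncomputable def g (n : ℝ) (w : ℂ) : ℂ := (n : ℂ) ^ (-w)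

private theorem g_mul {w : ℂ} (c n : ℝ) (hc : 0 ≤ c) (hn : 0 ≤ n) :
    g c w * g n w = g (c * n) w := by
  unfold g
  rw [Complex.ofReal_mul, Complex.mul_cpow_ofReal_nonneg hc hn]

private noncomputable def term (k : ℕ) (w : ℂ) : ℂ :=
  (g (6 * k + 1) w - g (6 * k + 2) w) - (g (6 * k + 4) w - g (6 * k + 5) w)

private theorem d_bound {w : ℂ} (hw : 0 < w.re) {a : ℝ} (ha : 0 < a) :
    ‖g a w - g (a + 1) w‖ ≤ ‖w‖ * a ^ (-w.re - 1) := by
  have hs0 : w ≠ 0 := by rintro rfl; simp at hw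
  have hder : ∀ x ∈ Set.Icc a (a + 1), HasDerivWithinAt (fun x : ℝ => (x : ℂ) ^ (-w))
      (-w * (x : ℂ) ^ (-w - 1)) (Set.Icc a (a + 1)) x := by
    intro x hx
    have hx0 : 0 < x := lt_of_lt_of_le ha hx.1
    exact (hasDerivAt_ofReal_cpow_const (x := x) hx0.ne' (r := -w)
      (neg_ne_zero.mpr hs0)).hasDerivWithinAt
  have hbd : ∀ x ∈ Set.Icc a (a + 1), ‖-w * (x : ℂ) ^ (-w - 1)‖ ≤ ‖w‖ * a ^ (-w.re - 1) := by
    intro x hx
    have hx0 : 0 < x := lt_of_lt_of_le ha hx.1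
    rw [norm_mul, norm_neg, Complex.norm_cpow_eq_rpow_re_of_pos hx0]
    refine mul_le_mul_of_nonneg_left ?_ (norm_nonneg _)
    have : (-w - 1).re = -w.re - 1 := by simp
    rw [this]
    exact Real.rpow_le_rpow_of_nonpos ha hx.1 (by linarith)
  have h := (convex_Icc a (a + 1)).norm_image_sub_le_of_norm_hasDerivWithin_le hder hbd
    (Set.right_mem_Icc.mpr (by linarith)) (Set.left_mem_Icc.mpr (by linarith))
  have : ‖a - (a + 1)‖ = 1 := by
    rw [show a - (a + 1) = -1 by ring]; norm_num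
  rw [this, mul_one] at h
  exact h

private theorem term_bound {w : ℂ} (hw : 0 < w.re) (k : ℕ) :
    ‖term k w‖ ≤ 2 * ‖w‖ * ((k : ℝ) + 1) ^ (-w.re - 1) := by
  have hk : (0 : ℝ) ≤ k := k.cast_nonneg
  have h1 := d_bound hw (a := 6 * (k : ℝ) + 1) (by positivity)
  have h2 := d_bound hw (a := 6 * (k : ℝ) + 4) (by positivity)
  rw [show 6 * (k : ℝ) + 1 + 1 = 6 * k + 2 by ring] at h1
  rw [show 6 * (k : ℝ) + 4 + 1 = 6 * k + 5 by ring] at h2
  have e1 : (6 * (k : ℝ) + 1) ^ (-w.re - 1) ≤ ((k : ℝ) + 1) ^ (-w.re - 1) :=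
    Real.rpow_le_rpow_of_nonpos (by positivity) (by linarith) (by linarith)
  have e2 : (6 * (k : ℝ) + 4) ^ (-w.re - 1) ≤ ((k : ℝ) + 1) ^ (-w.re - 1) :=
    Real.rpow_le_rpow_of_nonpos (by positivity) (by linarith) (by linarith)
  have e3 := mul_le_mul_of_nonneg_left e1 (norm_nonneg w)
  have e4 := mul_le_mul_of_nonneg_left e2 (norm_nonneg w)
  unfold term
  refine (norm_sub_le _ _).trans ?_
  linarith

private theorem term_bound2 {δ B : ℝ} (hδ : 0 < δ) {w : ℂ} (h1 : δ < w.re) (h2 : ‖w‖ < B) (k : ℕ) :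
    ‖term k w‖ ≤ 2 * B * ((k : ℝ) + 1) ^ (-δ - 1) := by
  refine (term_bound (hδ.trans h1) k).trans ?_
  have hB : 0 ≤ B := (norm_nonneg _).trans h2.le
  have hk : (0 : ℝ) ≤ k := k.cast_nonneg
  refine mul_le_mul (by linarith) ?_ (by positivity) (by positivity)
  exact Real.rpow_le_rpow_of_exponent_le (by linarith) (by linarith)

private lemma ser_summ {δ : ℝ} (hδ : 0 < δ) (B : ℝ) :
    Summable (fun k : ℕ => 2 * B * ((k : ℝ) + 1) ^ (-δ - 1)) := by
  refine Summable.mul_left _ ?_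
  have h : Summable (fun n : ℕ => ((n : ℝ) ^ (-δ - 1))) :=
    Real.summable_nat_rpow.mpr (by linarith)
  have h2 := (summable_nat_add_iff 1).mpr h
  refine h2.congr (fun k => ?_)
  push_cast
  rfl

private lemma term_summable {w : ℂ} (hw : 0 < w.re) : Summable (fun k => term k w) :=
  Summable.of_norm_bounded (ser_summ (half_pos hw) (‖w‖ + 1))
    (fun k => term_bound2 (half_pos hw) (by linarith) (by linarith) k)

private lemma g_diff {a : ℝ} (ha : 0 < a) : Differentiable ℂ (g a) := by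
  intro w
  exact (differentiableAt_id.neg).const_cpow (Or.inl (by exact_mod_cast ha.ne'))

private lemma term_diff (k : ℕ) : Differentiable ℂ (term k) := by
  have h1 := g_diff (a := 6 * (k : ℝ) + 1) (by positivity)
  have h2 := g_diff (a := 6 * (k : ℝ) + 2) (by positivity)
  have h4 := g_diff (a := 6 * (k : ℝ) + 4) (by positivity)
  have h5 := g_diff (a := 6 * (k : ℝ) + 5) (by positivity)
  exact (h1.sub h2).sub (h4.sub h5)

/-- the sum -/
private noncomputable def W (w : ℂ) : ℂ := ∑' k, term k w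

private lemma W_diffOn : DifferentiableOn ℂ W {s : ℂ | 0 < s.re} := by
  intro s hs
  have hs' : 0 < s.re := hs
  set U : Set ℂ := {z | s.re / 2 < z.re} ∩ {z | ‖z‖ < ‖s‖ + 1} with hU
  have hUo : IsOpen U := (isOpen_lt continuous_const Complex.continuous_re).inter
    (isOpen_lt continuous_norm continuous_const)
  have hd : DifferentiableOn ℂ (fun s => ∑' k, term k s) U :=
    differentiableOn_tsum_of_summable_norm (ser_summ (half_pos hs') (‖s‖ + 1))
      (fun k => (term_diff k).differentiableOn) hUo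
      (fun k w hw => term_bound2 (half_pos hs') hw.1 hw.2 k)
  have hsU : s ∈ U := ⟨by change s.re / 2 < s.re; linarith, by simp⟩
  exact (hd.differentiableAt (hUo.mem_nhds hsU)).differentiableWithinAt

private theorem sum_id (w : ℂ) (m : ℕ) :
    ∑ n ∈ range (6 * m), g (n + 1) w - 2 * (g 2 w * ∑ n ∈ range (3 * m), g (n + 1) w) -
      g 3 w * ∑ n ∈ range (2 * m), g (n + 1) w + 2 * (g 6 w * ∑ n ∈ range m, g (n + 1) w) =
    ∑ k ∈ range m, term k w := by
  induction m with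
  | zero => simp
  | succ m ih =>
    have hm : (0 : ℝ) ≤ m := m.cast_nonneg
    rw [show 6 * (m + 1) = 6 * m + 1 + 1 + 1 + 1 + 1 + 1 by ring,
      show 3 * (m + 1) = 3 * m + 1 + 1 + 1 by ring, show 2 * (m + 1) = 2 * m + 1 + 1 by ring,
      sum_range_succ, sum_range_succ, sum_range_succ, sum_range_succ, sum_range_succ,
      sum_range_succ, sum_range_succ _ (3 * m + 1 + 1), sum_range_succ _ (3 * m + 1),
      sum_range_succ _ (3 * m), sum_range_succ _ (2 * m + 1), sum_range_succ _ (2 * m),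
      sum_range_succ _ m, sum_range_succ _ m, ← ih]
    simp only [mul_add]
    rw [g_mul 2 _ (by norm_num) (by positivity), g_mul 2 _ (by norm_num) (by positivity),
      g_mul 2 _ (by norm_num) (by positivity), g_mul 3 _ (by norm_num) (by positivity),
      g_mul 3 _ (by norm_num) (by positivity), g_mul 6 _ (by norm_num) (by positivity)]
    unfold term
    push_cast
    rw [show (2 * (3 * (m : ℝ) + 1)) = 6 * m + 2 by ring,
      show (2 * (3 * (m : ℝ) + 1 + 1)) = 6 * m + 4 by ring,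
      show (2 * (3 * (m : ℝ) + 1 + 1 + 1)) = 6 * m + 6 by ring,
      show (3 * (2 * (m : ℝ) + 1)) = 6 * m + 3 by ring,
      show (3 * (2 * (m : ℝ) + 1 + 1)) = 6 * m + 6 by ring,
      show (6 * ((m : ℝ) + 1)) = 6 * m + 6 by ring,
      show (6 * (m : ℝ) + 1 + 1) = 6 * m + 2 by ring,
      show (6 * (m : ℝ) + 2 + 1) = 6 * m + 3 by ring,
      show (6 * (m : ℝ) + 3 + 1) = 6 * m + 4 by ring,
      show (6 * (m : ℝ) + 4 + 1) = 6 * m + 5 by ring,
      show (6 * (m : ℝ) + 5 + 1) = 6 * m + 6 by ring]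
    ring

private theorem W_eq_one {w : ℂ} (hw : 1 < w.re) :
    W w = (1 - 2 * g 2 w - g 3 w + 2 * g 6 w) * riemannZeta w := by
  have hsum : HasSum (fun n : ℕ => g (n + 1) w) (riemannZeta w) := by
    rw [zeta_eq_tsum_one_div_nat_add_one_cpow hw]
    have hS : Summable (fun n : ℕ => 1 / ((n : ℂ) + 1) ^ w) := by
      have h1 := (Complex.summable_one_div_nat_cpow (p := w)).mpr hw
      have h2 := (summable_nat_add_iff 1).mpr h1
      refine h2.congr fun n => ?_
      push_cast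
      rfl
    have h3 : (fun n : ℕ => g (n + 1) w) = fun n : ℕ => 1 / ((n : ℂ) + 1) ^ w := by
      funext n
      unfold g
      rw [Complex.cpow_neg, one_div]
      push_cast
      rfl
    rw [h3]
    exact hS.hasSum
  have h1 := hsum.tendsto_sum_nat
  have t6 : Tendsto (fun m : ℕ => 6 * m) atTop atTop := tendsto_id.const_mul_atTop' (by norm_num)
  have t3 : Tendsto (fun m : ℕ => 3 * m) atTop atTop := tendsto_id.const_mul_atTop' (by norm_num)
  have t2 : Tendsto (fun m : ℕ => 2 * m) atTop atTop := tendsto_id.const_mul_atTop' (by norm_num)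
  have h2 := (((h1.comp t6).sub (((h1.comp t3).const_mul (g 2 w)).const_mul 2)).sub
    ((h1.comp t2).const_mul (g 3 w))).add ((h1.const_mul (g 6 w)).const_mul 2)
  have h3 := (term_summable (by linarith : 0 < w.re)).hasSum.tendsto_sum_nat
  have h4 := tendsto_nhds_unique h3 (h2.congr fun m => sum_id w m)
  unfold W
  rw [h4]
  ring

/-- the identity for `Re w > 0` -/
private theorem W_eq {w : ℂ} (hw : 0 < w.re) :
    (w - 1) * W w = (1 - 2 * g 2 w - g 3 w + 2 * g 6 w) * riemannZeta₁ w := by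
  have hU : IsOpen {s : ℂ | 0 < s.re} := isOpen_lt continuous_const Complex.continuous_re
  have hf : AnalyticOnNhd ℂ (fun w => (w - 1) * W w) {s : ℂ | 0 < s.re} :=
    DifferentiableOn.analyticOnNhd
      (((differentiable_id.sub_const 1).differentiableOn).mul W_diffOn) hU
  have hg : AnalyticOnNhd ℂ (fun w => (1 - 2 * g 2 w - g 3 w + 2 * g 6 w) * riemannZeta₁ w)
      {s : ℂ | 0 < s.re} := by
    refine DifferentiableOn.analyticOnNhd (Differentiable.differentiableOn ?_) hU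
    refine Differentiable.mul ?_ differentiable_riemannZeta₁
    exact ((((g_diff (by norm_num)).const_mul 2).const_sub 1).sub (g_diff (by norm_num))).add
      ((g_diff (by norm_num)).const_mul 2)
  have hconn : IsPreconnected {s : ℂ | 0 < s.re} :=
    (convex_halfSpace_re_gt 0).isPreconnected
  have hev : (fun w => (w - 1) * W w) =ᶠ[𝓝 (2 : ℂ)]
      (fun w => (1 - 2 * g 2 w - g 3 w + 2 * g 6 w) * riemannZeta₁ w) := by
    have hV : {s : ℂ | 1 < s.re} ∈ 𝓝 (2 : ℂ) :=
      (isOpen_lt continuous_const Complex.continuous_re).mem_nhds (by simp)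
    filter_upwards [hV] with z hz
    have hz1 : 1 < z.re := hz
    have hne : z - 1 ≠ 0 := by
      intro h
      have : z = 1 := sub_eq_zero.mp h
      rw [this] at hz1
      simp at hz1
    rw [W_eq_one hz1, riemannZeta_eq_inv_sub_mul (sub_ne_zero.mp hne)]
    field_simp
  exact hf.eqOn_of_preconnected_of_eventuallyEq hg hconn (by simp : (2 : ℂ) ∈ {s : ℂ | 0 < s.re})
    hev hw

/-- the comparison of short and long differences -/
private theorem short_long' {a σ : ℝ} (hσ : 0 < σ) (ha : 3 / 2 < a) :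
    3 * ((a - 1 / 2) ^ (-σ) - (a + 1 / 2) ^ (-σ)) ≤ (a - 3 / 2) ^ (-σ) - (a + 3 / 2) ^ (-σ) := by
  have h := short_long hσ (a := 2 * a) (by linarith)
  rw [show 2 * a - 1 = 2 * (a - 1 / 2) by ring, show 2 * a + 1 = 2 * (a + 1 / 2) by ring,
    show 2 * a - 3 = 2 * (a - 3 / 2) by ring, show 2 * a + 3 = 2 * (a + 3 / 2) by ring,
    Real.mul_rpow (by norm_num) (by linarith), Real.mul_rpow (by norm_num) (by linarith),
    Real.mul_rpow (by norm_num) (by linarith), Real.mul_rpow (by norm_num) (by linarith)] at h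
  have h2 : (0 : ℝ) < 2 ^ (-σ) := by positivity
  have h3 : 2 ^ (-σ) * (3 * ((a - 1 / 2) ^ (-σ) - (a + 1 / 2) ^ (-σ))) ≤
      2 ^ (-σ) * ((a - 3 / 2) ^ (-σ) - (a + 3 / 2) ^ (-σ)) := by linarith
  exact le_of_mul_le_mul_left h3 h2

private theorem sum_id2 (w : ℂ) (m : ℕ) :
    ∑ k ∈ range m, term k w = (1 - g 2 w) + ∑ k ∈ range m, ((g (6 * k + 7) w - g (6 * k + 8) w) -
      (g (6 * k + 4) w - g (6 * k + 5) w)) - (g (6 * m + 1) w - g (6 * m + 2) w) := by
  induction m with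
  | zero => simp [g]
  | succ m ih =>
    rw [sum_range_succ, sum_range_succ, ih]
    unfold term
    push_cast
    rw [show (6 * ((m : ℝ) + 1) + 1) = 6 * m + 7 by ring,
      show (6 * ((m : ℝ) + 1) + 2) = 6 * m + 8 by ring]
    ring

private theorem sum_bound {s : ℂ} (hs : 0 < s.re) (m : ℕ) :
    ‖∑ k ∈ range m, ((g (6 * k + 7) s - g (6 * k + 8) s) -
      (g (6 * k + 4) s - g (6 * k + 5) s))‖ ≤
    ‖s‖ / s.re * (((3 : ℝ) ^ (-s.re) - (6 * (m : ℝ) + 3) ^ (-s.re)) / 3) := by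
  induction m with
  | zero => simp
  | succ m ih =>
    rw [sum_range_succ]
    refine (norm_add_le _ _).trans ?_
    have hm : (0 : ℝ) ≤ m := m.cast_nonneg
    have h1 := cpow_sub_le hs (a := 6 * (m : ℝ) + 7) (b := 6 * m + 8) (by positivity) (by linarith)
    have h2 := cpow_sub_le hs (a := 6 * (m : ℝ) + 4) (b := 6 * m + 5) (by positivity)
      (by linarith)
    have h3 := short_long' hs (a := 6 * (m : ℝ) + 15 / 2) (by linarith)
    have h4 := short_long' hs (a := 6 * (m : ℝ) + 9 / 2) (by linarith)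
    rw [show 6 * (m : ℝ) + 15 / 2 - 1 / 2 = 6 * m + 7 by ring,
      show 6 * (m : ℝ) + 15 / 2 + 1 / 2 = 6 * m + 8 by ring,
      show 6 * (m : ℝ) + 15 / 2 - 3 / 2 = 6 * m + 6 by ring,
      show 6 * (m : ℝ) + 15 / 2 + 3 / 2 = 6 * m + 9 by ring] at h3
    rw [show 6 * (m : ℝ) + 9 / 2 - 1 / 2 = 6 * m + 4 by ring,
      show 6 * (m : ℝ) + 9 / 2 + 1 / 2 = 6 * m + 5 by ring,
      show 6 * (m : ℝ) + 9 / 2 - 3 / 2 = 6 * m + 3 by ring,
      show 6 * (m : ℝ) + 9 / 2 + 3 / 2 = 6 * m + 6 by ring] at h4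
    have hc : 0 ≤ ‖s‖ / s.re := div_nonneg (norm_nonneg _) hs.le
    have h5 : ‖(g (6 * m + 7) s - g (6 * m + 8) s) - (g (6 * m + 4) s - g (6 * m + 5) s)‖ ≤
        ‖s‖ / s.re * ((6 * (m : ℝ) + 7) ^ (-s.re) - (6 * (m : ℝ) + 8) ^ (-s.re)) +
        ‖s‖ / s.re * ((6 * (m : ℝ) + 4) ^ (-s.re) - (6 * (m : ℝ) + 5) ^ (-s.re)) :=
      (norm_sub_le _ _).trans (add_le_add h1 h2)
    have h6 : ((6 * (m : ℝ) + 7) ^ (-s.re) - (6 * (m : ℝ) + 8) ^ (-s.re)) +
        ((6 * (m : ℝ) + 4) ^ (-s.re) - (6 * (m : ℝ) + 5) ^ (-s.re)) ≤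
        ((6 * (m : ℝ) + 3) ^ (-s.re) - (6 * (m : ℝ) + 9) ^ (-s.re)) / 3 := by linarith
    have h7 := mul_le_mul_of_nonneg_left h6 hc
    push_cast
    rw [show (6 * ((m : ℝ) + 1) + 3) = 6 * m + 9 by ring]
    calc _ ≤ ‖s‖ / s.re * (((3 : ℝ) ^ (-s.re) - (6 * (m : ℝ) + 3) ^ (-s.re)) / 3) +
        (‖s‖ / s.re * ((6 * (m : ℝ) + 7) ^ (-s.re) - (6 * (m : ℝ) + 8) ^ (-s.re)) +
        ‖s‖ / s.re * ((6 * (m : ℝ) + 4) ^ (-s.re) - (6 * (m : ℝ) + 5) ^ (-s.re))) :=
          add_le_add ih h5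
      _ ≤ _ := by
          rw [← mul_add]
          refine (add_le_add_right h7 _).trans (le_of_eq ?_)
          ring

private theorem g_tendsto {s : ℂ} (hs : 0 < s.re) (c : ℝ) (hc : 0 < c) :
    Tendsto (fun m : ℕ => g (6 * m + c) s) atTop (𝓝 0) := by
  rw [tendsto_zero_iff_norm_tendsto_zero]
  have h2 : Tendsto (fun m : ℕ => (6 * (m : ℝ) + c)) atTop atTop :=
    tendsto_atTop_add_const_right _ _
      (tendsto_natCast_atTop_atTop.const_mul_atTop (by norm_num : (0 : ℝ) < 6))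
  have h3 := (tendsto_rpow_neg_atTop hs).comp h2
  refine h3.congr fun m => ?_
  unfold g
  rw [Complex.norm_cpow_eq_rpow_re_of_pos (by positivity)]
  simp

private theorem near {s : ℂ} (hs : 0 < s.re) :
    ‖W s - (1 - g 2 s)‖ ≤ ‖s‖ / s.re * ((3 : ℝ) ^ (-s.re) / 3) := by
  have h1 := (term_summable hs).hasSum.tendsto_sum_nat
  have h2 : Tendsto (fun m : ℕ => ∑ k ∈ range m, term k s - (1 - g 2 s) +
      (g (6 * m + 1) s - g (6 * m + 2) s)) atTop (𝓝 (W s - (1 - g 2 s) + (0 - 0))) :=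
    (h1.sub_const _).add ((g_tendsto hs 1 one_pos).sub (g_tendsto hs 2 two_pos))
  rw [sub_zero, add_zero] at h2
  refine le_of_tendsto h2.norm (Filter.Eventually.of_forall fun m => ?_)
  rw [sum_id2 s m]
  have h4 := sum_bound hs m
  have h5 : (1 - g 2 s) + ∑ k ∈ range m, ((g (6 * k + 7) s - g (6 * k + 8) s) -
      (g (6 * k + 4) s - g (6 * k + 5) s)) - (g (6 * m + 1) s - g (6 * m + 2) s) - (1 - g 2 s) +
      (g (6 * m + 1) s - g (6 * m + 2) s) =
      ∑ k ∈ range m, ((g (6 * k + 7) s - g (6 * k + 8) s) -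
      (g (6 * k + 4) s - g (6 * k + 5) s)) := by ring
  rw [h5]
  refine h4.trans ?_
  have hc : 0 ≤ ‖s‖ / s.re := div_nonneg (norm_nonneg _) hs.le
  refine mul_le_mul_of_nonneg_left ?_ hc
  have : 0 ≤ (6 * (m : ℝ) + 3) ^ (-s.re) := by positivity
  linarith

/-- the squared norm of `1 - 2^(-w)` -/
private theorem normsq_id (w : ℂ) :
    ‖1 - g 2 w‖ ^ 2 = (1 - (2 : ℝ) ^ (-w.re)) ^ 2 +
      2 * (2 : ℝ) ^ (-w.re) * (1 - Real.cos (w.im * Real.log 2)) := by
  have e : g 2 w = ((2 : ℝ) ^ (-w.re) : ℝ) * Complex.exp (((-(w.im * Real.log 2) : ℝ) : ℂ) * I) := by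
    unfold g
    rw [Complex.cpow_def_of_ne_zero (by norm_num), Real.rpow_def_of_pos (by norm_num),
      Complex.ofReal_exp, ← Complex.exp_add, ← Complex.ofReal_log (by norm_num)]
    congr 1
    apply Complex.ext <;> simp [Complex.mul_re, Complex.mul_im] <;> ring
  rw [e, Complex.sq_norm, Complex.normSq_apply]
  simp only [Complex.sub_re, Complex.sub_im, Complex.one_re, Complex.one_im, Complex.mul_re,
    Complex.mul_im, Complex.ofReal_re, Complex.ofReal_im, Complex.exp_ofReal_mul_I_re,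
    Complex.exp_ofReal_mul_I_im, Real.cos_neg, Real.sin_neg]
  have h := Real.sin_sq_add_cos_sq (w.im * Real.log 2)
  linear_combination ((2 : ℝ) ^ (-w.re)) ^ 2 * h

/-- the polynomial inequality behind `real_ineq` -/
private theorem poly_ineq {b : ℝ} (h1 : 1 / 2 ≤ b) (h2 : b ≤ 1) :
    1 < 9 * b ^ 2 * (1 + 3 / 2 * b + 9 / 8 * b ^ 2) *
      (0.4803 * (1 - 0.4806 * (24 * b - b ^ 2) / 12)) := by
  have key : ∀ u v : ℝ, 1 / 2 ≤ u → v ≤ 1 → u ≤ b → b ≤ v →
      1 < 9 * u ^ 2 * (1 + 3 / 2 * u + 9 / 8 * u ^ 2) *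
        (0.4803 * (1 - 0.4806 * (24 * v - v ^ 2) / 12)) →
      1 < 9 * b ^ 2 * (1 + 3 / 2 * b + 9 / 8 * b ^ 2) *
        (0.4803 * (1 - 0.4806 * (24 * b - b ^ 2) / 12)) := by
    intro u v hu hv hub hbv h
    have hu0 : 0 < u := by linarith
    refine lt_of_lt_of_le h ?_
    have e1 : 9 * u ^ 2 * (1 + 3 / 2 * u + 9 / 8 * u ^ 2) ≤
        9 * b ^ 2 * (1 + 3 / 2 * b + 9 / 8 * b ^ 2) := by
      gcongr
    have e2 : 0.4803 * (1 - 0.4806 * (24 * v - v ^ 2) / 12) ≤
        0.4803 * (1 - 0.4806 * (24 * b - b ^ 2) / 12) := by nlinarith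
    have e3 : 0 ≤ 0.4803 * (1 - 0.4806 * (24 * v - v ^ 2) / 12) := by nlinarith
    exact mul_le_mul e1 e2 e3 (by positivity)
  rcases le_total b 0.57 with h | h
  · exact key 0.5 0.57 (by norm_num) (by norm_num) (by linarith) h (by norm_num)
  rcases le_total b 0.72 with h' | h'
  · exact key 0.57 0.72 (by norm_num) (by norm_num) h h' (by norm_num)
  rcases le_total b 0.89 with h'' | h''
  · exact key 0.72 0.89 (by norm_num) (by norm_num) h' h'' (by norm_num)
  rcases le_total b 0.98 with h3 | h3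
  · exact key 0.89 0.98 (by norm_num) (by norm_num) h'' h3 (by norm_num)
  · exact key 0.98 1 (by norm_num) (by norm_num) h3 h2 (by norm_num)

private theorem sin_ge {x : ℝ} (hx : 0 ≤ x) : x - x ^ 3 / 6 ≤ Real.sin x := by
  have hd : ∀ y : ℝ, HasDerivAt (fun y : ℝ => Real.sin y - (y - y ^ 3 / 6))
      (Real.cos y - (1 - y ^ 2 / 2)) y := by
    intro y
    have h1 := (Real.hasDerivAt_sin y).sub ((hasDerivAt_id y).sub ((hasDerivAt_pow 3 y).div_const 6))
    refine h1.congr_deriv ?_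
    norm_num
    ring
  have hm : MonotoneOn (fun y : ℝ => Real.sin y - (y - y ^ 3 / 6)) (Set.Ici 0) := by
    refine monotoneOn_of_deriv_nonneg (convex_Ici 0)
      (fun t _ => (hd t).continuousAt.continuousWithinAt)
      (fun t _ => (hd t).differentiableAt.differentiableWithinAt) ?_
    intro t _
    rw [(hd t).deriv]
    have := Real.one_sub_sq_div_two_le_cos (x := t)
    linarith
  have h := hm (Set.mem_Ici.mpr le_rfl) (Set.mem_Ici.mpr hx) hx
  simp at h
  linarith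

/-- `cos` from above -/
private theorem one_sub_cos_ge (x : ℝ) : x ^ 2 / 2 - x ^ 4 / 24 ≤ 1 - Real.cos x := by
  have hd : ∀ y : ℝ, HasDerivAt (fun y : ℝ => (1 - Real.cos y) - (y ^ 2 / 2 - y ^ 4 / 24))
      (Real.sin y - (y - y ^ 3 / 6)) y := by
    intro y
    have h1 := ((Real.hasDerivAt_cos y).const_sub 1).sub
      (((hasDerivAt_pow 2 y).div_const 2).sub ((hasDerivAt_pow 4 y).div_const 24))
    refine h1.congr_deriv ?_
    norm_num
    ring
  have hm : MonotoneOn (fun y : ℝ => (1 - Real.cos y) - (y ^ 2 / 2 - y ^ 4 / 24)) (Set.Ici 0) := by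
    refine monotoneOn_of_deriv_nonneg (convex_Ici 0)
      (fun t _ => (hd t).continuousAt.continuousWithinAt)
      (fun t _ => (hd t).differentiableAt.differentiableWithinAt) ?_
    intro t ht
    rw [(hd t).deriv]
    have := sin_ge (x := t) (interior_subset ht)
    linarith
  have h := hm (Set.mem_Ici.mpr le_rfl) (Set.mem_Ici.mpr (abs_nonneg x)) (abs_nonneg x)
  simp only [Real.cos_zero, Real.cos_abs, sq_abs] at h
  have h4 : |x| ^ 4 = x ^ 4 := by
    rw [show |x| ^ 4 = (|x| ^ 2) ^ 2 by ring, sq_abs]; ring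
  rw [h4] at h
  norm_num at h
  linarith

private theorem real_ineq {b t : ℝ} (h1 : 1 / 2 ≤ b) (h2 : b ≤ 1) (ht : t ^ 2 ≤ 24 * b - b ^ 2) :
    (b ^ 2 + t ^ 2) * (((3 : ℝ) ^ (-b) / (3 * b)) ^ 2) < (1 - (2 : ℝ) ^ (-b)) ^ 2 +
      2 * (2 : ℝ) ^ (-b) * (1 - Real.cos (t * Real.log 2)) := by
  set a : ℝ := (2 : ℝ) ^ (-b) with ha
  set c : ℝ := (3 : ℝ) ^ (-b) with hc
  have ha0 : 0 < a := by rw [ha]; positivity
  have hc0 : 0 < c := by rw [hc]; positivity
  have hb0 : 0 < b := by linarith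
  have ha1 : a ≤ 0.71 := by
    have : a ≤ (2 : ℝ) ^ (-(1 / 2) : ℝ) := Real.rpow_le_rpow_of_exponent_le (by norm_num) (by linarith)
    refine this.trans ?_
    rw [Real.rpow_neg (by norm_num), ← Real.sqrt_eq_rpow]
    rw [inv_le_comm₀ (by positivity) (by norm_num)]
    apply Real.le_sqrt_of_sq_le
    norm_num
  have hc1 : c ≤ 0.58 := by
    have : c ≤ (3 : ℝ) ^ (-(1 / 2) : ℝ) := Real.rpow_le_rpow_of_exponent_le (by norm_num) (by linarith)
    refine this.trans ?_
    rw [Real.rpow_neg (by norm_num), ← Real.sqrt_eq_rpow]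
    rw [inv_le_comm₀ (by positivity) (by norm_num)]
    apply Real.le_sqrt_of_sq_le
    norm_num
  have hfirst : b ^ 2 * ((c / (3 * b)) ^ 2) < (1 - a) ^ 2 := by
    have : b ^ 2 * ((c / (3 * b)) ^ 2) = (c / 3) ^ 2 := by field_simp
    rw [this]
    apply pow_lt_pow_left₀ _ (by positivity) (by norm_num)
    linarith
  have hL1 : 0.4803 < Real.log 2 ^ 2 := by nlinarith [Real.log_two_gt_d9]
  have hL2 : Real.log 2 ^ 2 < 0.4806 := by nlinarith [Real.log_two_lt_d9, Real.log_two_gt_d9]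
  set L : ℝ := Real.log 2 with hL
  have hpoly := poly_ineq h1 h2
  -- `(9/2)^b`
  have h92 : c ^ 2 * (1 + 3 / 2 * b + 9 / 8 * b ^ 2) ≤ a := by
    have e1 : 1 + 3 / 2 * b + 9 / 8 * b ^ 2 ≤ Real.exp (3 / 2 * b) := by
      have := Real.quadratic_le_exp_of_nonneg (x := 3 / 2 * b) (by positivity)
      nlinarith
    have e2 : Real.exp (3 / 2 * b) ≤ (9 / 2 : ℝ) ^ b := by
      rw [Real.rpow_def_of_pos (by norm_num)]
      apply Real.exp_le_exp.mpr
      have : 3 / 2 ≤ Real.log (9 / 2) := by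
        rw [Real.le_log_iff_exp_le (by norm_num)]
        have h1 : Real.exp (3 / 2) ^ 2 = Real.exp 1 ^ 3 := by
          rw [← Real.exp_nat_mul, ← Real.exp_nat_mul]
          norm_num
        have h2 : Real.exp 1 ^ 3 < (9 / 2) ^ 2 := by
          have := Real.exp_one_lt_d9
          have h3 : Real.exp 1 ^ 3 < 2.7182818286 ^ 3 :=
            pow_lt_pow_left₀ this (Real.exp_pos _).le (by norm_num)
          exact h3.trans (by norm_num)
        rw [← h1] at h2
        exact (lt_of_pow_lt_pow_left₀ 2 (by norm_num) h2).le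
      nlinarith
    have e3 : c ^ 2 * (9 / 2 : ℝ) ^ b = a := by
      rw [hc, ha, Real.rpow_neg (by norm_num), Real.rpow_neg (by norm_num),
        Real.div_rpow (by norm_num) (by norm_num), show (9 : ℝ) = 3 * 3 by norm_num,
        Real.mul_rpow (by norm_num) (by norm_num)]
      have : (3 : ℝ) ^ b ≠ 0 := by positivity
      have h2' : (2 : ℝ) ^ b ≠ 0 := by positivity
      field_simp
    calc c ^ 2 * (1 + 3 / 2 * b + 9 / 8 * b ^ 2) ≤ c ^ 2 * (9 / 2 : ℝ) ^ b := by
          apply mul_le_mul_of_nonneg_left (e1.trans e2) (by positivity)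
      _ = a := e3
  have hcos := one_sub_cos_ge (t * L)
  have ht0 : 0 ≤ t ^ 2 := sq_nonneg t
  have hlow : 0.4803 * (1 - 0.4806 * (24 * b - b ^ 2) / 12) ≤ L ^ 2 * (1 - L ^ 2 * t ^ 2 / 12) := by
    have e0 : 0 ≤ 1 - 0.4806 * (24 * b - b ^ 2) / 12 := by nlinarith
    have e1 : 1 - 0.4806 * (24 * b - b ^ 2) / 12 ≤ 1 - L ^ 2 * t ^ 2 / 12 := by
      have : L ^ 2 * t ^ 2 ≤ 0.4806 * (24 * b - b ^ 2) :=
        mul_le_mul hL2.le ht ht0 (by norm_num)
      linarith
    exact mul_le_mul hL1.le e1 e0 (by positivity)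
  have hsecond : t ^ 2 * ((c / (3 * b)) ^ 2) ≤ 2 * a * (1 - Real.cos (t * L)) := by
    have e1 : 2 * a * ((t * L) ^ 2 / 2 - (t * L) ^ 4 / 24) ≤ 2 * a * (1 - Real.cos (t * L)) :=
      mul_le_mul_of_nonneg_left hcos (by positivity)
    refine le_trans ?_ e1
    have e2 : 2 * a * ((t * L) ^ 2 / 2 - (t * L) ^ 4 / 24) =
        t ^ 2 * (a * (L ^ 2 * (1 - L ^ 2 * t ^ 2 / 12))) := by ring
    rw [e2]
    refine mul_le_mul_of_nonneg_left ?_ ht0
    have e3 : c ^ 2 * (1 + 3 / 2 * b + 9 / 8 * b ^ 2) *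
        (0.4803 * (1 - 0.4806 * (24 * b - b ^ 2) / 12)) ≤
        a * (L ^ 2 * (1 - L ^ 2 * t ^ 2 / 12)) := by
      have e0 : 0 ≤ 0.4803 * (1 - 0.4806 * (24 * b - b ^ 2) / 12) := by nlinarith
      exact mul_le_mul h92 hlow e0 ha0.le
    refine le_trans ?_ e3
    rw [div_pow, div_le_iff₀ (by positivity)]
    have : c ^ 2 * 1 ≤ c ^ 2 * (9 * b ^ 2 * (1 + 3 / 2 * b + 9 / 8 * b ^ 2) *
      (0.4803 * (1 - 0.4806 * (24 * b - b ^ 2) / 12))) :=
      mul_le_mul_of_nonneg_left hpoly.le (by positivity)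
    linarith
  rw [add_mul]
  linarith

private theorem zf_half {w : ℂ} (h1 : 1 / 2 ≤ w.re) (h2 : w.re < 1)
    (h3 : w.im ^ 2 ≤ 24 * w.re - w.re ^ 2) : riemannZeta₁ w ≠ 0 := by
  intro h0
  have hw : 0 < w.re := by linarith
  have hW := W_eq hw
  rw [h0, mul_zero] at hW
  have hne : w - 1 ≠ 0 := by
    intro h
    have : w = 1 := sub_eq_zero.mp h
    rw [this] at h2
    simp at h2
  have hW0 : W w = 0 := (mul_eq_zero.mp hW).resolve_left hne
  have h4 := near hw
  rw [hW0, zero_sub, norm_neg] at h4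
  have h5 : ‖1 - g 2 w‖ ^ 2 ≤ (‖w‖ / w.re * ((3 : ℝ) ^ (-w.re) / 3)) ^ 2 :=
    pow_le_pow_left₀ (norm_nonneg _) h4 2
  rw [normsq_id] at h5
  have h6 := real_ineq h1 h2.le h3
  have h7 : (‖w‖ / w.re * ((3 : ℝ) ^ (-w.re) / 3)) ^ 2 =
      (w.re ^ 2 + w.im ^ 2) * (((3 : ℝ) ^ (-w.re) / (3 * w.re)) ^ 2) := by
    have : ‖w‖ ^ 2 = w.re ^ 2 + w.im ^ 2 := by
      rw [Complex.sq_norm, Complex.normSq_apply]; ring
    rw [← this]
    field_simp
  linarith

/-- the closed disc `|w - 12| <= 12` is zero-free -/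
theorem zf {w : ℂ} (h : ‖w - 12‖ ≤ 12) : riemannZeta₁ w ≠ 0 := by
  have hsq : ‖w - 12‖ ^ 2 ≤ 12 ^ 2 := pow_le_pow_left₀ (norm_nonneg _) h 2
  rw [Complex.sq_norm, Complex.normSq_apply] at hsq
  simp only [Complex.sub_re, Complex.sub_im] at hsq
  norm_num at hsq
  have him : w.im ^ 2 ≤ 24 * w.re - w.re ^ 2 := by nlinarith
  have hre0 : 0 ≤ w.re := by nlinarith [sq_nonneg w.im, sq_nonneg w.re]
  rcases lt_or_ge w.re 1 with h1 | h1
  · rcases le_or_gt (1 / 2) w.re with h2 | h2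
    · exact zf_half h2 h1 him
    · rcases hre0.eq_or_lt with h3 | h3
      · have hi : w.im = 0 := by
          rw [← h3] at him
          nlinarith [sq_nonneg w.im]
        have : w = 0 := Complex.ext (by simp [← h3]) (by simp [hi])
        rw [this]
        intro h0
        have h4 := riemannZeta_eq_inv_sub_mul (s := 0) (by norm_num)
        rw [h0, mul_zero, riemannZeta_zero] at h4
        norm_num at h4
      · -- reflection
        intro h0
        have hw1 : w ≠ 1 := by rintro rfl; simp at h1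
        have hz : riemannZeta w = 0 := by rw [riemannZeta_eq_inv_sub_mul hw1, h0, mul_zero]
        have hz1 : riemannZeta (1 - w) = 0 := by
          rw [riemannZeta_one_sub (fun n hn => by
            rw [hn] at h3
            simp only [Complex.neg_re, Complex.natCast_re] at h3
            have : (0 : ℝ) ≤ n := n.cast_nonneg
            linarith) hw1, hz, mul_zero]
        have hz2 : riemannZeta ((starRingEnd ℂ) (1 - w)) = 0 := by
          rw [riemannZeta_conj, hz1, map_zero]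
        set w' : ℂ := (starRingEnd ℂ) (1 - w) with hw'
        have hr : w'.re = 1 - w.re := by simp [hw']
        have hi : w'.im = w.im := by simp [hw']
        have hne : w' ≠ 1 := by
          intro h5
          rw [h5] at hr
          simp at hr
          linarith
        have h6 : riemannZeta₁ w' = 0 := by
          have h7 := riemannZeta_eq_inv_sub_mul hne
          rw [hz2] at h7
          exact (mul_eq_zero.mp h7.symm).resolve_left (inv_ne_zero (sub_ne_zero.mpr hne))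
        refine zf_half (by linarith) (by linarith) ?_ h6
        rw [hr, hi]
        nlinarith
  · rcases eq_or_ne w 1 with h2 | h2
    · rw [h2]; simp
    · intro h0
      have h4 := riemannZeta_eq_inv_sub_mul h2
      rw [h0, mul_zero] at h4
      exact riemannZeta_ne_zero_of_one_le_re h1 h4

end Pool.PWF
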