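import Pool.Agent.Helper76.PWF.Dir
import Pool.Agent.Helper76.PWF.Zfz
import Pool.Agent.OMG.Tay

/-!
# PWF ANA: the continuation of `F(z)/z - A/(z-1/2) - B/(z-1/3)`
-/

set_option autoImplicit false

open Complex Finset Filter Topology MeasureTheory

namespace Pool.PWF

open Pool.OMG

/-- `Phi(z) = Z(2z) Z(3z) (6z-1) / Z(6z)`, `Z(s) = (s-1) zeta(s)` -/
noncomputable def Phi (z : ℂ) : ℂ :=
  riemannZeta₁ (2 * z) * riemannZeta₁ (3 * z) * (6 * z - 1) / riemannZeta₁ (6 * z)

/-- the holomorphic part -/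
noncomputable def Kf (z : ℂ) : ℂ :=
  dslope Phi 0 z + 2 * dslope Phi (1 / 2) z - 3 * dslope Phi (1 / 3) z

/-- the Laplace transform of `E(e^y)` -/
noncomputable def Hf (z : ℂ) : ℂ :=
  LSeries pw z / z - (cA : ℂ) / (z - 1 / 2) - (cB : ℂ) / (z - 1 / 3)

theorem exists_radius : ∃ R : ℝ, 2 < R ∧ ∀ z ∈ Metric.ball (2 : ℂ) R, riemannZeta₁ (6 * z) ≠ 0 := by
  have hcont : Continuous fun z : ℂ => riemannZeta₁ (6 * z) :=
    differentiable_riemannZeta₁.continuous.comp (continuous_const.mul continuous_id)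
  have hopen : IsOpen {z : ℂ | riemannZeta₁ (6 * z) ≠ 0} := isOpen_ne_fun hcont continuous_const
  have hsub : Metric.closedBall (2 : ℂ) 2 ⊆ {z : ℂ | riemannZeta₁ (6 * z) ≠ 0} := by
    intro z hz
    rw [Metric.mem_closedBall, dist_eq_norm] at hz
    apply zf
    have : 6 * z - 12 = 6 * (z - 2) := by ring
    rw [this, norm_mul]
    have h6 : ‖(6 : ℂ)‖ = 6 := by norm_num
    rw [h6]
    linarith
  obtain ⟨δ, hδ, hδ2⟩ := (isCompact_closedBall (2 : ℂ) 2).exists_thickening_subset_open hopen hsub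
  refine ⟨2 + δ, by linarith, fun z hz => ?_⟩
  apply hδ2
  rw [Metric.mem_thickening_iff]
  rw [Metric.mem_ball, dist_eq_norm] at hz
  -- the nearest point of the closed ball
  rcases le_or_gt ‖z - 2‖ 2 with h | h
  · exact ⟨z, by rw [Metric.mem_closedBall, dist_eq_norm]; exact h, by simpa using hδ⟩
  · have h0 : 0 < ‖z - 2‖ := by linarith
    refine ⟨2 + ((2 / ‖z - 2‖ : ℝ) : ℂ) * (z - 2), ?_, ?_⟩
    · rw [Metric.mem_closedBall, dist_eq_norm, add_sub_cancel_left, norm_mul, Complex.norm_real,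
        Real.norm_of_nonneg (by positivity), div_mul_cancel₀ _ h0.ne']
    · rw [dist_eq_norm]
      have e : z - (2 + ((2 / ‖z - 2‖ : ℝ) : ℂ) * (z - 2)) =
          ((1 - 2 / ‖z - 2‖ : ℝ) : ℂ) * (z - 2) := by push_cast; ring
      have h1 : 0 ≤ 1 - 2 / ‖z - 2‖ := by
        rw [sub_nonneg, div_le_one h0]; exact h.le
      rw [e, norm_mul, Complex.norm_real, Real.norm_of_nonneg h1, sub_mul, one_mul,
        div_mul_cancel₀ _ h0.ne']
      linarith

theorem phi_diff {R : ℝ} (h : ∀ z ∈ Metric.ball (2 : ℂ) R, riemannZeta₁ (6 * z) ≠ 0) :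
    DifferentiableOn ℂ Phi (Metric.ball 2 R) := by
  intro z hz
  have hd : ∀ c : ℂ, DifferentiableAt ℂ (fun z : ℂ => riemannZeta₁ (c * z)) z := fun c =>
    (differentiable_riemannZeta₁ (c * z)).comp z
      ((differentiableAt_const c).mul differentiableAt_id)
  have h1 : DifferentiableAt ℂ (fun z : ℂ => 6 * z - 1) z :=
    ((differentiableAt_const _).mul differentiableAt_id).sub (differentiableAt_const _)
  exact ((((hd 2).mul (hd 3)).mul h1).div (hd 6) (h z hz)).differentiableWithinAt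

theorem kf_diff {R : ℝ} (hR : 2 < R)
    (h : ∀ z ∈ Metric.ball (2 : ℂ) R, riemannZeta₁ (6 * z) ≠ 0) :
    DifferentiableOn ℂ Kf (Metric.ball 2 R) := by
  have hP := phi_diff h
  have hd : ∀ c : ℂ, ‖c - 2‖ ≤ 2 → DifferentiableOn ℂ (dslope Phi c) (Metric.ball 2 R) := by
    intro c hc
    rw [Complex.differentiableOn_dslope]
    · exact hP
    · apply Metric.isOpen_ball.mem_nhds
      rw [Metric.mem_ball, dist_eq_norm]
      linarith
  exact ((hd 0 (by norm_num)).add ((hd (1 / 2) (by norm_num)).const_mul 2)).sub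
    ((hd (1 / 3) (by norm_num)).const_mul 3)

theorem zeta_real (x : ℝ) : ((riemannZeta (x : ℂ)).re : ℂ) = riemannZeta (x : ℂ) := by
  rw [← Complex.conj_eq_iff_re, ← riemannZeta_conj, Complex.conj_ofReal]

theorem zeta_ratio_real (x y : ℝ) : ((riemannZeta (x : ℂ) / riemannZeta (y : ℂ)).re : ℂ) =
    riemannZeta (x : ℂ) / riemannZeta (y : ℂ) := by
  rw [← Complex.conj_eq_iff_re, map_div₀, ← riemannZeta_conj, ← riemannZeta_conj,
    Complex.conj_ofReal, Complex.conj_ofReal]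

theorem cA_eq : (cA : ℂ) = riemannZeta (3 / 2) / riemannZeta 3 := by
  have h := zeta_ratio_real (3 / 2) 3
  unfold cA
  push_cast at h
  exact h

theorem cB_eq : (cB : ℂ) = riemannZeta (2 / 3) / riemannZeta 2 := by
  have h := zeta_ratio_real (2 / 3) 2
  unfold cB
  push_cast at h
  exact h

private theorem z1_eq {s : ℂ} (hs : s ≠ 1) : riemannZeta₁ s = (s - 1) * riemannZeta s := by
  rw [riemannZeta_eq_inv_sub_mul hs]
  have : s - 1 ≠ 0 := sub_ne_zero.mpr hs
  field_simp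

theorem phi_zero : Phi 0 = -1 / 2 := by
  have h0 : riemannZeta₁ 0 = 1 / 2 := by
    rw [z1_eq (by norm_num), riemannZeta_zero]; norm_num
  unfold Phi
  rw [mul_zero, mul_zero, mul_zero, h0]
  norm_num

theorem phi_half : 2 * Phi (1 / 2) = cA := by
  rw [cA_eq]
  unfold Phi
  have h3 : riemannZeta 3 ≠ 0 := riemannZeta_ne_zero_of_one_le_re (by norm_num)
  rw [show (2 : ℂ) * (1 / 2) = 1 by norm_num, show (3 : ℂ) * (1 / 2) = 3 / 2 by norm_num,
    show (6 : ℂ) * (1 / 2) = 3 by norm_num, riemannZeta₁_one, z1_eq (s := 3 / 2) (by norm_num),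
    z1_eq (s := 3) (by norm_num)]
  field_simp
  ring

theorem phi_third : -3 * Phi (1 / 3) = cB := by
  rw [cB_eq]
  unfold Phi
  have h3 : riemannZeta 2 ≠ 0 := riemannZeta_ne_zero_of_one_le_re (by norm_num)
  rw [show (2 : ℂ) * (1 / 3) = 2 / 3 by norm_num, show (3 : ℂ) * (1 / 3) = 1 by norm_num,
    show (6 : ℂ) * (1 / 3) = 2 by norm_num, riemannZeta₁_one, z1_eq (s := 2 / 3) (by norm_num),
    z1_eq (s := 2) (by norm_num)]
  field_simp
  ring

private theorem key_id (z L a b : ℂ) (h0 : z ≠ 0) (e2 : 2 * z - 1 ≠ 0) (e3 : 3 * z - 1 ≠ 0) :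
    L / z - 2 * a / (z - 1 / 2) - -3 * b / (z - 1 / 3) =
    -1 / 2 / z + (((2 * z - 1) * (3 * z - 1) * L - -1 / 2) / z +
      2 * (((2 * z - 1) * (3 * z - 1) * L - a) / (z - 1 / 2)) -
      3 * (((2 * z - 1) * (3 * z - 1) * L - b) / (z - 1 / 3))) := by
  have d2 : z - 1 / 2 = (2 * z - 1) / 2 := by ring
  have d3 : z - 1 / 3 = (3 * z - 1) / 3 := by ring
  rw [d2, d3]
  set u := 2 * z - 1 with hu
  set v := 3 * z - 1 with hv
  have h1 : (L / z - 2 * a / (u / 2) - -3 * b / (v / 3)) -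
    (-1 / 2 / z + ((u * v * L - -1 / 2) / z + 2 * ((u * v * L - a) / (u / 2)) -
      3 * ((u * v * L - b) / (v / 3)))) = L / z * (1 - u * v - 4 * v * z + 9 * u * z) := by
    field_simp
    ring
  have h2 : 1 - u * v - 4 * v * z + 9 * u * z = 0 := by rw [hu, hv]; ring
  rw [h2, mul_zero] at h1
  exact sub_eq_zero.mp h1

theorem hf_eq {z : ℂ} (hz : 1 / 2 < z.re) : Hf z = (-1 / 2 : ℂ) / (z - 0) + Kf z := by
  have hne : ∀ c : ℂ, c.re ≤ 1 / 2 → z - c ≠ 0 := by
    intro c hc h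
    have : z = c := sub_eq_zero.mp h
    rw [this] at hz
    linarith
  have h0 := hne 0 (by norm_num)
  have h2 := hne (1 / 2) (by norm_num)
  have h3 := hne (1 / 3) (by norm_num)
  rw [sub_zero] at h0
  have hs := pw_series hz
  have h6 : riemannZeta (6 * z) ≠ 0 := riemannZeta_ne_zero_of_one_le_re (by simp; linarith)
  have e2 : (2 * z - 1) ≠ 0 := by
    intro h; apply h2; linear_combination h / 2
  have e3 : (3 * z - 1) ≠ 0 := by
    intro h; apply h3; linear_combination h / 3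
  have e6 : (6 * z - 1) ≠ 0 := by
    intro h; apply hne (1 / 6) (by norm_num); linear_combination h / 6
  have hP : Phi z = (2 * z - 1) * (3 * z - 1) * LSeries pw z := by
    unfold Phi
    rw [z1_eq (sub_ne_zero.mp e2), z1_eq (sub_ne_zero.mp e3), z1_eq (sub_ne_zero.mp e6)]
    rw [div_eq_iff (mul_ne_zero e6 h6)]
    linear_combination (-(2 * z - 1) * (3 * z - 1) * (6 * z - 1)) * hs
  unfold Hf Kf
  rw [dslope_of_ne _ (sub_ne_zero.mp (by rwa [sub_zero])), dslope_of_ne _ (sub_ne_zero.mp h2),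
    dslope_of_ne _ (sub_ne_zero.mp h3), slope_def_field, slope_def_field, slope_def_field,
    ← phi_half, ← phi_third, phi_zero, hP, sub_zero]
  exact key_id z _ _ _ h0 e2 e3

/-- the Taylor coefficients at `2` -/
theorem hf_coeff : ∃ q D : ℝ, 2 < q ∧ ∀ k : ℕ,
    ‖PowerSeries.coeff k (T (2 : ℂ) Hf) - (-1 / 2) * (1 / 2) ^ (k + 1)‖ ≤
      D * (1 / q) ^ (k + 1) := by
  obtain ⟨R, hR, h⟩ := exists_radius
  have hK := kf_diff hR h
  obtain ⟨C, hC⟩ := T_bound (q := (2 + R) / 2) hK (by linarith) (by linarith)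
  refine ⟨(2 + R) / 2, C * ((2 + R) / 2), by linarith, fun k => ?_⟩
  have hq0 : (0 : ℝ) < (2 + R) / 2 := by linarith
  have hopen : {s : ℂ | 1 / 2 < s.re} ∈ 𝓝 (2 : ℂ) := by
    apply (isOpen_lt continuous_const Complex.continuous_re).mem_nhds
    norm_num
  have hcongr : T (2 : ℂ) Hf = T (2 : ℂ) (fun z => (-1 / 2 : ℂ) / (z - 0) + Kf z) := by
    apply T_congr
    filter_upwards [hopen] with z hz
    exact hf_eq hz
  have hadd : T (2 : ℂ) (fun z => (-1 / 2 : ℂ) / (z - 0) + Kf z) =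
      T (2 : ℂ) (fun z => (-1 / 2 : ℂ) / (z - 0)) + T (2 : ℂ) Kf := by
    apply T_add
    · apply DifferentiableOn.analyticAt (s := {z : ℂ | 1 / 2 < z.re}) _ hopen
      intro z hz
      have hz1 : 1 / 2 < z.re := hz
      have hne : z - 0 ≠ 0 := by
        rw [sub_zero]; rintro rfl; norm_num at hz1
      have hd : DifferentiableAt ℂ (fun z : ℂ => z - 0) z := by fun_prop
      exact ((differentiableAt_const _).div hd hne).differentiableWithinAt
    · exact hK.analyticAt (Metric.isOpen_ball.mem_nhds (Metric.mem_ball_self (by linarith)))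
  rw [hcongr, hadd, map_add, T_inv (by norm_num), sub_zero, add_sub_cancel_left]
  refine (hC k).trans (le_of_eq ?_)
  rw [pow_succ]
  field_simp

end Pool.PWF
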