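import Pool.Agent.Helper76.PWF.Defs

/-!
# MP_3c396f_nt: the bound in mean and the condition on the zeros, definitions
-/

set_option autoImplicit false

open Complex Finset Filter Topology MeasureTheory

namespace Pool.PWF

/-- the means of `E` with the weights `(log x)^k x^(-s-1)` are at most a constant `C(s)` times the
means of `x^r` -/
def MeanBound (r : ℝ) : Prop := ∀ s : ℝ, 1 / 2 < s → ∃ C : ℝ, ∀ k : ℕ,
  |∫ x in Set.Ioi (1 : ℝ), E x * Real.log x ^ k * x ^ (-s - 1)| ≤
    C * ∫ x in Set.Ioi (1 : ℝ), x ^ r * Real.log x ^ k * x ^ (-s - 1)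

/-- every `rho` with `b < Re rho < 1` has as a zero of `zeta` at most the multiplicity of `rho/2`
plus the multiplicity of `rho/3` (multiplicity zero if `zeta` does not vanish) -/
def ZeroCond (b : ℝ) : Prop := ∀ ρ : ℂ, b < ρ.re → ρ.re < 1 →
  analyticOrderAt riemannZeta ρ ≤
    analyticOrderAt riemannZeta (ρ / 2) + analyticOrderAt riemannZeta (ρ / 3)

end Pool.PWF
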