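import Pool.Agent.Helper76.PWF.Ext
import Pool.Agent.Helper76.PWF.DefsC

/-!
# PWF CRIT: the bound in mean with one exponent below `1/6` for all `s` is equivalent to a condition
# on the zeros of `zeta` near the line `Re = 1`
-/

set_option autoImplicit false

open Complex Finset Filter Topology MeasureTheory

namespace Pool.PWF

open Pool.OMG

private theorem exp_image : Real.exp '' Set.Ioi 0 = Set.Ioi 1 := by
  ext t
  constructor
  · rintro ⟨y, hy, rfl⟩
    exact Real.one_lt_exp_iff.2 hy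
  · intro ht
    have ht1 : (1 : ℝ) < t := ht
    exact ⟨Real.log t, Real.log_pos ht1, Real.exp_log (by linarith)⟩

theorem exp_int {b : ℝ} (hb : 0 < b) (k : ℕ) :
    ∫ y in Set.Ioi (0 : ℝ), y ^ k * Real.exp (-(b * y)) = (k.factorial : ℝ) / b ^ (k + 1) := by
  have h := Real.integral_rpow_mul_exp_neg_mul_Ioi (a := (k : ℝ) + 1) (r := b) (by positivity) hb
  rw [Real.Gamma_nat_eq_factorial, add_sub_cancel_right] at h
  simp only [Real.rpow_natCast] at h
  rw [h]
  have : (1 / b) ^ ((k : ℝ) + 1) = 1 / b ^ (k + 1) := by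
    have h2 : ((k : ℝ) + 1) = ((k + 1 : ℕ) : ℝ) := by push_cast; ring
    rw [h2, Real.rpow_natCast, one_div_pow]
  rw [this]
  ring

/-- the means of `x^r` -/
theorem pow_mean {r s : ℝ} (h : r < s) (k : ℕ) :
    ∫ x in Set.Ioi (1 : ℝ), x ^ r * Real.log x ^ k * x ^ (-s - 1) =
      (k.factorial : ℝ) / (s - r) ^ (k + 1) := by
  rw [← exp_int (b := s - r) (by linarith) k, ← exp_image,
    integral_image_eq_integral_abs_deriv_smul measurableSet_Ioi
    (fun x _ => (Real.hasDerivAt_exp x).hasDerivWithinAt) (Real.exp_injective.injOn)]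
  refine setIntegral_congr_fun measurableSet_Ioi ?_
  intro y _
  simp only
  rw [Real.abs_exp, smul_eq_mul, Real.log_exp, ← Real.exp_mul, ← Real.exp_mul]
  have e : Real.exp (-((s - r) * y)) = Real.exp y * (Real.exp (y * r) * Real.exp (y * (-s - 1))) := by
    rw [← Real.exp_add, ← Real.exp_add]; congr 1; ring
  rw [e]
  ring

/-- the bound `E(x) = O(x^r)` implies the bound in mean -/
theorem q1_mean {r : ℝ} (hr0 : 0 ≤ r) (hr1 : r < 1 / 6)
    (h : E =O[atTop] fun x : ℝ => x ^ r) : MeanBound r := by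
  obtain ⟨c, hc⟩ := h.bound
  obtain ⟨x0, hx0⟩ := Filter.eventually_atTop.mp hc
  obtain ⟨C1, hC1⟩ := E_bound (r := 3 / 4) (by norm_num)
  have hC1' : 0 ≤ C1 := by
    have h1 := (abs_nonneg _).trans (hC1 0 le_rfl)
    simpa using h1
  set x1 : ℝ := max x0 1 with hx1
  have hbd : ∀ y : ℝ, 0 ≤ y → |E (Real.exp y)| ≤ (|c| + C1 * x1 ^ (3 / 4 : ℝ)) *
      Real.exp (r * y) := by
    intro y hy
    have hx1' : 1 ≤ x1 := le_max_right _ _
    have h1 : 1 ≤ Real.exp (r * y) := Real.one_le_exp (by positivity)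
    rcases le_or_gt x0 (Real.exp y) with h2 | h2
    · have h3 := hx0 _ h2
      rw [Real.norm_eq_abs, Real.norm_of_nonneg (by positivity), ← Real.exp_mul] at h3
      calc |E (Real.exp y)| ≤ c * Real.exp (y * r) := h3
        _ ≤ |c| * Real.exp (r * y) := by
            rw [mul_comm y r]
            exact mul_le_mul_of_nonneg_right (le_abs_self c) (Real.exp_pos _).le
        _ ≤ _ := by
            have : 0 ≤ C1 * x1 ^ (3 / 4 : ℝ) := by positivity
            nlinarith [Real.exp_pos (r * y)]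
    · have h3 := hC1 y hy
      have h4 : Real.exp (3 / 4 * y) ≤ x1 ^ (3 / 4 : ℝ) := by
        have : Real.exp (3 / 4 * y) = Real.exp y ^ (3 / 4 : ℝ) := by
          rw [← Real.exp_mul]; ring_nf
        rw [this]
        exact Real.rpow_le_rpow (Real.exp_pos _).le (h2.le.trans (le_max_left _ _)) (by norm_num)
      have h5 : C1 * Real.exp (3 / 4 * y) ≤ C1 * x1 ^ (3 / 4 : ℝ) :=
        mul_le_mul_of_nonneg_left h4 hC1'
      have h6 : 0 ≤ |c| := abs_nonneg c
      have h7 : 0 ≤ C1 * x1 ^ (3 / 4 : ℝ) := by positivity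
      calc |E (Real.exp y)| ≤ C1 * x1 ^ (3 / 4 : ℝ) := h3.trans h5
        _ ≤ (|c| + C1 * x1 ^ (3 / 4 : ℝ)) * 1 := by linarith
        _ ≤ _ := mul_le_mul_of_nonneg_left h1 (by positivity)
  refine fun s hs => ⟨|c| + C1 * x1 ^ (3 / 4 : ℝ), fun k => ?_⟩
  set C : ℝ := |c| + C1 * x1 ^ (3 / 4 : ℝ) with hC
  rw [pow_mean (by linarith), mean_eq, abs_mul, Nat.abs_cast]
  have hk : (0 : ℝ) < (k.factorial : ℝ) := by exact_mod_cast k.factorial_pos
  have hsr : 0 < s - r := by linarith
  have hJ : |Jc (fun y => E (Real.exp y)) s k| ≤ C * (1 / (s - r) ^ (k + 1)) := by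
    unfold Jc
    have hint : IntegrableOn (fun y : ℝ => C / (k.factorial : ℝ) *
        (y ^ k * Real.exp (-((s - r) * y)))) (Set.Ioi 0) := by
      refine Integrable.const_mul ?_ _
      have h1 := integrableOn_rpow_mul_exp_neg_mul_rpow (p := 1) (s := (k : ℝ)) (b := s - r)
        (by have : (0 : ℝ) ≤ k := Nat.cast_nonneg k
            linarith) one_pos hsr
      refine h1.congr_fun ?_ measurableSet_Ioi
      intro y _
      simp only [Real.rpow_natCast, Real.rpow_one, neg_mul]
    have h1 := norm_integral_le_of_norm_le hint (f := fun y : ℝ => E (Real.exp y) *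
      Real.exp (-s * y) * y ^ k / (k.factorial : ℝ)) (μ := volume.restrict (Set.Ioi 0)) (by
        refine (ae_restrict_iff' measurableSet_Ioi).2 (Filter.Eventually.of_forall ?_)
        intro y hy
        have hy0 : 0 < y := hy
        rw [Real.norm_eq_abs, abs_div, abs_mul, abs_mul, Real.abs_exp, Nat.abs_cast,
          abs_of_nonneg (pow_nonneg hy0.le k)]
        have h2 := hbd y hy0.le
        have e : Real.exp (r * y) * Real.exp (-s * y) = Real.exp (-((s - r) * y)) := by
          rw [← Real.exp_add]; congr 1; ring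
        calc |E (Real.exp y)| * Real.exp (-s * y) * y ^ k / (k.factorial : ℝ) ≤
            (C * Real.exp (r * y)) * Real.exp (-s * y) * y ^ k / (k.factorial : ℝ) := by
              gcongr
          _ = C / (k.factorial : ℝ) * (y ^ k * (Real.exp (r * y) * Real.exp (-s * y))) := by ring
          _ = _ := by rw [e])
    rw [integral_const_mul, exp_int hsr] at h1
    rw [Real.norm_eq_abs] at h1
    refine h1.trans (le_of_eq ?_)
    field_simp
  calc (k.factorial : ℝ) * |Jc (fun y => E (Real.exp y)) s k| ≤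
      (k.factorial : ℝ) * (C * (1 / (s - r) ^ (k + 1))) := mul_le_mul_of_nonneg_left hJ hk.le
    _ = _ := by ring

/-- the numerator -/
noncomputable def Nn (z : ℂ) : ℂ := riemannZeta₁ (2 * z) * riemannZeta₁ (3 * z) * (6 * z - 1)

theorem Nn_diff : Differentiable ℂ Nn := by
  unfold Nn; fun_prop

theorem ord_Nn {z : ℂ} (h1 : (6 * z).re < 1) : analyticOrderAt Nn z =
    analyticOrderAt riemannZeta (6 * z / 2) + analyticOrderAt riemannZeta (6 * z / 3) := by
  have hre : (6 * z).re = 6 * z.re := by simp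
  rw [hre] at h1
  have hd : ∀ c : ℂ, AnalyticAt ℂ (fun z => riemannZeta₁ (c * z)) z := fun c =>
    Differentiable.analyticAt (by fun_prop) z
  have h2 : analyticOrderAt (fun z : ℂ => 6 * z - 1) z = 0 := by
    rw [AnalyticAt.analyticOrderAt_eq_zero (by fun_prop)]
    intro h
    have h3 : (6 * z - 1).re = 0 := by rw [h]; simp
    simp at h3
    linarith
  have e : Nn = ((fun z => riemannZeta₁ (2 * z)) * (fun z => riemannZeta₁ (3 * z))) *
      (fun z : ℂ => 6 * z - 1) := rfl
  have hne : ∀ c : ℝ, 0 < c → c ≤ 3 → ((c : ℂ) * z) ≠ 1 := by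
    intro c hc hc3 h
    have h3 : ((c : ℂ) * z).re = 1 := by rw [h]; simp
    have h4 : ((c : ℂ) * z).re = c * z.re := by simp
    rw [h4] at h3
    nlinarith
  have n2 := hne 2 (by norm_num) (by norm_num)
  have n3 := hne 3 (by norm_num) le_rfl
  push_cast at n2 n3
  rw [e, analyticOrderAt_mul ((hd 2).mul (hd 3)) (by fun_prop), h2, add_zero,
    analyticOrderAt_mul (hd 2) (hd 3), ord_comp (by norm_num), ord_comp (by norm_num),
    ord_zeta n2, ord_zeta n3, add_comm]
  congr 2 <;> ring

theorem ord_D {z : ℂ} (h1 : (6 * z).re < 1) :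
    analyticOrderAt (fun z => riemannZeta₁ (6 * z)) z = analyticOrderAt riemannZeta (6 * z) := by
  rw [ord_comp (by norm_num), ord_zeta]
  intro h
  rw [h] at h1
  simp at h1

private theorem z1_eq {s : ℂ} (hs : s ≠ 1) : riemannZeta₁ s = (s - 1) * riemannZeta s := by
  rw [riemannZeta_eq_inv_sub_mul hs]
  have : s - 1 ≠ 0 := sub_ne_zero.mpr hs
  field_simp

theorem hf_mul {z : ℂ} (hz : 1 / 2 < z.re) : riemannZeta₁ (6 * z) *
    (6 * z * (z - 1 / 2) * (z - 1 / 3) * Hf z + 6 * z * (z - 1 / 3) * cA +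
      6 * z * (z - 1 / 2) * cB) = Nn z := by
  have hne : ∀ c : ℂ, c.re ≤ 1 / 2 → z - c ≠ 0 := by
    intro c hc h
    have : z = c := sub_eq_zero.mp h
    rw [this] at hz
    linarith
  have h0 := hne 0 (by norm_num)
  have h2 := hne (1 / 2) (by norm_num)
  have h3 := hne (1 / 3) (by norm_num)
  rw [sub_zero] at h0
  have hs := pw_series hz
  have e2 : (2 * z - 1) ≠ 0 := by
    intro h; apply h2; linear_combination h / 2
  have e3 : (3 * z - 1) ≠ 0 := by
    intro h; apply h3; linear_combination h / 3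
  have e6 : (6 * z - 1) ≠ 0 := by
    intro h; apply hne (1 / 6) (by norm_num); linear_combination h / 6
  have hG : 6 * z * (z - 1 / 2) * (z - 1 / 3) * Hf z + 6 * z * (z - 1 / 3) * cA +
      6 * z * (z - 1 / 2) * cB = (2 * z - 1) * (3 * z - 1) * LSeries pw z := by
    unfold Hf
    have t1 : 6 * z * (z - 1 / 2) * (z - 1 / 3) * (LSeries pw z / z) =
        6 * (z - 1 / 2) * (z - 1 / 3) * LSeries pw z := by field_simp
    have t2 : 6 * z * (z - 1 / 2) * (z - 1 / 3) * ((cA : ℂ) / (z - 1 / 2)) =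
        6 * z * (z - 1 / 3) * cA := by
      rw [show 6 * z * (z - 1 / 2) * (z - 1 / 3) * ((cA : ℂ) / (z - 1 / 2)) =
        (6 * z * (z - 1 / 3)) * ((z - 1 / 2) * ((cA : ℂ) / (z - 1 / 2))) by ring,
        mul_div_cancel₀ _ h2]
    have t3 : 6 * z * (z - 1 / 2) * (z - 1 / 3) * ((cB : ℂ) / (z - 1 / 3)) =
        6 * z * (z - 1 / 2) * cB := by
      rw [show 6 * z * (z - 1 / 2) * (z - 1 / 3) * ((cB : ℂ) / (z - 1 / 3)) =
        (6 * z * (z - 1 / 2)) * ((z - 1 / 3) * ((cB : ℂ) / (z - 1 / 3))) by ring,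
        mul_div_cancel₀ _ h3]
    rw [mul_sub, mul_sub, t1, t2, t3]
    ring
  rw [hG]
  unfold Nn
  rw [z1_eq (sub_ne_zero.mp e2), z1_eq (sub_ne_zero.mp e3), z1_eq (sub_ne_zero.mp e6)]
  linear_combination ((2 * z - 1) * (3 * z - 1) * (6 * z - 1)) * hs

theorem hf_analytic {s : ℝ} (hs : 1 / 2 < s) : AnalyticAt ℂ Hf (s : ℂ) := by
  have hz : ∀ z ∈ Metric.ball (s : ℂ) (s - 1 / 2), 1 / 2 < z.re := by
    intro z hz
    rw [Metric.mem_ball, dist_eq_norm] at hz
    have h1 : |(z - s).re| ≤ ‖z - s‖ := Complex.abs_re_le_norm _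
    have h2 := neg_abs_le (z - s).re
    simp only [Complex.sub_re, Complex.ofReal_re] at h1 h2
    linarith
  have hK := kf_diff' (phi_diff' (c := (s : ℂ)) (R := s - 1 / 2) (fun z hz' => zf_one (by
    have := hz z hz'
    simp
    linarith)))
  have hd : DifferentiableOn ℂ (fun z => (-1 / 2 : ℂ) / (z - 0) + Kf z)
      (Metric.ball (s : ℂ) (s - 1 / 2)) := by
    refine DifferentiableOn.add ?_ hK
    intro z hz'
    have hz1 := hz z hz'
    have hne : z - 0 ≠ 0 := by
      rw [sub_zero]; rintro rfl; norm_num at hz1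
    have hd : DifferentiableAt ℂ (fun z : ℂ => z - 0) z := by fun_prop
    exact ((differentiableAt_const _).div hd hne).differentiableWithinAt
  have hd2 : DifferentiableOn ℂ Hf (Metric.ball (s : ℂ) (s - 1 / 2)) :=
    hd.congr (fun z hz' => hf_eq (hz z hz'))
  exact hd2.analyticAt (Metric.isOpen_ball.mem_nhds (Metric.mem_ball_self (by linarith)))

/-- the bound in mean implies the condition on the zeros -/
theorem mean_zero {r : ℝ} (hr0 : 0 ≤ r) (h : MeanBound r) : ZeroCond (6 * r) := by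
  intro ρ hρ1 hρ2
  set z0 : ℂ := ρ / 6 with hz0
  have hρ : 6 * z0 = ρ := by rw [hz0]; ring
  have hx : z0.re = ρ.re / 6 := by rw [← hρ]; simp
  have hxr : r < z0.re := by rw [hx]; linarith
  have hx6 : z0.re < 1 / 6 := by rw [hx]; linarith
  set s : ℝ := z0.im ^ 2 / (z0.re - r) + 2 with hs
  have hd : 0 < z0.re - r := by linarith
  have hs2 : 2 ≤ s := by
    rw [hs]
    have : 0 ≤ z0.im ^ 2 / (z0.re - r) := by positivity
    linarith
  have hsr : 0 < s - r := by linarith
  have hmem : z0 ∈ Metric.ball (s : ℂ) (s - r) := by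
    rw [Metric.mem_ball, dist_eq_norm]
    apply lt_of_pow_lt_pow_left₀ 2 hsr.le
    rw [Complex.sq_norm, Complex.normSq_apply]
    simp only [Complex.sub_re, Complex.sub_im, Complex.ofReal_re, Complex.ofReal_im, sub_zero]
    have e : (s - 2) * (z0.re - r) = z0.im ^ 2 := by
      rw [hs]; field_simp; ring
    nlinarith
  obtain ⟨C, hC⟩ := h s (by linarith)
  have hopen2 : {s : ℂ | 1 / 2 < s.re} ∈ 𝓝 (s : ℂ) := by
    apply (isOpen_lt continuous_const Complex.continuous_re).mem_nhds
    show 1 / 2 < (s : ℂ).re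
    rw [Complex.ofReal_re]
    linarith
  -- `Hf` is analytic at `s`
  have hHan : AnalyticAt ℂ Hf (s : ℂ) := hf_analytic (by linarith)
  obtain ⟨F, hF, hFH⟩ := ext_of_coeff (C := C / (s - r)) hHan hsr (fun k => by
    have h1 := hC k
    rw [mean_coeff (by linarith), pow_mean (by linarith)] at h1
    have hk : (0 : ℝ) < (k.factorial : ℝ) := by exact_mod_cast k.factorial_pos
    have h2 : (k.factorial : ℝ) * ‖PowerSeries.coeff k (T (s : ℂ) Hf)‖ ≤
        (k.factorial : ℝ) * (C / (s - r) * (1 / (s - r)) ^ k) := by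
      refine h1.trans (le_of_eq ?_)
      rw [pow_succ, one_div_pow]
      field_simp
    exact le_of_mul_le_mul_left h2 hk)
  set G : ℂ → ℂ := fun z => 6 * z * (z - 1 / 2) * (z - 1 / 3) * F z +
    6 * z * (z - 1 / 3) * cA + 6 * z * (z - 1 / 2) * cB with hG
  have hGd : DifferentiableOn ℂ G (Metric.ball (s : ℂ) (s - r)) := by
    refine DifferentiableOn.add (DifferentiableOn.add (DifferentiableOn.mul ?_ hF) ?_) ?_
    · exact Differentiable.differentiableOn (by fun_prop)
    · exact Differentiable.differentiableOn (by fun_prop)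
    · exact Differentiable.differentiableOn (by fun_prop)
  have hid : Set.EqOn (fun z => riemannZeta₁ (6 * z) * G z) Nn (Metric.ball (s : ℂ) (s - r)) := by
    have hf : AnalyticOnNhd ℂ (fun z => riemannZeta₁ (6 * z) * G z)
        (Metric.ball (s : ℂ) (s - r)) :=
      DifferentiableOn.analyticOnNhd (DifferentiableOn.mul
        (Differentiable.differentiableOn (by fun_prop)) hGd) Metric.isOpen_ball
    have hg : AnalyticOnNhd ℂ Nn (Metric.ball (s : ℂ) (s - r)) :=
      fun z _ => Nn_diff.analyticAt z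
    refine hf.eqOn_of_preconnected_of_eventuallyEq hg (convex_ball _ _).isPreconnected
      (Metric.mem_ball_self hsr) ?_
    filter_upwards [hFH, hopen2] with z hz1 hz2
    have hz2' : 1 / 2 < z.re := hz2
    simp only [hG]
    rw [hz1]
    exact hf_mul hz2'
  have h1 : Nn =ᶠ[𝓝 z0] (fun z => riemannZeta₁ (6 * z)) * G := by
    filter_upwards [Metric.isOpen_ball.mem_nhds hmem] with z hz
    exact (hid hz).symm
  have h2 := analyticOrderAt_congr h1
  have hGa : AnalyticAt ℂ G z0 := hGd.analyticAt (Metric.isOpen_ball.mem_nhds hmem)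
  have hDa : AnalyticAt ℂ (fun z => riemannZeta₁ (6 * z)) z0 :=
    Differentiable.analyticAt (by fun_prop) z0
  rw [analyticOrderAt_mul hDa hGa, ord_Nn (by rw [hρ]; exact hρ2),
    ord_D (by rw [hρ]; exact hρ2), hρ] at h2
  rw [h2]
  exact le_self_add

/-- the condition on the zeros implies the bound in mean, for every larger exponent -/
theorem zero_mean {r0 r : ℝ} (h0 : 0 ≤ r0) (h1 : r0 < r) (h2 : r < 1 / 6)
    (h : ZeroCond (6 * r0)) : MeanBound r := by
  set U : Set ℂ := {z : ℂ | r0 < z.re} with hU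
  have hUo : IsOpen U := isOpen_lt continuous_const Complex.continuous_re
  have hDd : Differentiable ℂ (fun z : ℂ => riemannZeta₁ (6 * z)) := by fun_prop
  obtain ⟨P, hPd, hP⟩ := quot_ext (N := Nn) (D := fun z => riemannZeta₁ (6 * z)) (U := U) Nn_diff
    hDd ord_fin (fun z hz => by
      have hz' : r0 < z.re := hz
      have hre : (6 * z).re = 6 * z.re := by simp
      rcases le_or_gt 1 (6 * z).re with h3 | h3
      · have h4 : analyticOrderAt (fun z => riemannZeta₁ (6 * z)) z = 0 := by
          rw [(hDd.analyticAt z).analyticOrderAt_eq_zero]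
          exact zf_one h3
        rw [h4]
        exact bot_le
      · rw [ord_D h3, ord_Nn h3]
        exact h (6 * z) (by rw [hre]; linarith) h3)
  have hPhi : ∀ z ∈ U, riemannZeta₁ (6 * z) ≠ 0 → P z = Phi z := fun z hz hz2 => hP z hz hz2
  have m2 : (1 / 2 : ℂ) ∈ U := by
    show r0 < (1 / 2 : ℂ).re
    norm_num
    linarith
  have m3 : (1 / 3 : ℂ) ∈ U := by
    show r0 < (1 / 3 : ℂ).re
    norm_num
    linarith
  have p2 : P (1 / 2) = Phi (1 / 2) := hPhi _ m2 (zf_one (by norm_num))
  have p3 : P (1 / 3) = Phi (1 / 3) := hPhi _ m3 (zf_one (by norm_num))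
  set K1 : ℂ → ℂ := fun z => P z / z + 2 * dslope P (1 / 2) z - 3 * dslope P (1 / 3) z with hK1
  have hK1d : DifferentiableOn ℂ K1 U := by
    refine DifferentiableOn.sub (DifferentiableOn.add ?_ ?_) ?_
    · refine hPd.div differentiableOn_id (fun z hz h3 => ?_)
      have hz' : r0 < z.re := hz
      have h4 : z = 0 := h3
      rw [h4] at hz'
      simp at hz'
      linarith
    · exact ((Complex.differentiableOn_dslope (hUo.mem_nhds m2)).mpr hPd).const_mul 2
    · exact ((Complex.differentiableOn_dslope (hUo.mem_nhds m3)).mpr hPd).const_mul 3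
  intro s hs
  have hball : Metric.ball (s : ℂ) (s - r0) ⊆ U := by
    intro z hz
    rw [Metric.mem_ball, dist_eq_norm] at hz
    have h3 : |(z - s).re| ≤ ‖z - s‖ := Complex.abs_re_le_norm _
    have h4 := neg_abs_le (z - s).re
    simp only [Complex.sub_re, Complex.ofReal_re] at h3 h4
    show r0 < z.re
    linarith
  obtain ⟨C, hC⟩ := T_bound (q := s - r) (hK1d.mono hball) (by linarith) (by linarith)
  have hT : T (s : ℂ) Hf = T (s : ℂ) K1 := by
    apply T_congr
    have hopen2 : {s : ℂ | 1 / 2 < s.re} ∈ 𝓝 (s : ℂ) := by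
      apply (isOpen_lt continuous_const Complex.continuous_re).mem_nhds
      show 1 / 2 < (s : ℂ).re
      rw [Complex.ofReal_re]
      exact hs
    filter_upwards [hopen2] with z hz
    have hz' : 1 / 2 < z.re := hz
    have hne : ∀ c : ℂ, c.re ≤ 1 / 2 → z - c ≠ 0 := by
      intro c hc h
      have : z = c := sub_eq_zero.mp h
      rw [this] at hz'
      linarith
    have n0 := hne 0 (by norm_num)
    have n2 := hne (1 / 2) (by norm_num)
    have n3 := hne (1 / 3) (by norm_num)
    have pz : P z = Phi z := hPhi z (by show r0 < z.re; linarith) (zf_one (by simp; linarith))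
    rw [sub_zero] at n0
    rw [hf_eq hz']
    simp only [hK1]
    unfold Kf
    rw [dslope_of_ne _ n0, dslope_of_ne _ (sub_ne_zero.mp n2),
      dslope_of_ne _ (sub_ne_zero.mp n3), dslope_of_ne _ (sub_ne_zero.mp n2),
      dslope_of_ne _ (sub_ne_zero.mp n3), slope_def_field, slope_def_field, slope_def_field,
      slope_def_field, slope_def_field, p2, p3, pz, phi_zero, sub_zero]
    ring
  refine ⟨C * (s - r), fun k => ?_⟩
  rw [mean_coeff hs, pow_mean (by linarith), hT]
  have hk : (0 : ℝ) < (k.factorial : ℝ) := by exact_mod_cast k.factorial_pos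
  have hsr : 0 < s - r := by linarith
  calc (k.factorial : ℝ) * ‖PowerSeries.coeff k (T (s : ℂ) K1)‖ ≤
      (k.factorial : ℝ) * (C * (1 / (s - r)) ^ k) := mul_le_mul_of_nonneg_left (hC k) hk.le
    _ = _ := by
        rw [pow_succ, one_div_pow]
        field_simp

/-- the condition on the zeros, weak form -/
theorem zero_weak {b : ℝ} (h : ZeroCond b) (ρ : ℂ) (h1 : b < ρ.re) (h2 : ρ.re < 1)
    (h3 : riemannZeta ρ = 0) : riemannZeta (ρ / 2) = 0 ∨ riemannZeta (ρ / 3) = 0 := by
  have hord := h ρ h1 h2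
  have hne : ρ ≠ 1 := by rintro rfl; simp at h2
  have hz : AnalyticAt ℂ riemannZeta ρ := by
    have hopen : {z : ℂ | z ≠ 1} ∈ 𝓝 ρ := isOpen_ne.mem_nhds hne
    exact (DifferentiableOn.analyticAt (s := {z : ℂ | z ≠ 1})
      (fun z hz => (differentiableAt_riemannZeta hz).differentiableWithinAt) hopen)
  by_contra hcon
  push Not at hcon
  have e2 : analyticOrderAt riemannZeta (ρ / 2) = 0 := by
    rw [analyticOrderAt_eq_zero]; exact Or.inr hcon.1
  have e3 : analyticOrderAt riemannZeta (ρ / 3) = 0 := by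
    rw [analyticOrderAt_eq_zero]; exact Or.inr hcon.2
  rw [e2, e3, add_zero] at hord
  have h4 : analyticOrderAt riemannZeta ρ = 0 := le_antisymm hord bot_le
  rw [hz.analyticOrderAt_eq_zero] at h4
  exact h4 h3

end Pool.PWF
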