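import Mathlib

/-!
# MP_3c396f_nt: powerful numbers, definitions
-/

set_option autoImplicit false

open Complex Finset Filter Topology MeasureTheory

namespace Pool.PWF

/-- `n` is powerful: `n > 0` and `p^2` divides `n` for every prime `p` dividing `n` -/
def Powerful (n : ℕ) : Prop := n ≠ 0 ∧ ∀ p : ℕ, p.Prime → p ∣ n → p ^ 2 ∣ n

open Classical in
/-- the number of powerful numbers up to `x` -/
noncomputable def Q (x : ℝ) : ℝ := (((Icc 1 ⌊x⌋₊).filter Powerful).card : ℝ)

/-- `A = zeta(3/2)/zeta(3)` -/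
noncomputable def cA : ℝ := (riemannZeta (3 / 2) / riemannZeta 3).re

/-- `B = zeta(2/3)/zeta(2)` -/
noncomputable def cB : ℝ := (riemannZeta (2 / 3) / riemannZeta 2).re

/-- the error term `E(x) = Q(x) - A x^(1/2) - B x^(1/3)` -/
noncomputable def E (x : ℝ) : ℝ := Q x - cA * x ^ (1 / 2 : ℝ) - cB * x ^ (1 / 3 : ℝ)

open Classical in
/-- the indicator function of the powerful numbers -/
noncomputable def pw (n : ℕ) : ℂ := if Powerful n then 1 else 0

end Pool.PWF
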