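import Pool.Agent.Helper76.PWF.Defs

/-!
# PWF DIR: the Dirichlet series of the powerful numbers
-/

set_option autoImplicit false

open Complex Finset Filter Topology MeasureTheory

namespace Pool.PWF

theorem powerful_one : Powerful 1 :=
  ⟨one_ne_zero, fun _ hp h => absurd (Nat.dvd_one.mp h) hp.one_lt.ne'⟩

theorem powerful_mul {m n : ℕ} (h : Nat.Coprime m n) :
    Powerful (m * n) ↔ Powerful m ∧ Powerful n := by
  constructor
  · rintro ⟨h0, h1⟩
    have hm : m ≠ 0 := left_ne_zero_of_mul h0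
    have hn : n ≠ 0 := right_ne_zero_of_mul h0
    refine ⟨⟨hm, fun p hp hpm => ?_⟩, ⟨hn, fun p hp hpn => ?_⟩⟩
    · have h2 := h1 p hp (hpm.mul_right n)
      have h3 : Nat.Coprime (p ^ 2) n := (Nat.Coprime.coprime_dvd_left hpm h).pow_left 2
      exact h3.dvd_of_dvd_mul_right h2
    · have h2 := h1 p hp (hpn.mul_left m)
      have h3 : Nat.Coprime (p ^ 2) m := (Nat.Coprime.coprime_dvd_left hpn h.symm).pow_left 2
      exact h3.dvd_of_dvd_mul_left h2
  · rintro ⟨⟨hm, h1⟩, ⟨hn, h2⟩⟩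
    refine ⟨mul_ne_zero hm hn, fun p hp hpmn => ?_⟩
    rcases (hp.dvd_mul).mp hpmn with h3 | h3
    · exact (h1 p hp h3).mul_right n
    · exact (h2 p hp h3).mul_left m

theorem powerful_pow {p : ℕ} (hp : p.Prime) (e : ℕ) : Powerful (p ^ e) ↔ e ≠ 1 := by
  constructor
  · rintro ⟨_, h⟩ rfl
    rw [pow_one] at h
    have h1 := Nat.le_of_dvd hp.pos (h p hp dvd_rfl)
    have := hp.one_lt
    nlinarith
  · intro he
    refine ⟨pow_ne_zero _ hp.ne_zero, fun q hq hqe => ?_⟩
    have hqp : q = p := (Nat.prime_dvd_prime_iff_eq hq hp).mp (hq.dvd_of_dvd_pow hqe)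
    rw [hqp]
    apply pow_dvd_pow
    have : e ≠ 0 := by
      rintro rfl
      rw [pow_zero] at hqe
      exact hq.one_lt.ne' (Nat.dvd_one.mp hqe)
    omega

/-- a powerful number is a cube times a square -/
theorem powerful_repr {n : ℕ} (h : Powerful n) : ∃ a b : ℕ, n = a ^ 3 * b ^ 2 := by
  obtain ⟨a, b, hab, ha⟩ := Nat.sq_mul_squarefree n
  have hn : n ≠ 0 := h.1
  have hdvd : a ∣ b := by
    rw [← Nat.prod_primeFactors_of_squarefree ha]
    refine Finset.prod_primes_dvd b (fun p hp => (Nat.prime_of_mem_primeFactors hp).prime)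
      (fun p hp => ?_)
    have hpp := Nat.prime_of_mem_primeFactors hp
    have hpa := Nat.dvd_of_mem_primeFactors hp
    by_contra hpb
    have h1 : p ^ 2 ∣ b ^ 2 * a := by
      rw [hab]
      exact h.2 p hpp (hab ▸ hpa.mul_left (b ^ 2))
    have h2 : Nat.Coprime (p ^ 2) (b ^ 2) := ((hpp.coprime_iff_not_dvd).mpr hpb).pow 2 2
    have h3 : p ^ 2 ∣ a := h2.dvd_of_dvd_mul_left h1
    have h4 : p * p ∣ a := by rwa [← sq]
    exact hpp.one_lt.ne' (Nat.isUnit_iff.mp (ha p h4))
  obtain ⟨d, rfl⟩ := hdvd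
  exact ⟨a, d, by rw [← hab]; ring⟩

theorem pw_summable_real {σ : ℝ} (hσ : 1 / 2 < σ) :
    Summable (fun n : ℕ => ‖pw n‖ * (n : ℝ) ^ (-σ)) := by
  classical
  have h1 : Summable (fun a : ℕ => (a : ℝ) ^ (-(3 * σ))) :=
    Real.summable_nat_rpow.mpr (by linarith)
  have h2 : Summable (fun a : ℕ => (a : ℝ) ^ (-(2 * σ))) :=
    Real.summable_nat_rpow.mpr (by linarith)
  have h3 : Summable (fun x : ℕ × ℕ => (x.1 : ℝ) ^ (-(3 * σ)) * (x.2 : ℝ) ^ (-(2 * σ))) :=
    h1.mul_of_nonneg h2 (fun _ => by positivity) (fun _ => by positivity)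
  have hrep : ∀ n : ℕ, Powerful n → ∃ a b : ℕ, n = a ^ 3 * b ^ 2 := fun n h => powerful_repr h
  choose! a b hab using hrep
  let ψ : {n : ℕ // Powerful n} → ℕ × ℕ := fun n => (a n.1, b n.1)
  have hψ : Function.Injective ψ := by
    intro m n hmn
    have e1 : a m.1 = a n.1 := congrArg Prod.fst hmn
    have e2 : b m.1 = b n.1 := congrArg Prod.snd hmn
    apply Subtype.ext
    rw [hab m.1 m.2, hab n.1 n.2, e1, e2]
  have h4 := h3.comp_injective hψ
  have h5 : Summable ((fun n : ℕ => (n : ℝ) ^ (-σ)) ∘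
      (Subtype.val : {n : ℕ | Powerful n} → ℕ)) := by
    refine h4.congr fun n => ?_
    simp only [Function.comp_apply, ψ]
    have e : ((n.1 : ℕ) : ℝ) = (a n.1 : ℝ) ^ 3 * (b n.1 : ℝ) ^ 2 := by
      have := hab n.1 n.2
      exact_mod_cast this
    rw [e, Real.mul_rpow (by positivity) (by positivity), ← Real.rpow_natCast,
      ← Real.rpow_natCast, ← Real.rpow_mul (by positivity), ← Real.rpow_mul (by positivity)]
    congr 2 <;> push_cast <;> ring
  rw [summable_subtype_iff_indicator] at h5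
  refine h5.congr fun n => ?_
  unfold pw Set.indicator
  by_cases hn : Powerful n
  · simp [hn]
  · simp [hn]

theorem pw_summable {s : ℂ} (hs : 1 / 2 < s.re) : LSeriesSummable pw s := by
  have h := pw_summable_real hs
  refine Summable.of_norm_bounded h fun n => ?_
  rcases eq_or_ne n 0 with rfl | hn
  · rw [LSeries.term_zero, norm_zero]
    positivity
  · rw [LSeries.norm_term_eq, if_neg hn, Real.rpow_neg (by positivity), div_eq_mul_inv]

theorem natpow_cpow (p e : ℕ) (s : ℂ) : ((p ^ e : ℕ) : ℂ) ^ s = ((p : ℂ) ^ s) ^ e := by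
  induction e with
  | zero => simp
  | succ e ih => rw [pow_succ, Nat.cast_mul, Complex.natCast_mul_natCast_cpow, pow_succ, ih]

theorem pw_series {s : ℂ} (hs : 1 / 2 < s.re) :
    LSeries pw s * riemannZeta (6 * s) = riemannZeta (2 * s) * riemannZeta (3 * s) := by
  classical
  have h2 := riemannZeta_eulerProduct_hasProd (s := 2 * s) (by simp; linarith)
  have h3 := riemannZeta_eulerProduct_hasProd (s := 3 * s) (by simp; linarith)
  have h6 := riemannZeta_eulerProduct_hasProd (s := 6 * s) (by simp; linarith)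
  have hL : HasProd (fun p : Nat.Primes => ∑' e : ℕ, LSeries.term pw s (p ^ e)) (LSeries pw s) := by
    refine EulerProduct.eulerProduct_hasProd (f := LSeries.term pw s) ?_ ?_ ?_ ?_
    · rw [LSeries.term_of_ne_zero one_ne_zero]
      simp [pw, powerful_one]
    · intro m n hmn
      rcases eq_or_ne m 0 with rfl | hm
      · simp
      rcases eq_or_ne n 0 with rfl | hn
      · simp
      rw [LSeries.term_of_ne_zero (mul_ne_zero hm hn), LSeries.term_of_ne_zero hm,
        LSeries.term_of_ne_zero hn, Nat.cast_mul, Complex.natCast_mul_natCast_cpow,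
        div_mul_div_comm]
      congr 1
      unfold pw
      by_cases h1 : Powerful m <;> by_cases h4 : Powerful n <;> simp [powerful_mul hmn, h1, h4]
    · exact (pw_summable hs).norm
    · exact LSeries.term_zero _ _
  have hprod := hL.mul h6
  have hprod2 := h2.mul h3
  have heq : ∀ p : Nat.Primes, (∑' e : ℕ, LSeries.term pw s (p ^ e)) *
      (1 - (p : ℂ) ^ (-(6 * s)))⁻¹ =
      (1 - (p : ℂ) ^ (-(2 * s)))⁻¹ * (1 - (p : ℂ) ^ (-(3 * s)))⁻¹ := by
    intro p
    have hp : (p : ℕ).Prime := p.2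
    have hp0 : ((p : ℕ) : ℂ) ≠ 0 := by exact_mod_cast hp.ne_zero
    set x : ℂ := ((p : ℕ) : ℂ) ^ (-s) with hx
    have hxn : ‖x‖ < 1 := by
      rw [hx, Complex.norm_natCast_cpow_of_pos hp.pos]
      apply Real.rpow_lt_one_of_one_lt_of_neg (by exact_mod_cast hp.one_lt)
      simp
      linarith
    have hpow : ∀ k : ℕ, ((p : ℕ) : ℂ) ^ (-((k : ℂ) * s)) = x ^ k := by
      intro k
      rw [hx, ← Complex.cpow_nat_mul]
      congr 1
      ring
    have e2 : ((p : ℕ) : ℂ) ^ (-(2 * s)) = x ^ 2 := by exact_mod_cast hpow 2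
    have e3 : ((p : ℕ) : ℂ) ^ (-(3 * s)) = x ^ 3 := by exact_mod_cast hpow 3
    have e6 : ((p : ℕ) : ℂ) ^ (-(6 * s)) = x ^ 6 := by exact_mod_cast hpow 6
    rw [e2, e3, e6]
    have hterm : ∀ e : ℕ, LSeries.term pw s ((p : ℕ) ^ e) = if e = 1 then 0 else x ^ e := by
      intro e
      rw [LSeries.term_of_ne_zero (pow_ne_zero _ hp.ne_zero)]
      unfold pw
      simp only [powerful_pow hp]
      by_cases he : e = 1
      · simp [he]
      · rw [if_pos he, if_neg he, one_div, ← Complex.cpow_neg]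
        rw [natpow_cpow]
    have hsum : HasSum (fun e : ℕ => LSeries.term pw s ((p : ℕ) ^ e)) ((1 - x)⁻¹ - x) := by
      have h7 := hasSum_geometric_of_norm_lt_one hxn
      have h8 := hasSum_ite_eq (1 : ℕ) x
      have h9 := h7.sub h8
      have h10 : (fun e : ℕ => LSeries.term pw s ((p : ℕ) ^ e)) =
          fun e : ℕ => x ^ e - if e = 1 then x else 0 := by
        funext e
        rw [hterm]
        by_cases he : e = 1
        · simp [he]
        · simp [he]
      rw [h10]
      exact h9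
    rw [hsum.tsum_eq]
    have hne : ∀ k : ℕ, k ≠ 0 → 1 - x ^ k ≠ 0 := by
      intro k hk h11
      have h12 : x ^ k = 1 := (sub_eq_zero.mp h11).symm
      have h13 : ‖x‖ ^ k < 1 := pow_lt_one₀ (norm_nonneg _) hxn hk
      rw [← norm_pow, h12, norm_one] at h13
      exact lt_irrefl _ h13
    have hx1 := hne 1 one_ne_zero
    have hx2 := hne 2 two_ne_zero
    have hx3 := hne 3 three_ne_zero
    have hx6 := hne 6 (by norm_num)
    rw [pow_one] at hx1
    field_simp
    ring
  have h11 : HasProd (fun p : Nat.Primes => (1 - (p : ℂ) ^ (-(2 * s)))⁻¹ *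
      (1 - (p : ℂ) ^ (-(3 * s)))⁻¹) (LSeries pw s * riemannZeta (6 * s)) := by
    have h12 : (fun p : Nat.Primes => (∑' e : ℕ, LSeries.term pw s (p ^ e)) *
        (1 - (p : ℂ) ^ (-(6 * s)))⁻¹) = fun p : Nat.Primes => (1 - (p : ℂ) ^ (-(2 * s)))⁻¹ *
        (1 - (p : ℂ) ^ (-(3 * s)))⁻¹ := funext heq
    rw [← h12]
    exact hprod
  exact h11.unique hprod2

end Pool.PWF
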