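import Pool.Agent.Helper76.PWF.All

/-!
# PWF EXT: analytic continuation from coefficient bounds; quotients without poles
-/

set_option autoImplicit false

open Complex Finset Filter Topology MeasureTheory

namespace Pool.PWF

open Pool.OMG

/-- a function with small Taylor coefficients extends to a disc -/
theorem ext_of_coeff {c : ℂ} {q C : ℝ} {H : ℂ → ℂ} (hH : AnalyticAt ℂ H c) (hq : 0 < q)
    (hb : ∀ k : ℕ, ‖PowerSeries.coeff k (T c H)‖ ≤ C * (1 / q) ^ k) :
    ∃ F : ℂ → ℂ, DifferentiableOn ℂ F (Metric.ball c q) ∧ F =ᶠ[𝓝 c] H := by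
  have hC0 : 0 ≤ C := by
    have h := (norm_nonneg _).trans (hb 0)
    rwa [pow_zero, mul_one] at h
  refine ⟨fun z => ∑' k : ℕ, PowerSeries.coeff k (T c H) * (c - z) ^ k, ?_, ?_⟩
  · intro z hz
    have hz' : ‖z - c‖ < q := by rwa [Metric.mem_ball, dist_eq_norm] at hz
    set ρ : ℝ := (‖z - c‖ + q) / 2 with hρ
    have hρ1 : ‖z - c‖ < ρ := by rw [hρ]; linarith
    have hρ2 : ρ < q := by rw [hρ]; linarith
    have hρ0 : 0 < ρ := lt_of_le_of_lt (norm_nonneg _) hρ1
    have hsum : Summable (fun k : ℕ => C * (ρ / q) ^ k) :=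
      (summable_geometric_of_lt_one (by positivity) (by rwa [div_lt_one hq])).mul_left C
    have hd : DifferentiableOn ℂ (fun z => ∑' k : ℕ, PowerSeries.coeff k (T c H) * (c - z) ^ k)
        (Metric.ball c ρ) := by
      refine differentiableOn_tsum_of_summable_norm hsum (fun k => by fun_prop)
        Metric.isOpen_ball (fun k w hw => ?_)
      rw [norm_mul, norm_pow]
      have hw' : ‖c - w‖ ≤ ρ := by
        rw [Metric.mem_ball, dist_comm, dist_eq_norm] at hw
        exact hw.le
      calc ‖PowerSeries.coeff k (T c H)‖ * ‖c - w‖ ^ k ≤ (C * (1 / q) ^ k) * ρ ^ k :=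
            mul_le_mul (hb k) (pow_le_pow_left₀ (norm_nonneg _) hw' k) (by positivity)
              (by positivity)
        _ = C * (ρ / q) ^ k := by rw [mul_assoc, ← mul_pow]; congr 2; ring
    have hzb : z ∈ Metric.ball c ρ := by rwa [Metric.mem_ball, dist_eq_norm]
    exact (hd.differentiableAt (Metric.isOpen_ball.mem_nhds hzb)).differentiableWithinAt
  · obtain ⟨U, hU, hUd⟩ := hH.exists_mem_nhds_analyticOnNhd
    obtain ⟨r, hr, hrU⟩ := Metric.mem_nhds_iff.mp hU
    have hdiff : DifferentiableOn ℂ H (Metric.ball c r) := fun z hz =>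
      (hUd z (hrU hz)).differentiableAt.differentiableWithinAt
    filter_upwards [Metric.ball_mem_nhds c hr] with z hz
    exact (T_hasSum hdiff hz).tsum_eq

/-- a quotient whose numerator vanishes to at least the order of the denominator extends -/
theorem quot_ext {N D : ℂ → ℂ} (hN : Differentiable ℂ N) (hD : Differentiable ℂ D) {U : Set ℂ}
    (hfin : ∀ z : ℂ, analyticOrderAt D z ≠ ⊤)
    (hord : ∀ z ∈ U, analyticOrderAt D z ≤ analyticOrderAt N z) :
    ∃ F : ℂ → ℂ, DifferentiableOn ℂ F U ∧ ∀ z ∈ U, D z ≠ 0 → F z = N z / D z := by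
  have hNa : ∀ z, AnalyticAt ℂ N z := fun z => hN.analyticAt z
  have hDa : ∀ z, AnalyticAt ℂ D z := fun z => hD.analyticAt z
  have hmer : MeromorphicOn (fun z => N z / D z) U := fun z _ =>
    (hNa z).meromorphicAt.div (hDa z).meromorphicAt
  have hNF := meromorphicNFOn_toMeromorphicNFOn (fun z => N z / D z) U
  refine ⟨toMeromorphicNFOn (fun z => N z / D z) U, ?_, ?_⟩
  · intro z hz
    obtain ⟨n, hn⟩ := ENat.ne_top_iff_exists.mp (hfin z)
    have hDn := hn.symm
    rw [(hDa z).analyticOrderAt_eq_natCast] at hDn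
    obtain ⟨d, hda, hd0, hd⟩ := hDn
    have hNn : (n : ℕ∞) ≤ analyticOrderAt N z := by rw [hn]; exact hord z hz
    rw [natCast_le_analyticOrderAt (hNa z)] at hNn
    obtain ⟨g, hga, hg⟩ := hNn
    have hgd : AnalyticAt ℂ (fun w => g w / d w) z := hga.div hda hd0
    have h1 : toMeromorphicNFOn (fun z => N z / D z) U =ᶠ[𝓝[≠] z] fun w => g w / d w := by
      refine (hmer.toMeromorphicNFOn_eq_self_on_nhdsNE hz).trans ?_
      have hd' := hd.filter_mono (nhdsWithin_le_nhds (s := {z}ᶜ))
      have hg' := hg.filter_mono (nhdsWithin_le_nhds (s := {z}ᶜ))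
      filter_upwards [hd', hg', self_mem_nhdsWithin] with w hw1 hw2 hw3
      have hne : w - z ≠ 0 := sub_ne_zero.mpr hw3
      rw [hw1, hw2, smul_eq_mul, smul_eq_mul, mul_div_mul_left _ _ (pow_ne_zero n hne)]
    have h2 := ((hNF hz).eventuallyEq_nhdsNE_iff_eventuallyEq_nhds hgd.meromorphicNFAt).mp h1
    exact (hgd.congr h2.symm).differentiableAt.differentiableWithinAt
  · intro z hz hDz
    have h1 : AnalyticAt ℂ (fun z => N z / D z) z := (hNa z).div (hDa z) hDz
    rw [toMeromorphicNFOn_eq_toMeromorphicNFAt hmer hz,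
      toMeromorphicNFAt_eq_self.mpr h1.meromorphicNFAt]

theorem ord_comp {c : ℂ} (hc : c ≠ 0) (z : ℂ) :
    analyticOrderAt (fun z => riemannZeta₁ (c * z)) z = analyticOrderAt riemannZeta₁ (c * z) := by
  have h : deriv (fun z : ℂ => c * z) z ≠ 0 := by
    rw [deriv_const_mul_field, deriv_id'', mul_one]
    exact hc
  exact analyticOrderAt_comp_of_deriv_ne_zero (f := riemannZeta₁) (g := fun z : ℂ => c * z)
    (by fun_prop) h

theorem ord_zeta {w : ℂ} (hw : w ≠ 1) :
    analyticOrderAt riemannZeta₁ w = analyticOrderAt riemannZeta w := by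
  have hz : AnalyticAt ℂ riemannZeta w := by
    have hopen : {z : ℂ | z ≠ 1} ∈ 𝓝 w := isOpen_ne.mem_nhds hw
    exact (DifferentiableOn.analyticAt (s := {z : ℂ | z ≠ 1})
      (fun z hz => (differentiableAt_riemannZeta hz).differentiableWithinAt) hopen)
  have h1 : riemannZeta₁ =ᶠ[𝓝 w] (fun z => z - 1) * riemannZeta := by
    filter_upwards [isOpen_ne.mem_nhds hw] with z hz
    rw [Pi.mul_apply, riemannZeta_eq_inv_sub_mul hz]
    have : z - 1 ≠ 0 := sub_ne_zero.mpr hz
    field_simp
  rw [analyticOrderAt_congr h1, analyticOrderAt_mul (by fun_prop) hz]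
  have h2 : analyticOrderAt (fun z : ℂ => z - 1) w = 0 := by
    rw [AnalyticAt.analyticOrderAt_eq_zero (by fun_prop)]
    exact sub_ne_zero.mpr hw
  rw [h2, zero_add]

theorem ord_fin (z : ℂ) : analyticOrderAt (fun z => riemannZeta₁ (6 * z)) z ≠ ⊤ := by
  intro h
  have hd : Differentiable ℂ (fun z : ℂ => riemannZeta₁ (6 * z)) := by fun_prop
  have ha : AnalyticOnNhd ℂ (fun z : ℂ => riemannZeta₁ (6 * z)) Set.univ :=
    fun z _ => hd.analyticAt z
  rw [analyticOrderAt_eq_top] at h
  have h2 := ha.eqOn_zero_of_preconnected_of_eventuallyEq_zero isPreconnected_univ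
    (Set.mem_univ z) h (Set.mem_univ (1 / 6 : ℂ))
  simp at h2

end Pool.PWF
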