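import Pool.Agent.OMG.Tay

/-!
# PWF LAP: Taylor coefficients of Laplace transforms, and the uniform transfer
-/

set_option autoImplicit false

open Complex Finset Filter Topology MeasureTheory

namespace Pool.PWF

open Pool.OMG

/-- the coefficients `int_0^oo a(y) exp(-s y) y^k / k! dy` -/
noncomputable def Jc (a : ℝ → ℝ) (s : ℝ) (k : ℕ) : ℝ :=
  ∫ y in Set.Ioi (0 : ℝ), a y * Real.exp (-s * y) * y ^ k / (k.factorial : ℝ)

private theorem pow_exp_integrable {b : ℝ} (hb : 0 < b) (k : ℕ) :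
    IntegrableOn (fun y : ℝ => y ^ k * Real.exp (-b * y)) (Set.Ioi 0) := by
  have h := integrableOn_rpow_mul_exp_neg_mul_rpow (p := 1) (s := (k : ℝ)) (b := b)
    (by have : (0 : ℝ) ≤ k := Nat.cast_nonneg k
        linarith) one_pos hb
  refine h.congr_fun ?_ measurableSet_Ioi
  intro y _
  simp only [Real.rpow_natCast, Real.rpow_one]

private theorem aux_integrable {a : ℝ → ℝ} (ha : Measurable a) {C r : ℝ}
    (hb : ∀ y : ℝ, 0 ≤ y → |a y| ≤ C * Real.exp (r * y)) {s0 v : ℝ} (h : v < s0 - r) (k : ℕ) :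
    IntegrableOn (fun y : ℝ => a y * Real.exp (-s0 * y) * Real.exp (v * y) * y ^ k)
      (Set.Ioi 0) := by
  have hb' : 0 < s0 - r - v := by linarith
  have h1 := (pow_exp_integrable hb' k).const_mul C
  refine Integrable.mono' h1 ?_ ?_
  · refine Measurable.aestronglyMeasurable ?_
    exact ((ha.mul (Real.measurable_exp.comp (measurable_const.mul measurable_id))).mul
      (Real.measurable_exp.comp (measurable_const.mul measurable_id))).mul
      (measurable_id.pow_const k)
  · refine (ae_restrict_iff' measurableSet_Ioi).2 (Filter.Eventually.of_forall ?_)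
    intro y hy
    have hy0 : 0 < y := hy
    have hA := hb y hy0.le
    rw [Real.norm_eq_abs, abs_mul, abs_mul, abs_mul, Real.abs_exp, Real.abs_exp,
      abs_of_nonneg (pow_nonneg hy0.le k)]
    have e : Real.exp (r * y) * Real.exp (-s0 * y) * Real.exp (v * y) =
        Real.exp (-(s0 - r - v) * y) := by
      rw [← Real.exp_add, ← Real.exp_add]
      congr 1
      ring
    calc |a y| * Real.exp (-s0 * y) * Real.exp (v * y) * y ^ k
        ≤ C * Real.exp (r * y) * Real.exp (-s0 * y) * Real.exp (v * y) * y ^ k := by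
          gcongr
      _ = C * (Real.exp (r * y) * Real.exp (-s0 * y) * Real.exp (v * y)) * y ^ k := by ring
      _ = C * (y ^ k * Real.exp (-(s0 - r - v) * y)) := by
          rw [e]
          ring

theorem jc_integrable {a : ℝ → ℝ} (ha : Measurable a) {C r : ℝ}
    (hb : ∀ y : ℝ, 0 ≤ y → |a y| ≤ C * Real.exp (r * y)) {s0 : ℝ} (h : r < s0) (k : ℕ) :
    IntegrableOn (fun y : ℝ => a y * Real.exp (-s0 * y) * y ^ k / (k.factorial : ℝ))
      (Set.Ioi 0) := by
  have h1 := (aux_integrable ha hb (s0 := s0) (v := 0) (by linarith) k).div_const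
    (k.factorial : ℝ)
  simp only [zero_mul, Real.exp_zero, mul_one] at h1
  exact h1

private theorem summable_aux {a : ℝ → ℝ} (ha : Measurable a) {C r : ℝ}
    (hb : ∀ y : ℝ, 0 ≤ y → |a y| ≤ C * Real.exp (r * y)) {s0 v : ℝ} (hv0 : 0 ≤ v)
    (hv : v < s0 - r) (u : ℂ) (hu : ‖u‖ = v) :
    Summable fun k : ℕ => ∫ y in Set.Ioi (0 : ℝ),
      ‖((a y * Real.exp (-s0 * y) * y ^ k / (k.factorial : ℝ) : ℝ) : ℂ) * u ^ k‖ := by
  have hint : ∀ k : ℕ, IntegrableOn (fun y : ℝ =>
      ‖((a y * Real.exp (-s0 * y) * y ^ k / (k.factorial : ℝ) : ℝ) : ℂ) * u ^ k‖)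
      (Set.Ioi 0) := by
    intro k
    exact (((jc_integrable ha hb (s0 := s0) (by linarith) k).ofReal (𝕜 := ℂ)).mul_const
      (u ^ k)).norm
  have hI := (aux_integrable ha hb (s0 := s0) (v := v) hv 0).norm
  refine summable_of_sum_le (c := ∫ y in Set.Ioi (0 : ℝ),
    ‖a y * Real.exp (-s0 * y) * Real.exp (v * y) * y ^ 0‖)
    (fun k => integral_nonneg fun y => norm_nonneg _) ?_
  intro S
  rw [← integral_finsetSum S (fun k _ => hint k)]
  refine setIntegral_mono_on (integrable_finsetSum S fun k _ => hint k) hI measurableSet_Ioi ?_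
  intro y hy
  have hy0 : 0 < y := hy
  have hterm : ∀ k : ℕ,
      ‖((a y * Real.exp (-s0 * y) * y ^ k / (k.factorial : ℝ) : ℝ) : ℂ) * u ^ k‖ =
      |a y| * Real.exp (-s0 * y) * ((v * y) ^ k / (k.factorial : ℝ)) := by
    intro k
    rw [norm_mul, norm_pow, hu, Complex.norm_real, Real.norm_eq_abs, abs_div, abs_mul, abs_mul,
      Real.abs_exp, abs_of_nonneg (pow_nonneg hy0.le k), Nat.abs_cast, mul_pow]
    ring
  simp only [hterm]
  rw [← Finset.mul_sum, pow_zero, mul_one, Real.norm_eq_abs, abs_mul, abs_mul, Real.abs_exp,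
    Real.abs_exp]
  refine mul_le_mul_of_nonneg_left ?_ (by positivity)
  have hs := NormedSpace.expSeries_div_hasSum_exp (v * y)
  rw [← Real.exp_eq_exp_ℝ] at hs
  exact sum_le_hasSum S (fun k _ => by positivity) hs

/-- the Taylor coefficients of the Laplace transform -/
theorem jc_eq {a : ℝ → ℝ} (ha : Measurable a) {C r : ℝ}
    (hb : ∀ y : ℝ, 0 ≤ y → |a y| ≤ C * Real.exp (r * y)) {H : ℂ → ℂ}
    (hH : ∀ z : ℂ, r < z.re → H z = ∫ y in Set.Ioi (0 : ℝ), (a y : ℂ) * Complex.exp (-z * y))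
    {s0 : ℝ} (h : r < s0) (k : ℕ) :
    (Jc a s0 k : ℂ) = PowerSeries.coeff k (T (s0 : ℂ) H) := by
  symm
  refine T_unique (r := (s0 - r) / 2) (by linarith) (a := fun k => (Jc a s0 k : ℂ)) ?_ k
  intro s hs
  obtain ⟨u, hu⟩ : ∃ u : ℂ, u = (s0 : ℂ) - s := ⟨_, rfl⟩
  have hnorm : ‖u‖ < (s0 - r) / 2 := by
    rw [hu, ← dist_eq_norm, dist_comm]
    exact hs
  have hre : r < s.re := by
    have h1 : |u.re| ≤ ‖u‖ := Complex.abs_re_le_norm u
    have h2 : u.re = s0 - s.re := by rw [hu]; simp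
    rw [h2] at h1
    have := (abs_le.1 h1).2
    linarith
  have hFint : ∀ k : ℕ, Integrable (fun y : ℝ =>
      ((a y * Real.exp (-s0 * y) * y ^ k / (k.factorial : ℝ) : ℝ) : ℂ) * u ^ k)
      (volume.restrict (Set.Ioi 0)) := fun k =>
    ((jc_integrable ha hb h k).ofReal (𝕜 := ℂ)).mul_const (u ^ k)
  have hsum := hasSum_integral_of_summable_integral_norm hFint
    (summable_aux ha hb (norm_nonneg u) (by linarith [norm_nonneg u]) u rfl)
  have e1 : ∀ k : ℕ, ∫ y in Set.Ioi (0 : ℝ),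
      ((a y * Real.exp (-s0 * y) * y ^ k / (k.factorial : ℝ) : ℝ) : ℂ) * u ^ k =
      (Jc a s0 k : ℂ) * ((s0 : ℂ) - s) ^ k := by
    intro k
    rw [integral_mul_const, ← hu]
    congr 1
    unfold Jc
    exact integral_ofReal
  have e2 : ∫ y in Set.Ioi (0 : ℝ), (∑' k : ℕ,
      ((a y * Real.exp (-s0 * y) * y ^ k / (k.factorial : ℝ) : ℝ) : ℂ) * u ^ k) =
      H s := by
    rw [hH s hre]
    refine setIntegral_congr_fun measurableSet_Ioi ?_
    intro y _
    simp only
    have h3 : ∀ k : ℕ,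
        ((a y * Real.exp (-s0 * y) * y ^ k / (k.factorial : ℝ) : ℝ) : ℂ) * u ^ k =
        (a y : ℂ) * Complex.exp (-(s0 : ℂ) * y) *
          ((u * y) ^ k / (k.factorial : ℂ)) := by
      intro k
      push_cast
      rw [mul_pow]
      ring
    simp only [h3]
    rw [tsum_mul_left]
    have h4 := (NormedSpace.expSeries_div_hasSum_exp (u * (y : ℂ))).tsum_eq
    rw [← Complex.exp_eq_exp_ℂ] at h4
    rw [h4, mul_assoc, ← Complex.exp_add, hu]
    congr 2
    ring
  rw [e2] at hsum
  simp only [e1] at hsum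
  exact hsum

private theorem integrand_eq (a : ℝ → ℝ) (s v : ℝ) (k j : ℕ) (y : ℝ) :
    a y * Real.exp (-s * y) * y ^ (k + j) / ((k + j).factorial : ℝ) *
      (((k + j).choose k : ℝ) * v ^ j) =
    a y * Real.exp (-s * y) * y ^ k / (k.factorial : ℝ) *
      ((v * y) ^ j / (j.factorial : ℝ)) := by
  have h1 : (((k + j).choose k : ℕ) : ℝ) * (k.factorial : ℝ) * (j.factorial : ℝ) =
      ((k + j).factorial : ℝ) := by
    have := Nat.choose_mul_factorial_mul_factorial (Nat.le_add_right k j)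
    rw [Nat.add_sub_cancel_left] at this
    exact_mod_cast this
  have hk : (k.factorial : ℝ) ≠ 0 := by exact_mod_cast k.factorial_ne_zero
  have hj : (j.factorial : ℝ) ≠ 0 := by exact_mod_cast j.factorial_ne_zero
  have hkj : ((k + j).factorial : ℝ) ≠ 0 := by exact_mod_cast (k + j).factorial_ne_zero
  rw [mul_pow, pow_add]
  field_simp
  rw [← h1]
  ring

/-- moving the centre from `s` to `s - v` -/
theorem jc_shift {a : ℝ → ℝ} (ha : Measurable a) {C r : ℝ}
    (hb : ∀ y : ℝ, 0 ≤ y → |a y| ≤ C * Real.exp (r * y)) {s v : ℝ} (hv0 : 0 ≤ v)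
    (hv : v < s - r) (k : ℕ) :
    HasSum (fun j : ℕ => Jc a s (k + j) * (((k + j).choose k : ℝ) * v ^ j)) (Jc a (s - v) k) := by
  have hs : r < s := by linarith
  have hsv : r < s - v := by linarith
  have hint : ∀ j : ℕ, Integrable (fun y : ℝ => a y * Real.exp (-s * y) * y ^ (k + j) /
      ((k + j).factorial : ℝ) * (((k + j).choose k : ℝ) * v ^ j)) (volume.restrict (Set.Ioi 0)) :=
    fun j => (jc_integrable ha hb hs (k + j)).mul_const _
  have hI := (jc_integrable ha hb hsv k).norm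
  have hsumm : Summable fun j : ℕ => ∫ y in Set.Ioi (0 : ℝ),
      ‖a y * Real.exp (-s * y) * y ^ (k + j) /
      ((k + j).factorial : ℝ) * (((k + j).choose k : ℝ) * v ^ j)‖ := by
    refine summable_of_sum_le (c := ∫ y in Set.Ioi (0 : ℝ),
      ‖a y * Real.exp (-(s - v) * y) * y ^ k / (k.factorial : ℝ)‖)
      (fun k => integral_nonneg fun y => norm_nonneg _) ?_
    intro S
    rw [← integral_finsetSum S (fun j _ => (hint j).norm)]
    refine setIntegral_mono_on (integrable_finsetSum S fun j _ => (hint j).norm) hI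
      measurableSet_Ioi ?_
    intro y hy
    have hy0 : 0 < y := hy
    simp only [integrand_eq]
    have hterm : ∀ j : ℕ, ‖a y * Real.exp (-s * y) * y ^ k / (k.factorial : ℝ) *
      ((v * y) ^ j / (j.factorial : ℝ))‖ =
      ‖a y * Real.exp (-s * y) * y ^ k / (k.factorial : ℝ)‖ *
        ((v * y) ^ j / (j.factorial : ℝ)) := by
      intro j
      rw [norm_mul, Real.norm_of_nonneg (r := (v * y) ^ j / (j.factorial : ℝ)) (by positivity)]
    simp only [hterm]
    rw [← Finset.mul_sum]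
    have hexp : ‖a y * Real.exp (-(s - v) * y) * y ^ k / (k.factorial : ℝ)‖ =
        ‖a y * Real.exp (-s * y) * y ^ k / (k.factorial : ℝ)‖ * Real.exp (v * y) := by
      have e : a y * Real.exp (-(s - v) * y) * y ^ k / (k.factorial : ℝ) =
          a y * Real.exp (-s * y) * y ^ k / (k.factorial : ℝ) * Real.exp (v * y) := by
        rw [show -(s - v) * y = -s * y + v * y by ring, Real.exp_add]
        ring
      rw [e, norm_mul, Real.norm_of_nonneg (Real.exp_pos _).le]
    rw [hexp]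
    refine mul_le_mul_of_nonneg_left ?_ (norm_nonneg _)
    have hs := NormedSpace.expSeries_div_hasSum_exp (v * y)
    rw [← Real.exp_eq_exp_ℝ] at hs
    exact sum_le_hasSum S (fun j _ => by positivity) hs
  have hsum := hasSum_integral_of_summable_integral_norm hint hsumm
  have e1 : ∀ j : ℕ, ∫ y in Set.Ioi (0 : ℝ), a y * Real.exp (-s * y) * y ^ (k + j) /
      ((k + j).factorial : ℝ) * (((k + j).choose k : ℝ) * v ^ j) =
      Jc a s (k + j) * (((k + j).choose k : ℝ) * v ^ j) := by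
    intro j
    rw [integral_mul_const]
    rfl
  have e2 : ∫ y in Set.Ioi (0 : ℝ), (∑' j : ℕ, a y * Real.exp (-s * y) * y ^ (k + j) /
      ((k + j).factorial : ℝ) * (((k + j).choose k : ℝ) * v ^ j)) = Jc a (s - v) k := by
    unfold Jc
    refine setIntegral_congr_fun measurableSet_Ioi ?_
    intro y _
    simp only [integrand_eq]
    rw [tsum_mul_left]
    have h4 := (NormedSpace.expSeries_div_hasSum_exp (v * y)).tsum_eq
    rw [← Real.exp_eq_exp_ℝ] at h4
    rw [h4, show -(s - v) * y = -s * y + v * y by ring, Real.exp_add]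
    ring
  rw [e2] at hsum
  simp only [e1] at hsum
  exact hsum

/-- the uniform transfer: a pole `c/z` at the centre `s`, and an error of order `q^(-k)`, `q > s` -/
theorem jc_uniform {a : ℝ → ℝ} (ha : Measurable a) {C r : ℝ}
    (hb : ∀ y : ℝ, 0 ≤ y → |a y| ≤ C * Real.exp (r * y)) {s q c D : ℝ} (hr0 : 0 < r) (hrs : r < s)
    (hsq : s < q) (hJ : ∀ k : ℕ, |Jc a s k - c * (1 / s) ^ (k + 1)| ≤ D * (1 / q) ^ (k + 1))
    {v : ℝ} (hv0 : 0 ≤ v) (hv : v < s - r) (k : ℕ) :
    |Jc a (s - v) k - c * (1 / (s - v)) ^ (k + 1)| ≤ D * (1 / (q - v)) ^ (k + 1) := by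
  have hs0 : 0 < s := by linarith
  have hq0 : 0 < q := by linarith
  have hsv : 0 < s - v := by linarith
  have hqv : 0 < q - v := by linarith
  have geo : ∀ p : ℝ, 0 < p → v < p → HasSum (fun j : ℕ => (1 / p) ^ (k + j + 1) *
      (((k + j).choose k : ℝ) * v ^ j)) ((1 / (p - v)) ^ (k + 1)) := by
    intro p hp hvp
    have hx : ‖v / p‖ < 1 := by
      rw [Real.norm_of_nonneg (by positivity), div_lt_one hp]
      exact hvp
    have h1 := (hasSum_choose_mul_geometric_of_norm_lt_one k hx).mul_left ((1 / p) ^ (k + 1))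
    have e1 : (1 / p) ^ (k + 1) * (1 / (1 - v / p) ^ (k + 1)) = (1 / (p - v)) ^ (k + 1) := by
      have h2 : p - v ≠ 0 := by linarith
      have : 1 - v / p = (p - v) / p := by field_simp
      rw [this, ← one_div_pow, ← mul_pow]
      congr 1
      field_simp
    rw [e1] at h1
    have h3 : (fun j : ℕ => (1 / p) ^ (k + j + 1) * (((k + j).choose k : ℝ) * v ^ j)) =
        fun j : ℕ => (1 / p) ^ (k + 1) * (((j + k).choose k : ℝ) * (v / p) ^ j) := by
      funext j
      rw [add_comm j k, show k + j + 1 = (k + 1) + j by ring, pow_add, div_eq_mul_one_div v p,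
        mul_pow]
      ring
    rw [h3]
    exact h1
  have h1 := (jc_shift ha hb hv0 hv k).sub ((geo s hs0 (by linarith)).mul_left c)
  have h2 := (geo q hq0 (by linarith)).mul_left D
  have hbd : ∀ j : ℕ, ‖Jc a s (k + j) * (((k + j).choose k : ℝ) * v ^ j) -
      c * ((1 / s) ^ (k + j + 1) * (((k + j).choose k : ℝ) * v ^ j))‖ ≤
      D * ((1 / q) ^ (k + j + 1) * (((k + j).choose k : ℝ) * v ^ j)) := by
    intro j
    have e : Jc a s (k + j) * (((k + j).choose k : ℝ) * v ^ j) -
      c * ((1 / s) ^ (k + j + 1) * (((k + j).choose k : ℝ) * v ^ j)) =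
      (Jc a s (k + j) - c * (1 / s) ^ (k + j + 1)) * (((k + j).choose k : ℝ) * v ^ j) := by ring
    have hnn : 0 ≤ ((k + j).choose k : ℝ) * v ^ j := by positivity
    rw [e, norm_mul, Real.norm_of_nonneg hnn]
    calc ‖Jc a s (k + j) - c * (1 / s) ^ (k + j + 1)‖ * (((k + j).choose k : ℝ) * v ^ j) ≤
        (D * (1 / q) ^ (k + j + 1)) * (((k + j).choose k : ℝ) * v ^ j) :=
          mul_le_mul_of_nonneg_right (hJ (k + j)) hnn
      _ = _ := by ring
  have h := tsum_of_norm_bounded h2 hbd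
  rw [h1.tsum_eq, Real.norm_eq_abs] at h
  exact h

end Pool.PWF
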