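import Pool.Agent.Helper76.PWF.Ana
import Pool.Agent.Helper76.PWF.Lap

/-!
# PWF INT: the Laplace transform of `E(e^y)`, and the main theorem
-/

set_option autoImplicit false

open Complex Finset Filter Topology MeasureTheory

namespace Pool.PWF

open Pool.OMG

theorem sum_pw (x : ℝ) : ∑ k ∈ Icc 1 ⌊x⌋₊, pw k = (Q x : ℂ) := by
  classical
  unfold Q pw
  rw [Finset.card_filter]
  push_cast
  refine sum_congr rfl fun k _ => ?_
  by_cases h : Powerful k <;> simp [h]

theorem Q_eq_norm (x : ℝ) : Q x = ∑ k ∈ Icc 1 ⌊x⌋₊, ‖pw k‖ := by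
  classical
  unfold Q pw
  rw [Finset.card_filter]
  push_cast
  refine sum_congr rfl fun k _ => ?_
  by_cases h : Powerful k <;> simp [h]

theorem Q_measurable : Measurable Q := by
  classical
  have h : Q = (fun n : ℕ => (((Icc 1 n).filter Powerful).card : ℝ)) ∘ (fun x : ℝ => ⌊x⌋₊) := rfl
  rw [h]
  exact measurable_from_nat.comp Nat.measurable_floor

theorem E_measurable : Measurable E := by
  unfold E
  exact (Q_measurable.sub (measurable_const.mul (measurable_id.pow_const _))).sub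
    (measurable_const.mul (measurable_id.pow_const _))

theorem Q_nonneg (x : ℝ) : 0 ≤ Q x := Nat.cast_nonneg _

theorem Q_bound {r : ℝ} (hr : 1 / 2 < r) {x : ℝ} (hx : 1 ≤ x) :
    Q x ≤ (∑' n : ℕ, ‖pw n‖ * (n : ℝ) ^ (-r)) * x ^ r := by
  have hS := pw_summable_real hr
  have hx0 : 0 < x := by linarith
  rw [Q_eq_norm]
  calc ∑ k ∈ Icc 1 ⌊x⌋₊, ‖pw k‖ ≤ ∑ k ∈ Icc 1 ⌊x⌋₊, (‖pw k‖ * (k : ℝ) ^ (-r)) * x ^ r := by
        refine sum_le_sum fun k hk => ?_
        rw [mem_Icc] at hk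
        have hk0 : (0 : ℝ) < k := by exact_mod_cast hk.1
        have hkx : (k : ℝ) ≤ x := (Nat.le_floor_iff hx0.le).mp hk.2
        have h1 : 1 ≤ (k : ℝ) ^ (-r) * x ^ r := by
          rw [Real.rpow_neg hk0.le, ← div_eq_inv_mul, one_le_div (by positivity)]
          exact Real.rpow_le_rpow hk0.le hkx (by linarith)
        calc ‖pw k‖ = ‖pw k‖ * 1 := (mul_one _).symm
          _ ≤ ‖pw k‖ * ((k : ℝ) ^ (-r) * x ^ r) := mul_le_mul_of_nonneg_left h1 (norm_nonneg _)
          _ = _ := by ring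
    _ = (∑ k ∈ Icc 1 ⌊x⌋₊, ‖pw k‖ * (k : ℝ) ^ (-r)) * x ^ r := by rw [sum_mul]
    _ ≤ _ := by
        refine mul_le_mul_of_nonneg_right ?_ (by positivity)
        exact hS.sum_le_tsum _ (fun k _ => by positivity)

/-- the bound for `E(e^y)` -/
theorem E_bound {r : ℝ} (hr : 1 / 2 < r) :
    ∃ C : ℝ, ∀ y : ℝ, 0 ≤ y → |E (Real.exp y)| ≤ C * Real.exp (r * y) := by
  refine ⟨(∑' n : ℕ, ‖pw n‖ * (n : ℝ) ^ (-r)) + |cA| + |cB|, fun y hy => ?_⟩
  have hx : 1 ≤ Real.exp y := Real.one_le_exp hy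
  have hQ := Q_bound hr hx
  have e0 : ∀ p : ℝ, Real.exp y ^ p = Real.exp (p * y) := fun p => by
    rw [← Real.exp_mul, mul_comm]
  have h2 : ∀ p : ℝ, p ≤ r → Real.exp y ^ p ≤ Real.exp (r * y) := fun p hp => by
    rw [e0]
    exact Real.exp_le_exp.mpr (mul_le_mul_of_nonneg_right hp hy)
  rw [e0 r] at hQ
  have hQ0 := Q_nonneg (Real.exp y)
  have hA := mul_le_mul_of_nonneg_left (h2 (1 / 2) hr.le) (abs_nonneg cA)
  have hB := mul_le_mul_of_nonneg_left (h2 (1 / 3) (by linarith)) (abs_nonneg cB)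
  unfold E
  have h3 : |Q (Real.exp y) - cA * Real.exp y ^ (1 / 2 : ℝ) - cB * Real.exp y ^ (1 / 3 : ℝ)| ≤
      Q (Real.exp y) + |cA| * Real.exp y ^ (1 / 2 : ℝ) + |cB| * Real.exp y ^ (1 / 3 : ℝ) := by
    refine (abs_sub _ _).trans ?_
    refine (add_le_add_left (abs_sub _ _) _).trans ?_
    rw [abs_of_nonneg hQ0, abs_mul, abs_mul, abs_of_pos (Real.rpow_pos_of_pos (Real.exp_pos y) _),
      abs_of_pos (Real.rpow_pos_of_pos (Real.exp_pos y) _)]
  refine h3.trans ?_
  linarith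

private theorem pw_isBigO {r : ℝ} (hr : 1 / 2 < r) :
    (fun n ↦ ∑ k ∈ Icc 1 n, pw k) =O[atTop] fun n : ℕ ↦ (n : ℝ) ^ r := by
  refine Asymptotics.IsBigO.of_bound (∑' n : ℕ, ‖pw n‖ * (n : ℝ) ^ (-r)) ?_
  filter_upwards [eventually_ge_atTop 1] with n hn
  have hn1 : (1 : ℝ) ≤ n := by exact_mod_cast hn
  have h := Q_bound hr hn1
  have h2 := sum_pw (n : ℝ)
  rw [Nat.floor_natCast] at h2
  rw [h2, Complex.norm_real, Real.norm_of_nonneg (Q_nonneg _),
    Real.norm_of_nonneg (by positivity)]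
  exact h

private theorem exp_image : Real.exp '' Set.Ioi 0 = Set.Ioi 1 := by
  ext t
  constructor
  · rintro ⟨y, hy, rfl⟩
    exact Real.one_lt_exp_iff.2 hy
  · intro ht
    have ht1 : (1 : ℝ) < t := ht
    exact ⟨Real.log t, Real.log_pos ht1, Real.exp_log (by linarith)⟩

theorem Q_laplace {s : ℂ} (hs : 1 / 2 < s.re) :
    LSeries pw s / s = ∫ y in Set.Ioi (0 : ℝ), (Q (Real.exp y) : ℂ) * Complex.exp (-s * y) := by
  have hs0 : s ≠ 0 := by
    intro h
    rw [h] at hs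
    norm_num at hs
  have h := LSeries_eq_mul_integral pw (r := (1 / 2 + s.re) / 2) (by linarith) (s := s)
    (by linarith) (pw_summable hs) (pw_isBigO (by linarith))
  have hF : LSeries pw s / s = ∫ t in Set.Ioi (1 : ℝ), (Q t : ℂ) * (t : ℂ) ^ (-(s + 1)) := by
    rw [h, mul_div_assoc, mul_comm, div_mul_cancel₀ _ hs0]
    simp only [sum_pw]
  rw [hF, ← exp_image, integral_image_eq_integral_abs_deriv_smul measurableSet_Ioi
    (fun x _ => (Real.hasDerivAt_exp x).hasDerivWithinAt) (Real.exp_injective.injOn)]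
  refine setIntegral_congr_fun measurableSet_Ioi ?_
  intro y _
  simp only
  rw [Real.abs_exp, Complex.real_smul, Complex.cpow_def_of_ne_zero
    (by exact_mod_cast (Real.exp_pos y).ne'), ← Complex.ofReal_log (Real.exp_pos y).le,
    Real.log_exp, Complex.ofReal_exp, mul_left_comm, ← Complex.exp_add]
  congr 2
  ring

theorem pow_laplace {s : ℂ} {p : ℝ} (hs : p < s.re) :
    IntegrableOn (fun y : ℝ => ((Real.exp y ^ p : ℝ) : ℂ) * Complex.exp (-s * y)) (Set.Ioi 0) ∧
    ∫ y in Set.Ioi (0 : ℝ), ((Real.exp y ^ p : ℝ) : ℂ) * Complex.exp (-s * y) = 1 / (s - p) := by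
  have e : (fun y : ℝ => ((Real.exp y ^ p : ℝ) : ℂ) * Complex.exp (-s * y)) =
      fun y : ℝ => Complex.exp (((p : ℂ) - s) * y) := by
    funext y
    rw [← Real.exp_mul, Complex.ofReal_exp, ← Complex.exp_add]
    congr 1
    push_cast
    ring
  have hre : ((p : ℂ) - s).re < 0 := by simp; exact hs
  rw [e]
  refine ⟨integrableOn_exp_mul_complex_Ioi hre 0, ?_⟩
  rw [integral_exp_mul_complex_Ioi hre 0]
  have h1 : (p : ℂ) - s ≠ 0 := by
    intro h; rw [h] at hre; simp at hre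
  have h2 : s - (p : ℂ) ≠ 0 := by
    intro h; apply h1; linear_combination -h
  simp only [Complex.ofReal_zero, mul_zero, Complex.exp_zero]
  field_simp
  ring

theorem E_laplace {s : ℂ} (hs : 1 / 2 < s.re) :
    Hf s = ∫ y in Set.Ioi (0 : ℝ), (E (Real.exp y) : ℂ) * Complex.exp (-s * y) := by
  obtain ⟨i1, h1⟩ := pow_laplace (s := s) (p := 1 / 2) hs
  obtain ⟨i2, h2⟩ := pow_laplace (s := s) (p := 1 / 3) (by linarith)
  have iE : IntegrableOn (fun y : ℝ => (E (Real.exp y) : ℂ) * Complex.exp (-s * y))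
      (Set.Ioi 0) := by
    obtain ⟨C, hC⟩ := E_bound (r := (1 / 2 + s.re) / 2) (by linarith)
    have hint : IntegrableOn (fun y : ℝ => C * Real.exp (-((s.re - 1 / 2) / 2) * y))
      (Set.Ioi 0) := (integrableOn_exp_mul_Ioi (by linarith) 0).const_mul C
    refine Integrable.mono' hint ?_ ?_
    · refine Measurable.aestronglyMeasurable ?_
      exact (Complex.measurable_ofReal.comp (E_measurable.comp Real.measurable_exp)).mul
        (Complex.measurable_exp.comp (measurable_const.mul Complex.measurable_ofReal))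
    · refine (ae_restrict_iff' measurableSet_Ioi).2 (Filter.Eventually.of_forall ?_)
      intro y hy
      have hy0 : 0 < y := hy
      rw [norm_mul, Complex.norm_real, Real.norm_eq_abs, Complex.norm_exp]
      have e1 : (-s * (y : ℂ)).re = -s.re * y := by simp
      rw [e1]
      calc |E (Real.exp y)| * Real.exp (-s.re * y) ≤
          C * Real.exp ((1 / 2 + s.re) / 2 * y) * Real.exp (-s.re * y) :=
            mul_le_mul_of_nonneg_right (hC y hy0.le) (Real.exp_pos _).le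
        _ = _ := by
            rw [mul_assoc, ← Real.exp_add]
            congr 2
            ring
  have hQ : ∀ y : ℝ, (Q (Real.exp y) : ℂ) * Complex.exp (-s * y) =
      (E (Real.exp y) : ℂ) * Complex.exp (-s * y) +
      (cA : ℂ) * (((Real.exp y ^ (1 / 2 : ℝ) : ℝ) : ℂ) * Complex.exp (-s * y)) +
      (cB : ℂ) * (((Real.exp y ^ (1 / 3 : ℝ) : ℝ) : ℂ) * Complex.exp (-s * y)) := by
    intro y
    unfold E
    push_cast
    ring
  unfold Hf
  rw [Q_laplace hs]
  simp only [hQ]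
  have j1 : IntegrableOn (fun y : ℝ => (E (Real.exp y) : ℂ) * Complex.exp (-s * y) +
      (cA : ℂ) * (((Real.exp y ^ (1 / 2 : ℝ) : ℝ) : ℂ) * Complex.exp (-s * y))) (Set.Ioi 0) :=
    iE.add (i1.const_mul _)
  have j2 : IntegrableOn (fun y : ℝ => (cB : ℂ) * (((Real.exp y ^ (1 / 3 : ℝ) : ℝ) : ℂ) *
      Complex.exp (-s * y))) (Set.Ioi 0) := i2.const_mul _
  have j3 : IntegrableOn (fun y : ℝ => (cA : ℂ) * (((Real.exp y ^ (1 / 2 : ℝ) : ℝ) : ℂ) *
      Complex.exp (-s * y))) (Set.Ioi 0) := i1.const_mul _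
  rw [integral_add j1 j2, integral_add iE j3, integral_const_mul, integral_const_mul, h1, h2]
  push_cast
  ring

/-- change of variables -/
theorem mean_eq (s : ℝ) (k : ℕ) :
    ∫ x in Set.Ioi (1 : ℝ), E x * Real.log x ^ k * x ^ (-s - 1) =
      (k.factorial : ℝ) * Jc (fun y => E (Real.exp y)) s k := by
  rw [← exp_image, integral_image_eq_integral_abs_deriv_smul measurableSet_Ioi
    (fun x _ => (Real.hasDerivAt_exp x).hasDerivWithinAt) (Real.exp_injective.injOn)]
  unfold Jc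
  rw [← integral_const_mul]
  refine setIntegral_congr_fun measurableSet_Ioi ?_
  intro y _
  simp only
  rw [Real.abs_exp, smul_eq_mul, Real.log_exp, ← Real.exp_mul]
  have hk : (k.factorial : ℝ) ≠ 0 := by exact_mod_cast k.factorial_ne_zero
  have e : Real.exp y * (E (Real.exp y) * y ^ k * Real.exp (y * (-s - 1))) =
      E (Real.exp y) * y ^ k * Real.exp (-s * y) := by
    rw [show -s * y = y + y * (-s - 1) by ring, Real.exp_add]
    ring
  rw [e]
  field_simp

/-- the means of `E` with the weights `(log x)^k x^(-s-1)` -/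
theorem main : ∃ C θ : ℝ, 0 < θ ∧ θ < 1 ∧ ∀ (k : ℕ) (s : ℝ), 1 / 2 < s → s ≤ 2 →
    |s ^ (k + 1) / (k.factorial : ℝ) *
      (∫ x in Set.Ioi (1 : ℝ), E x * Real.log x ^ k * x ^ (-s - 1)) + 1 / 2| ≤ C * θ ^ k := by
  obtain ⟨q, D, hq, hD⟩ := hf_coeff
  have hD0 : 0 ≤ D := by
    have h := (norm_nonneg _).trans (hD 0)
    have hq0 : 0 < (1 / q) ^ (0 + 1) := by positivity
    exact nonneg_of_mul_nonneg_left h hq0
  refine ⟨D, 2 / q, by positivity, by rw [div_lt_one (by linarith)]; exact hq, ?_⟩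
  intro k s hs1 hs2
  set a : ℝ → ℝ := fun y => E (Real.exp y) with ha
  have ham : Measurable a := E_measurable.comp Real.measurable_exp
  obtain ⟨C, hC⟩ := E_bound (r := (1 / 2 + s) / 2) (by linarith)
  have hJ : ∀ k : ℕ, |Jc a 2 k - (-1 / 2) * (1 / 2) ^ (k + 1)| ≤ D * (1 / q) ^ (k + 1) := by
    intro k
    have h1 := jc_eq ham hC (H := Hf) (fun z hz => E_laplace (by linarith)) (s0 := 2)
      (by linarith) k
    have h2 := hD k
    have h3 : ((2 : ℝ) : ℂ) = 2 := by norm_num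
    rw [h3] at h1
    rw [← h1] at h2
    have h4 : (Jc a 2 k : ℂ) - (-1 / 2) * (1 / 2) ^ (k + 1) =
        ((Jc a 2 k - (-1 / 2) * (1 / 2) ^ (k + 1) : ℝ) : ℂ) := by push_cast; ring
    rw [h4, Complex.norm_real, Real.norm_eq_abs] at h2
    exact h2
  have h := jc_uniform ham hC (s := 2) (q := q) (c := -1 / 2) (D := D) (by linarith)
    (by linarith) hq hJ (v := 2 - s) (by linarith) (by linarith) k
  rw [show (2 : ℝ) - (2 - s) = s by ring] at h
  rw [mean_eq]
  have hs0 : 0 < s := by linarith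
  have hk : (0 : ℝ) < (k.factorial : ℝ) := by exact_mod_cast k.factorial_pos
  have hsp : 0 < s ^ (k + 1) := pow_pos hs0 _
  have e1 : s ^ (k + 1) / (k.factorial : ℝ) * ((k.factorial : ℝ) * Jc a s k) + 1 / 2 =
      s ^ (k + 1) * (Jc a s k - -1 / 2 * (1 / s) ^ (k + 1)) := by
    have : (1 / s) ^ (k + 1) * s ^ (k + 1) = 1 := by
      rw [← mul_pow, one_div, inv_mul_cancel₀ hs0.ne', one_pow]
    rw [← mul_assoc, div_mul_cancel₀ _ hk.ne']
    linear_combination (-1 / 2 : ℝ) * this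
  rw [e1, abs_mul, abs_of_pos hsp]
  have hqs : 0 < q - (2 - s) := by linarith
  have hratio : s * (1 / (q - (2 - s))) ≤ 2 / q := by
    rw [mul_one_div, div_le_div_iff₀ hqs (by linarith)]
    nlinarith
  have hr0 : 0 ≤ s * (1 / (q - (2 - s))) := by positivity
  calc s ^ (k + 1) * |Jc a s k - -1 / 2 * (1 / s) ^ (k + 1)| ≤
      s ^ (k + 1) * (D * (1 / (q - (2 - s))) ^ (k + 1)) :=
        mul_le_mul_of_nonneg_left h hsp.le
    _ = D * (s * (1 / (q - (2 - s)))) ^ (k + 1) := by rw [mul_pow]; ring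
    _ ≤ D * (2 / q) ^ (k + 1) := by
        apply mul_le_mul_of_nonneg_left (pow_le_pow_left₀ hr0 hratio _) hD0
    _ ≤ D * (2 / q) ^ k := by
        apply mul_le_mul_of_nonneg_left _ hD0
        apply pow_le_pow_of_le_one (by positivity) _ (Nat.le_succ k)
        rw [div_le_one (by linarith)]
        exact hq.le

end Pool.PWF
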