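import Pool.Agent.Helper76.PWF.Crit

/-!
# PWF OSD: one-sided bounds for `E(x)` imply the condition on the zeros
-/

set_option autoImplicit false

open Complex Finset Filter Topology MeasureTheory

namespace Pool.PWF

open Pool.OMG

/-- Landau's lemma in terms of the Taylor coefficients at one centre -/
theorem integrable_of_coeff {a : ℝ → ℝ} (ha : Measurable a) (hnn : ∀ y : ℝ, 0 ≤ y → 0 ≤ a y)
    {C r : ℝ} (hb : ∀ y : ℝ, 0 ≤ y → |a y| ≤ C * Real.exp (r * y)) {s x : ℝ} (hrs : r < s)
    (hxs : x < s) (hsum : Summable fun k : ℕ => Jc a s k * (s - x) ^ k) :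
    IntegrableOn (fun y : ℝ => a y * Real.exp (-x * y)) (Set.Ioi 0) := by
  have hsx : 0 < s - x := by linarith
  have hmeas : Measurable (fun y : ℝ => a y * Real.exp (-x * y)) :=
    ha.mul (Real.measurable_exp.comp (measurable_const.mul measurable_id))
  refine ⟨hmeas.aestronglyMeasurable, ?_⟩
  have hint : ∀ k : ℕ, IntegrableOn (fun y : ℝ => a y * Real.exp (-s * y) * y ^ k /
      (k.factorial : ℝ) * (s - x) ^ k) (Set.Ioi 0) := fun k =>
    (jc_integrable ha hb hrs k).mul_const _
  have hnn2 : ∀ (k : ℕ) (y : ℝ), y ∈ Set.Ioi (0 : ℝ) →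
      0 ≤ a y * Real.exp (-s * y) * y ^ k / (k.factorial : ℝ) * (s - x) ^ k := by
    intro k y hy
    have hy0 : 0 < y := hy
    have := hnn y hy0.le
    positivity
  have hser : ∀ y ∈ Set.Ioi (0 : ℝ), HasSum (fun k : ℕ => a y * Real.exp (-s * y) * y ^ k /
      (k.factorial : ℝ) * (s - x) ^ k) (a y * Real.exp (-x * y)) := by
    intro y _
    have h1 := NormedSpace.expSeries_div_hasSum_exp ((s - x) * y)
    rw [← Real.exp_eq_exp_ℝ] at h1
    have h2 := h1.mul_left (a y * Real.exp (-s * y))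
    have e1 : a y * Real.exp (-s * y) * Real.exp ((s - x) * y) = a y * Real.exp (-x * y) := by
      rw [mul_assoc, ← Real.exp_add]; congr 2; ring
    rw [e1] at h2
    have e2 : (fun k : ℕ => a y * Real.exp (-s * y) * y ^ k / (k.factorial : ℝ) * (s - x) ^ k) =
        fun k : ℕ => a y * Real.exp (-s * y) * (((s - x) * y) ^ k / (k.factorial : ℝ)) := by
      funext k
      rw [mul_pow]; ring
    rw [e2]
    exact h2
  unfold HasFiniteIntegral
  have e1 : ∫⁻ y in Set.Ioi (0 : ℝ), ‖a y * Real.exp (-x * y)‖ₑ =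
      ∫⁻ y in Set.Ioi (0 : ℝ), ∑' k : ℕ, ENNReal.ofReal (a y * Real.exp (-s * y) * y ^ k /
        (k.factorial : ℝ) * (s - x) ^ k) := by
    refine setLIntegral_congr_fun measurableSet_Ioi ?_
    intro y hy
    have hy0 : 0 < y := hy
    simp only
    rw [← ENNReal.ofReal_tsum_of_nonneg (fun k => hnn2 k y hy) (hser y hy).summable,
      (hser y hy).tsum_eq, Real.enorm_eq_ofReal]
    exact mul_nonneg (hnn y hy0.le) (Real.exp_pos _).le
  have hm : ∀ k : ℕ, Measurable (fun y : ℝ => a y * Real.exp (-s * y) * y ^ k /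
        (k.factorial : ℝ) * (s - x) ^ k) := fun k =>
    (((ha.mul (Real.measurable_exp.comp (measurable_const.mul measurable_id))).mul
      (measurable_id.pow_const k)).div_const _).mul_const _
  rw [e1, lintegral_tsum (fun k => (hm k).ennreal_ofReal.aemeasurable)]
  have e2 : ∀ k : ℕ, ∫⁻ y in Set.Ioi (0 : ℝ), ENNReal.ofReal (a y * Real.exp (-s * y) * y ^ k /
        (k.factorial : ℝ) * (s - x) ^ k) = ENNReal.ofReal (Jc a s k * (s - x) ^ k) := by
    intro k
    rw [← ofReal_integral_eq_lintegral_ofReal (hint k)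
      ((ae_restrict_iff' measurableSet_Ioi).2 (Filter.Eventually.of_forall (hnn2 k))),
      integral_mul_const]
    rfl
  simp only [e2]
  rw [← ENNReal.ofReal_tsum_of_nonneg _ hsum]
  · exact ENNReal.ofReal_lt_top
  · intro k
    have : 0 ≤ Jc a s k := by
      unfold Jc
      refine setIntegral_nonneg measurableSet_Ioi fun y hy => ?_
      have hy0 : 0 < y := hy
      have := hnn y hy0.le
      positivity
    positivity

/-- the weight `exp(-b y) (b y)^k / k! <= 1` -/
theorem weight_le {b y : ℝ} (hb : 0 ≤ b) (hy : 0 ≤ y) (k : ℕ) :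
    Real.exp (-(b * y)) * (b * y) ^ k / (k.factorial : ℝ) ≤ 1 := by
  have hby : 0 ≤ b * y := by positivity
  have h1 : (b * y) ^ k / (k.factorial : ℝ) ≤ Real.exp (b * y) :=
    Real.pow_div_factorial_le_exp _ hby k
  rw [mul_div_assoc, Real.exp_neg, inv_mul_le_iff₀ (Real.exp_pos _), mul_one]
  exact h1

/-- absolute convergence of the Laplace integral at `x` implies the bound in mean with exponent `x` -/
theorem mean_of_integrable {x : ℝ} (hx : x < 1 / 6)
    (h : IntegrableOn (fun y : ℝ => E (Real.exp y) * Real.exp (-x * y)) (Set.Ioi 0)) :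
    MeanBound x := by
  intro s hs
  set I : ℝ := ∫ y in Set.Ioi (0 : ℝ), |E (Real.exp y) * Real.exp (-x * y)| with hI
  have hsx : 0 < s - x := by linarith
  refine ⟨I * (s - x), fun k => ?_⟩
  rw [pow_mean (by linarith), mean_eq, abs_mul, Nat.abs_cast]
  have hk : (0 : ℝ) < (k.factorial : ℝ) := by exact_mod_cast k.factorial_pos
  have hJ : |Jc (fun y => E (Real.exp y)) s k| ≤ I * (1 / (s - x)) ^ k := by
    unfold Jc
    have h1 := norm_integral_le_of_norm_le (h.abs.mul_const ((1 / (s - x)) ^ k))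
      (f := fun y : ℝ => E (Real.exp y) *
      Real.exp (-s * y) * y ^ k / (k.factorial : ℝ)) (μ := volume.restrict (Set.Ioi 0)) (by
        refine (ae_restrict_iff' measurableSet_Ioi).2 (Filter.Eventually.of_forall ?_)
        intro y hy
        have hy0 : 0 < y := hy
        have hw := weight_le hsx.le hy0.le k
        have e : E (Real.exp y) * Real.exp (-s * y) * y ^ k / (k.factorial : ℝ) =
            (E (Real.exp y) * Real.exp (-x * y)) * (1 / (s - x)) ^ k *
              (Real.exp (-((s - x) * y)) * ((s - x) * y) ^ k / (k.factorial : ℝ)) := by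
          have e1 : Real.exp (-s * y) = Real.exp (-x * y) * Real.exp (-((s - x) * y)) := by
            rw [← Real.exp_add]; congr 1; ring
          have e2 : (1 / (s - x)) ^ k * ((s - x) * y) ^ k = y ^ k := by
            rw [← mul_pow]; congr 1; field_simp
          rw [e1, ← e2]
          ring
        rw [Real.norm_eq_abs, e, abs_mul, abs_mul, abs_of_nonneg (show 0 ≤ (1 / (s - x)) ^ k by
          positivity), abs_of_nonneg (show 0 ≤ Real.exp (-((s - x) * y)) * ((s - x) * y) ^ k /
          (k.factorial : ℝ) by positivity)]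
        have h2 : 0 ≤ |E (Real.exp y) * Real.exp (-x * y)| * (1 / (s - x)) ^ k := by positivity
        calc _ ≤ |E (Real.exp y) * Real.exp (-x * y)| * (1 / (s - x)) ^ k * 1 :=
              mul_le_mul_of_nonneg_left hw h2
          _ = _ := mul_one _)
    rw [integral_mul_const] at h1
    exact h1
  calc (k.factorial : ℝ) * |Jc (fun y => E (Real.exp y)) s k| ≤
      (k.factorial : ℝ) * (I * (1 / (s - x)) ^ k) := mul_le_mul_of_nonneg_left hJ hk.le
    _ = _ := by
        rw [pow_succ, one_div_pow]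
        field_simp

/-- a one-sided bound implies the bounds in mean for all larger exponents -/
theorem one_sided {t r C x0 : ℝ} (ht : t = 1 ∨ t = -1) (hr0 : 0 ≤ r)
    (h : ∀ x : ℝ, x0 ≤ x → t * E x ≤ C * x ^ r) {r' : ℝ} (h1 : r < r') (h2 : r' < 1 / 6) :
    MeanBound r' := by
  obtain ⟨C1, hC1⟩ := E_bound (r := 3 / 4) (by norm_num)
  have hC1' : 0 ≤ C1 := by
    have h1 := (abs_nonneg _).trans (hC1 0 le_rfl)
    simpa using h1
  have htabs : |t| = 1 := by rcases ht with rfl | rfl <;> simp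
  set x1 : ℝ := max x0 1 with hx1
  have hx1' : 1 ≤ x1 := le_max_right _ _
  set C2 : ℝ := |C| + C1 * x1 ^ (3 / 4 : ℝ) with hC2
  have hC20 : 0 ≤ C2 := by positivity
  -- the nonnegative function
  set a : ℝ → ℝ := fun y => C2 * Real.exp (r * y) - t * E (Real.exp y) with ha
  have ham : Measurable a :=
    (measurable_const.mul (Real.measurable_exp.comp (measurable_const.mul measurable_id))).sub
      (measurable_const.mul (E_measurable.comp Real.measurable_exp))
  have hnn : ∀ y : ℝ, 0 ≤ y → 0 ≤ a y := by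
    intro y hy
    have h3 : 1 ≤ Real.exp (r * y) := Real.one_le_exp (by positivity)
    rcases le_or_gt x0 (Real.exp y) with h4 | h4
    · have h5 := h _ h4
      rw [← Real.exp_mul, mul_comm y r] at h5
      have h6 : C * Real.exp (r * y) ≤ C2 * Real.exp (r * y) := by
        apply mul_le_mul_of_nonneg_right _ (Real.exp_pos _).le
        have := le_abs_self C
        have : 0 ≤ C1 * x1 ^ (3 / 4 : ℝ) := by positivity
        linarith
      simp only [ha]
      linarith
    · have h5 := hC1 y hy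
      have h6 : Real.exp (3 / 4 * y) ≤ x1 ^ (3 / 4 : ℝ) := by
        have : Real.exp (3 / 4 * y) = Real.exp y ^ (3 / 4 : ℝ) := by
          rw [← Real.exp_mul]; ring_nf
        rw [this]
        exact Real.rpow_le_rpow (Real.exp_pos _).le (h4.le.trans (le_max_left _ _)) (by norm_num)
      have h7 : C1 * Real.exp (3 / 4 * y) ≤ C1 * x1 ^ (3 / 4 : ℝ) :=
        mul_le_mul_of_nonneg_left h6 hC1'
      have h8 : t * E (Real.exp y) ≤ |E (Real.exp y)| := by
        refine (le_abs_self _).trans ?_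
        rw [abs_mul, htabs, one_mul]
      have h9 : C2 * 1 ≤ C2 * Real.exp (r * y) := mul_le_mul_of_nonneg_left h3 hC20
      have h10 : 0 ≤ |C| := abs_nonneg C
      simp only [ha]
      linarith
  have hab : ∀ y : ℝ, 0 ≤ y → |a y| ≤ (C2 + C1) * Real.exp (3 / 4 * y) := by
    intro y hy
    have h3 := hC1 y hy
    have h4 : Real.exp (r * y) ≤ Real.exp (3 / 4 * y) :=
      Real.exp_le_exp.mpr (mul_le_mul_of_nonneg_right (by linarith) hy)
    simp only [ha]
    refine (abs_sub _ _).trans ?_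
    rw [abs_mul, abs_mul, htabs, one_mul, Real.abs_exp, abs_of_nonneg hC20]
    nlinarith
  -- the coefficients at 2
  obtain ⟨q, D, hq, hD⟩ := hf_coeff
  have hD0 : 0 ≤ D := by
    have h := (norm_nonneg _).trans (hD 0)
    have hq0 : 0 < (1 / q) ^ (0 + 1) := by positivity
    exact nonneg_of_mul_nonneg_left h hq0
  have hEm : Measurable (fun y => E (Real.exp y)) := E_measurable.comp Real.measurable_exp
  have hJE : ∀ k : ℕ, |Jc (fun y => E (Real.exp y)) 2 k| ≤ (1 + D) * (1 / 2) ^ k := by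
    intro k
    have h1 := jc_eq hEm hC1 (H := Hf) (fun z hz => E_laplace (by linarith)) (s0 := 2)
      (by norm_num) k
    have h3 : ((2 : ℝ) : ℂ) = 2 := by norm_num
    rw [h3] at h1
    have h4 : |Jc (fun y => E (Real.exp y)) 2 k| = ‖PowerSeries.coeff k (T (2 : ℂ) Hf)‖ := by
      rw [← h1, Complex.norm_real, Real.norm_eq_abs]
    rw [h4]
    have h5 : PowerSeries.coeff k (T (2 : ℂ) Hf) = (PowerSeries.coeff k (T (2 : ℂ) Hf) -
      (-1 / 2) * (1 / 2) ^ (k + 1)) + (-1 / 2) * (1 / 2) ^ (k + 1) := by ring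
    rw [h5]
    refine (norm_add_le _ _).trans ?_
    have h6 : ‖(-1 / 2 : ℂ) * (1 / 2) ^ (k + 1)‖ ≤ (1 / 2) ^ k := by
      rw [norm_mul, norm_pow]
      have e1 : ‖(-1 / 2 : ℂ)‖ = 1 / 2 := by norm_num
      have e2 : ‖(1 / 2 : ℂ)‖ = 1 / 2 := by norm_num
      rw [e1, e2, pow_succ]
      have : (0 : ℝ) < (1 / 2) ^ k := by positivity
      linarith
    have h7 : D * (1 / q) ^ (k + 1) ≤ D * (1 / 2) ^ k := by
      apply mul_le_mul_of_nonneg_left _ hD0
      have h8 : (1 / q) ^ (k + 1) ≤ (1 / 2) ^ (k + 1) :=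
        pow_le_pow_left₀ (by positivity) (one_div_le_one_div_of_le two_pos hq.le) _
      have h9 : ((1 : ℝ) / 2) ^ (k + 1) ≤ (1 / 2) ^ k :=
        pow_le_pow_of_le_one (by norm_num) (by norm_num) (Nat.le_succ k)
      exact h8.trans h9
    have h10 := hD k
    linarith
  have hJa : ∀ k : ℕ, |Jc a 2 k| ≤ (C2 + 1 + D) * (1 / (2 - r)) ^ k := by
    intro k
    have hk : (0 : ℝ) < (k.factorial : ℝ) := by exact_mod_cast k.factorial_pos
    have hexp : ∀ y : ℝ, 0 ≤ y → |Real.exp (r * y)| ≤ 1 * Real.exp (r * y) := fun y _ => by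
      rw [Real.abs_exp, one_mul]
    have i1 := jc_integrable (a := fun y => Real.exp (r * y))
      (Real.measurable_exp.comp (measurable_const.mul measurable_id)) hexp (s0 := 2)
      (by linarith) k
    have i2 := jc_integrable hEm hC1 (s0 := 2) (by norm_num) k
    have e1 : Jc a 2 k = C2 * Jc (fun y => Real.exp (r * y)) 2 k -
        t * Jc (fun y => E (Real.exp y)) 2 k := by
      unfold Jc
      rw [← integral_const_mul, ← integral_const_mul, ← integral_sub (i1.const_mul _)
        (i2.const_mul _)]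
      refine setIntegral_congr_fun measurableSet_Ioi ?_
      intro y _
      simp only [ha]
      ring
    have e2 : Jc (fun y => Real.exp (r * y)) 2 k = 1 / (2 - r) ^ (k + 1) := by
      unfold Jc
      have h3 : ∀ y : ℝ, Real.exp (r * y) * Real.exp (-2 * y) * y ^ k / (k.factorial : ℝ) =
          (1 / (k.factorial : ℝ)) * (y ^ k * Real.exp (-((2 - r) * y))) := by
        intro y
        have : Real.exp (-((2 - r) * y)) = Real.exp (r * y) * Real.exp (-2 * y) := by
          rw [← Real.exp_add]; congr 1; ring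
        rw [this]; ring
      simp only [h3]
      rw [integral_const_mul, exp_int (by linarith)]
      field_simp
    rw [e1, e2]
    refine (abs_sub _ _).trans ?_
    rw [abs_mul, abs_mul, htabs, one_mul, abs_of_nonneg hC20]
    have h2r : 1 ≤ 2 - r := by linarith
    have h3 : |1 / (2 - r) ^ (k + 1)| ≤ (1 / (2 - r)) ^ k := by
      rw [abs_of_nonneg (by positivity), ← one_div_pow]
      exact pow_le_pow_of_le_one (by positivity) (by rw [div_le_one (by linarith)]; exact h2r)
        (Nat.le_succ k)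
    have h4 : (1 / 2 : ℝ) ^ k ≤ (1 / (2 - r)) ^ k :=
      pow_le_pow_left₀ (by norm_num) (one_div_le_one_div_of_le (by linarith) (by linarith)) k
    have h5 := hJE k
    have h6 : C2 * |1 / (2 - r) ^ (k + 1)| ≤ C2 * (1 / (2 - r)) ^ k :=
      mul_le_mul_of_nonneg_left h3 hC20
    have h7 : (1 + D) * (1 / 2) ^ k ≤ (1 + D) * (1 / (2 - r)) ^ k :=
      mul_le_mul_of_nonneg_left h4 (by positivity)
    linarith
  -- convergence at `r'`
  have hsum : Summable fun k : ℕ => Jc a 2 k * (2 - r') ^ k := by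
    have h3 : Summable (fun k : ℕ => (C2 + 1 + D) * ((2 - r') / (2 - r)) ^ k) :=
      (summable_geometric_of_lt_one (div_nonneg (by linarith) (by linarith))
        (by rw [div_lt_one (by linarith)]; linarith)).mul_left _
    refine Summable.of_norm_bounded h3 fun k => ?_
    rw [norm_mul, norm_pow, Real.norm_eq_abs, Real.norm_of_nonneg (by linarith)]
    calc |Jc a 2 k| * (2 - r') ^ k ≤ ((C2 + 1 + D) * (1 / (2 - r)) ^ k) * (2 - r') ^ k :=
          mul_le_mul_of_nonneg_right (hJa k) (pow_nonneg (by linarith) k)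
      _ = _ := by rw [mul_assoc, ← mul_pow]; congr 2; ring
  have hint := integrable_of_coeff ham hnn hab (s := 2) (x := r') (by norm_num) (by linarith) hsum
  have hexpint : IntegrableOn (fun y : ℝ => Real.exp (-(r' - r) * y)) (Set.Ioi 0) :=
    integrableOn_exp_mul_Ioi (by linarith) 0
  have hEint : IntegrableOn (fun y : ℝ => E (Real.exp y) * Real.exp (-r' * y)) (Set.Ioi 0) := by
    have h3 : IntegrableOn (fun y : ℝ => t * (C2 * Real.exp (-(r' - r) * y) -
        a y * Real.exp (-r' * y))) (Set.Ioi 0) := ((hexpint.const_mul C2).sub hint).const_mul t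
    refine h3.congr_fun ?_ measurableSet_Ioi
    intro y _
    simp only [ha]
    have e1 : Real.exp (-(r' - r) * y) = Real.exp (r * y) * Real.exp (-r' * y) := by
      rw [← Real.exp_add]; congr 1; ring
    rw [e1]
    have e2 : t * t = 1 := by rcases ht with rfl | rfl <;> norm_num
    linear_combination (E (Real.exp y) * Real.exp (-r' * y)) * e2
  exact mean_of_integrable h2 hEint

/-- bounds in mean for all larger exponents give the condition on the zeros -/
theorem zero_of_means {r : ℝ} (hr0 : 0 ≤ r) (hr1 : r < 1 / 6)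
    (h : ∀ r' : ℝ, r < r' → r' < 1 / 6 → MeanBound r') : ZeroCond (6 * r) := by
  intro ρ h1 h2
  set r' : ℝ := (r + ρ.re / 6) / 2 with hr'
  have h3 : r < r' := by rw [hr']; linarith
  have h4 : r' < 1 / 6 := by rw [hr']; linarith
  exact mean_zero (by linarith) (h r' h3 h4) ρ (by rw [hr']; linarith) h2

/-- the criterion -/
theorem criterion {r : ℝ} (h0 : 0 ≤ r) (h1 : r < 1 / 6) :
    ((∃ C x0 : ℝ, ∀ x : ℝ, x0 ≤ x → E x ≤ C * x ^ r) → ZeroCond (6 * r)) ∧
    ((∃ C x0 : ℝ, ∀ x : ℝ, x0 ≤ x → -(C * x ^ r) ≤ E x) → ZeroCond (6 * r)) ∧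
    (ZeroCond (6 * r) ↔ ∀ r' : ℝ, r < r' → r' < 1 / 6 → MeanBound r') := by
  refine ⟨?_, ?_, ?_⟩
  · rintro ⟨C, x0, h⟩
    refine zero_of_means h0 h1 fun r' h2 h3 => ?_
    exact one_sided (t := 1) (C := C) (x0 := x0) (Or.inl rfl) h0
      (fun x hx => by rw [one_mul]; exact h x hx) h2 h3
  · rintro ⟨C, x0, h⟩
    refine zero_of_means h0 h1 fun r' h2 h3 => ?_
    exact one_sided (t := -1) (C := C) (x0 := x0) (Or.inr rfl) h0
      (fun x hx => by have := h x hx; linarith) h2 h3
  · exact ⟨fun h r' h2 h3 => zero_mean h0 h2 h3 h, fun h => zero_of_means h0 h1 h⟩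

/-- a one-sided form of Q1 restricts the zeros near the line `Re = 1` -/
theorem q1_one_sided (h : ∃ δ C x0 : ℝ, 0 < δ ∧
    ((∀ x : ℝ, x0 ≤ x → E x ≤ C * x ^ (1 / 6 - δ)) ∨
      (∀ x : ℝ, x0 ≤ x → -(C * x ^ (1 / 6 - δ)) ≤ E x))) :
    ∃ b : ℝ, b < 1 ∧ ∀ ρ : ℂ, b < ρ.re → riemannZeta ρ = 0 →
      riemannZeta (ρ / 2) = 0 ∨ riemannZeta (ρ / 3) = 0 := by
  obtain ⟨δ, C, x0, hδ, h⟩ := h
  set r : ℝ := max (1 / 6 - δ) 0 with hr
  have hr0 : 0 ≤ r := le_max_right _ _
  have hr1 : r < 1 / 6 := max_lt (by linarith) (by norm_num)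
  obtain ⟨c1, c2, _⟩ := criterion hr0 hr1
  have hle : ∀ x : ℝ, max x0 1 ≤ x → C * x ^ (1 / 6 - δ) ≤ |C| * x ^ r := by
    intro x hx
    have hx1 : 1 ≤ x := (le_max_right _ _).trans hx
    have h2 : x ^ (1 / 6 - δ) ≤ x ^ r := Real.rpow_le_rpow_of_exponent_le hx1 (le_max_left _ _)
    calc C * x ^ (1 / 6 - δ) ≤ |C| * x ^ (1 / 6 - δ) :=
          mul_le_mul_of_nonneg_right (le_abs_self C) (by positivity)
      _ ≤ _ := mul_le_mul_of_nonneg_left h2 (abs_nonneg C)
  have hz : ZeroCond (6 * r) := by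
    rcases h with h | h
    · exact c1 ⟨|C|, max x0 1, fun x hx => (h x ((le_max_left _ _).trans hx)).trans (hle x hx)⟩
    · refine c2 ⟨|C|, max x0 1, fun x hx => ?_⟩
      have h3 := h x ((le_max_left _ _).trans hx)
      have h4 := hle x hx
      linarith
  refine ⟨6 * r, by linarith, fun ρ h2 h3 => ?_⟩
  have h4 : ρ.re < 1 := by
    by_contra h5
    exact riemannZeta_ne_zero_of_one_le_re (not_lt.mp h5) h3
  exact zero_weak hz ρ h2 h4 h3

end Pool.PWF
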