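import Pool.Agent.Helper76.PWF.Zfz

/-!
# PWF ZUB: `(w-1) zeta(w) = 1 + sum_n ((w-1) n^(-w) - n^(1-w) + (n+1)^(1-w))` for `Re w > 0`,
# and the bounds for `zeta` from above and below
-/

set_option autoImplicit false

open Complex Finset Filter Topology MeasureTheory

namespace Pool.PWF

/-- the terms -/
private noncomputable def g (n : ℝ) (w : ℂ) : ℂ := (n : ℂ) ^ (-w)

private noncomputable def term (n : ℕ) (w : ℂ) : ℂ :=
  (w - 1) * g (n + 1) w + (g (n + 2) (w - 1) - g (n + 1) (w - 1))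

private theorem d_bound {w : ℂ} (hw : 0 < w.re) {a x : ℝ} (ha : 0 < a) (h1 : a ≤ x)
    (h2 : x ≤ a + 1) : ‖g a w - g x w‖ ≤ ‖w‖ * a ^ (-w.re - 1) := by
  have hs0 : w ≠ 0 := by rintro rfl; simp at hw
  have hder : ∀ x ∈ Set.Icc a (a + 1), HasDerivWithinAt (fun x : ℝ => (x : ℂ) ^ (-w))
      (-w * (x : ℂ) ^ (-w - 1)) (Set.Icc a (a + 1)) x := by
    intro x hx
    have hx0 : 0 < x := lt_of_lt_of_le ha hx.1
    exact (hasDerivAt_ofReal_cpow_const (x := x) hx0.ne' (r := -w)
      (neg_ne_zero.mpr hs0)).hasDerivWithinAt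
  have hbd : ∀ x ∈ Set.Icc a (a + 1), ‖-w * (x : ℂ) ^ (-w - 1)‖ ≤ ‖w‖ * a ^ (-w.re - 1) := by
    intro x hx
    have hx0 : 0 < x := lt_of_lt_of_le ha hx.1
    rw [norm_mul, norm_neg, Complex.norm_cpow_eq_rpow_re_of_pos hx0]
    refine mul_le_mul_of_nonneg_left ?_ (norm_nonneg _)
    have : (-w - 1).re = -w.re - 1 := by simp
    rw [this]
    exact Real.rpow_le_rpow_of_nonpos ha hx.1 (by linarith)
  have h := (convex_Icc a (a + 1)).norm_image_sub_le_of_norm_hasDerivWithin_le hder hbd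
    (x := x) (y := a) ⟨h1, h2⟩ (Set.left_mem_Icc.mpr (by linarith))
  have h3 : ‖a - x‖ ≤ 1 := by
    rw [Real.norm_eq_abs, abs_le]
    constructor <;> linarith
  refine h.trans ?_
  have h4 : 0 ≤ ‖w‖ * a ^ (-w.re - 1) := by positivity
  nlinarith

private theorem term_bound {w : ℂ} (hw : 0 < w.re) (n : ℕ) :
    ‖term n w‖ ≤ ‖w - 1‖ * ‖w‖ * ((n : ℝ) + 1) ^ (-w.re - 1) := by
  have hn : (0 : ℝ) ≤ n := n.cast_nonneg
  set a : ℝ := (n : ℝ) + 1 with ha
  have ha0 : 0 < a := by positivity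
  rcases eq_or_ne w 1 with rfl | hw1
  · unfold term g
    simp
  have hder : ∀ x ∈ Set.Icc a (a + 1), HasDerivWithinAt
      (fun x : ℝ => (w - 1) * g a w * (x : ℂ) + (x : ℂ) ^ (-(w - 1)))
      ((w - 1) * (g a w - g x w)) (Set.Icc a (a + 1)) x := by
    intro x hx
    have hx0 : 0 < x := lt_of_lt_of_le ha0 hx.1
    have h1 := hasDerivAt_ofReal_cpow_const (x := x) hx0.ne' (r := -(w - 1))
      (neg_ne_zero.mpr (sub_ne_zero.mpr hw1))
    have h2 : HasDerivAt (fun x : ℝ => (w - 1) * g a w * (x : ℂ)) ((w - 1) * g a w * 1) x :=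
      (Complex.ofRealCLM.hasDerivAt (x := x)).const_mul _
    refine ((h2.add h1).congr_deriv ?_).hasDerivWithinAt
    unfold g
    rw [show -(w - 1) - 1 = -w by ring]
    ring
  have hbd : ∀ x ∈ Set.Icc a (a + 1), ‖(w - 1) * (g a w - g x w)‖ ≤
      ‖w - 1‖ * (‖w‖ * a ^ (-w.re - 1)) := by
    intro x hx
    rw [norm_mul]
    exact mul_le_mul_of_nonneg_left (d_bound hw ha0 hx.1 hx.2) (norm_nonneg _)
  have h := (convex_Icc a (a + 1)).norm_image_sub_le_of_norm_hasDerivWithin_le hder hbd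
    (Set.left_mem_Icc.mpr (by linarith)) (Set.right_mem_Icc.mpr (by linarith))
  have h3 : ‖a + 1 - a‖ = 1 := by
    rw [show a + 1 - a = 1 by ring]; norm_num
  rw [h3, mul_one] at h
  have e : term n w = (w - 1) * g a w * ((a + 1 : ℝ) : ℂ) + ((a + 1 : ℝ) : ℂ) ^ (-(w - 1)) -
      ((w - 1) * g a w * (a : ℂ) + (a : ℂ) ^ (-(w - 1))) := by
    unfold term
    rw [← ha, show (n : ℝ) + 2 = a + 1 by rw [ha]; ring]
    unfold g
    push_cast
    ring
  rw [e, mul_assoc ‖w - 1‖]
  exact h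

private theorem term_bound2 {δ B : ℝ} (hδ : 0 < δ) {w : ℂ} (h1 : δ ≤ w.re) (h2 : ‖w‖ ≤ B) (k : ℕ) :
    ‖term k w‖ ≤ ((B + 1) * B) * ((k : ℝ) + 1) ^ (-δ - 1) := by
  refine (term_bound (lt_of_lt_of_le hδ h1) k).trans ?_
  have hB : 0 ≤ B := (norm_nonneg _).trans h2
  have hk : (0 : ℝ) ≤ k := k.cast_nonneg
  have h3 : ‖w - 1‖ ≤ B + 1 := by
    refine (norm_sub_le _ _).trans ?_
    rw [norm_one]
    linarith
  refine mul_le_mul (mul_le_mul h3 h2 (norm_nonneg _) (by positivity)) ?_ (by positivity)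
    (by positivity)
  exact Real.rpow_le_rpow_of_exponent_le (by linarith) (by linarith)

private lemma base_summ {δ : ℝ} (hδ : 0 < δ) :
    Summable (fun k : ℕ => ((k : ℝ) + 1) ^ (-δ - 1)) := by
  have h : Summable (fun n : ℕ => ((n : ℝ) ^ (-δ - 1))) :=
    Real.summable_nat_rpow.mpr (by linarith)
  have h2 := (summable_nat_add_iff 1).mpr h
  refine h2.congr (fun k => ?_)
  push_cast
  rfl

private lemma term_summable {w : ℂ} (hw : 0 < w.re) : Summable (fun k => term k w) :=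
  Summable.of_norm_bounded ((base_summ hw).mul_left _) (fun k => term_bound hw k)

private lemma g_diff {a : ℝ} (ha : 0 < a) : Differentiable ℂ (g a) := by
  intro w
  exact (differentiableAt_id.neg).const_cpow (Or.inl (by exact_mod_cast ha.ne'))

private lemma term_diff (k : ℕ) : Differentiable ℂ (term k) := by
  have h1 := g_diff (a := (k : ℝ) + 1) (by positivity)
  have h2 := g_diff (a := (k : ℝ) + 2) (by positivity)
  have h3 : Differentiable ℂ (fun w : ℂ => w - 1) := differentiable_id.sub_const 1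
  exact (h3.mul h1).add ((h2.comp h3).sub (h1.comp h3))

private noncomputable def W (w : ℂ) : ℂ := ∑' k, term k w

private lemma W_diffOn : DifferentiableOn ℂ W {s : ℂ | 0 < s.re} := by
  intro s hs
  have hs' : 0 < s.re := hs
  set U : Set ℂ := {z | s.re / 2 < z.re} ∩ {z | ‖z‖ < ‖s‖ + 1} with hU
  have hUo : IsOpen U := (isOpen_lt continuous_const Complex.continuous_re).inter
    (isOpen_lt continuous_norm continuous_const)
  have hd : DifferentiableOn ℂ (fun s => ∑' k, term k s) U :=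
    differentiableOn_tsum_of_summable_norm ((base_summ (half_pos hs')).mul_left _)
      (fun k => (term_diff k).differentiableOn) hUo
      (fun k w hw => term_bound2 (half_pos hs') (le_of_lt hw.1) (le_of_lt hw.2) k)
  have hsU : s ∈ U := ⟨by change s.re / 2 < s.re; linarith, by simp⟩
  exact (hd.differentiableAt (hUo.mem_nhds hsU)).differentiableWithinAt

private theorem sum_id (w : ℂ) (m : ℕ) :
    ∑ k ∈ range m, term k w = (w - 1) * ∑ k ∈ range m, g (k + 1) w + (g (m + 1) (w - 1) - 1) := by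
  induction m with
  | zero => simp [g]
  | succ m ih =>
    rw [sum_range_succ, sum_range_succ, ih]
    unfold term
    push_cast
    rw [show (m : ℝ) + 1 + 1 = m + 2 by ring]
    ring

private theorem W_eq_one {w : ℂ} (hw : 1 < w.re) : W w = (w - 1) * riemannZeta w - 1 := by
  have hsum : HasSum (fun n : ℕ => g (n + 1) w) (riemannZeta w) := by
    rw [zeta_eq_tsum_one_div_nat_add_one_cpow hw]
    have hS : Summable (fun n : ℕ => 1 / ((n : ℂ) + 1) ^ w) := by
      have h1 := (Complex.summable_one_div_nat_cpow (p := w)).mpr hw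
      have h2 := (summable_nat_add_iff 1).mpr h1
      refine h2.congr fun n => ?_
      push_cast
      rfl
    have h3 : (fun n : ℕ => g (n + 1) w) = fun n : ℕ => 1 / ((n : ℂ) + 1) ^ w := by
      funext n
      unfold g
      rw [Complex.cpow_neg, one_div]
      push_cast
      rfl
    rw [h3]
    exact hS.hasSum
  have h1 := (hsum.tendsto_sum_nat.const_mul (w - 1))
  have hg : Tendsto (fun m : ℕ => g ((m : ℝ) + 1) (w - 1)) atTop (𝓝 0) := by
    rw [tendsto_zero_iff_norm_tendsto_zero]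
    have h2 : Tendsto (fun m : ℕ => ((m : ℝ) + 1)) atTop atTop :=
      tendsto_atTop_add_const_right _ _ tendsto_natCast_atTop_atTop
    have h3 := (tendsto_rpow_neg_atTop (show 0 < w.re - 1 by linarith)).comp h2
    refine h3.congr fun m => ?_
    unfold g
    rw [Complex.norm_cpow_eq_rpow_re_of_pos (by positivity)]
    simp
  have h2 := h1.add (hg.sub_const 1)
  have h3 := (term_summable (by linarith : 0 < w.re)).hasSum.tendsto_sum_nat
  have h4 := tendsto_nhds_unique h3 (h2.congr fun m => (sum_id w m).symm)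
  unfold W
  rw [h4]
  ring

private theorem W_eq {w : ℂ} (hw : 0 < w.re) : riemannZeta₁ w = 1 + W w := by
  have hU : IsOpen {s : ℂ | 0 < s.re} := isOpen_lt continuous_const Complex.continuous_re
  have hf : AnalyticOnNhd ℂ (fun w => 1 + W w) {s : ℂ | 0 < s.re} :=
    DifferentiableOn.analyticOnNhd (W_diffOn.const_add 1) hU
  have hg : AnalyticOnNhd ℂ (fun w => riemannZeta₁ w) {s : ℂ | 0 < s.re} :=
    DifferentiableOn.analyticOnNhd differentiable_riemannZeta₁.differentiableOn hU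
  have hconn : IsPreconnected {s : ℂ | 0 < s.re} :=
    (convex_halfSpace_re_gt 0).isPreconnected
  have hev : (fun w => riemannZeta₁ w) =ᶠ[𝓝 (2 : ℂ)] (fun w => 1 + W w) := by
    have hV : {s : ℂ | 1 < s.re} ∈ 𝓝 (2 : ℂ) :=
      (isOpen_lt continuous_const Complex.continuous_re).mem_nhds (by simp)
    filter_upwards [hV] with z hz
    have hz1 : 1 < z.re := hz
    have hne : z - 1 ≠ 0 := by
      intro h
      have : z = 1 := sub_eq_zero.mp h
      rw [this] at hz1
      simp at hz1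
    rw [W_eq_one hz1, riemannZeta_eq_inv_sub_mul (sub_ne_zero.mp hne)]
    field_simp
    ring
  exact hg.eqOn_of_preconnected_of_eventuallyEq hf hconn
    (by simp : (2 : ℂ) ∈ {s : ℂ | 0 < s.re}) hev hw

/-- the upper bound -/
theorem zub {δ : ℝ} (hδ : 0 < δ) : ∃ C : ℝ, 0 < C ∧ ∀ w : ℂ, δ ≤ w.re →
    ‖riemannZeta₁ w‖ ≤ 1 + C * (‖w - 1‖ * ‖w‖) := by
  have hs := base_summ hδ
  refine ⟨∑' k : ℕ, ((k : ℝ) + 1) ^ (-δ - 1), ?_, fun w hw => ?_⟩
  · exact hs.tsum_pos (fun k => by positivity) 0 (by simp)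
  · have hw0 : 0 < w.re := lt_of_lt_of_le hδ hw
    rw [W_eq hw0]
    refine (norm_add_le _ _).trans ?_
    rw [norm_one]
    have h1 : ‖W w‖ ≤ (‖w - 1‖ * ‖w‖) * ∑' k : ℕ, ((k : ℝ) + 1) ^ (-δ - 1) := by
      refine tsum_of_norm_bounded (hs.hasSum.mul_left _) fun k => ?_
      refine (term_bound hw0 k).trans ?_
      refine mul_le_mul_of_nonneg_left ?_ (by positivity)
      have hk : (0 : ℝ) ≤ k := k.cast_nonneg
      exact Real.rpow_le_rpow_of_exponent_le (by linarith) (by linarith)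
    linarith

/-- the lower bound -/
theorem zlb : ∃ C : ℝ, 0 < C ∧ ∀ (σ : ℝ), 1 < σ → σ ≤ 2 → ∀ w : ℂ, σ ≤ w.re →
    (σ - 1) ≤ C * ‖riemannZeta w‖ := by
  obtain ⟨C, hC0, hC⟩ := zub one_pos
  refine ⟨1 + 2 * C, by positivity, fun σ h1 h2 w hw => ?_⟩
  have hw1 : 1 < w.re := by linarith
  have hmu := ArithmeticFunction.LSeries_zeta_mul_Lseries_moebius hw1
  rw [ArithmeticFunction.LSeries_zeta_eq_riemannZeta hw1] at hmu
  -- the bound for the series of `mu`
  have hS : Summable (fun n : ℕ => (n : ℝ) ^ (-σ)) := Real.summable_nat_rpow.mpr (by linarith)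
  have hb : ‖LSeries (fun n => (ArithmeticFunction.moebius n : ℂ)) w‖ ≤ ∑' n : ℕ, (n : ℝ) ^ (-σ) := by
    refine tsum_of_norm_bounded hS.hasSum fun n => ?_
    rcases eq_or_ne n 0 with rfl | hn
    · rw [LSeries.term_zero, norm_zero]; positivity
    · have hn1 : (1 : ℝ) ≤ n := by exact_mod_cast Nat.one_le_iff_ne_zero.mpr hn
      rw [LSeries.norm_term_eq, if_neg hn, Real.rpow_neg (by positivity), ← one_div]
      have h3 : ‖((ArithmeticFunction.moebius n : ℤ) : ℂ)‖ ≤ 1 := by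
        rw [Complex.norm_intCast]
        exact_mod_cast ArithmeticFunction.abs_moebius_le_one
      refine div_le_div₀ zero_le_one h3 (by positivity) ?_
      exact Real.rpow_le_rpow_of_exponent_le hn1 hw
  have hz : (∑' n : ℕ, (n : ℝ) ^ (-σ)) = ‖riemannZeta (σ : ℂ)‖ := by
    have e1 : riemannZeta (σ : ℂ) = ((∑' n : ℕ, (n : ℝ) ^ (-σ) : ℝ) : ℂ) := by
      rw [zeta_eq_tsum_one_div_nat_cpow (by simpa using h1), Complex.ofReal_tsum]
      refine tsum_congr fun n => ?_
      rw [Real.rpow_neg n.cast_nonneg, Complex.ofReal_inv, Complex.ofReal_cpow n.cast_nonneg,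
        one_div, Complex.ofReal_natCast]
    rw [e1, Complex.norm_real, Real.norm_of_nonneg (tsum_nonneg fun n => by positivity)]
  have hne : (σ : ℂ) ≠ 1 := by
    intro h
    have : σ = 1 := by exact_mod_cast h
    linarith
  have hz2 : (σ - 1) * ‖riemannZeta (σ : ℂ)‖ ≤ 1 + 2 * C := by
    have h3 := hC (σ : ℂ) (by simpa using h1.le)
    have h4 : ‖riemannZeta₁ (σ : ℂ)‖ = (σ - 1) * ‖riemannZeta (σ : ℂ)‖ := by
      rw [riemannZeta_eq_inv_sub_mul hne, norm_mul, norm_inv]
      have h5 : ‖(σ : ℂ) - 1‖ = σ - 1 := by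
        rw [← Complex.ofReal_one, ← Complex.ofReal_sub, Complex.norm_real,
          Real.norm_of_nonneg (by linarith)]
      rw [h5]
      have : σ - 1 ≠ 0 := by linarith
      field_simp
    rw [← h4]
    refine h3.trans ?_
    have h5 : ‖(σ : ℂ) - 1‖ = σ - 1 := by
      rw [← Complex.ofReal_one, ← Complex.ofReal_sub, Complex.norm_real,
        Real.norm_of_nonneg (by linarith)]
    rw [h5, Complex.norm_real, Real.norm_of_nonneg (by linarith)]
    have : (σ - 1) * σ ≤ 2 := by nlinarith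
    nlinarith
  have h6 : ‖riemannZeta w‖ * ‖LSeries (fun n => (ArithmeticFunction.moebius n : ℂ)) w‖ = 1 := by
    rw [← norm_mul, hmu, norm_one]
  have h7 : 1 ≤ ‖riemannZeta w‖ * ‖riemannZeta (σ : ℂ)‖ := by
    rw [← h6]
    rw [hz] at hb
    exact mul_le_mul_of_nonneg_left hb (norm_nonneg _)
  have h8 : (σ - 1) * 1 ≤ (σ - 1) * (‖riemannZeta w‖ * ‖riemannZeta (σ : ℂ)‖) :=
    mul_le_mul_of_nonneg_left h7 (by linarith)
  nlinarith [norm_nonneg (riemannZeta w)]

end Pool.PWF
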