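import Pool.Agent.Helper76.PWF.All
import Pool.Agent.Helper76.PWF.Zub

/-!
# PWF UNF: the means for all `s >= 2` with a constant `C s^3`
-/

set_option autoImplicit false

open Complex Finset Filter Topology MeasureTheory

namespace Pool.PWF

open Pool.OMG

theorem T_bound' {c : ℂ} {f : ℂ → ℂ} {R q : ℝ} (hf : DifferentiableOn ℂ f (Metric.ball c R))
    (hq : 0 < q) (hqR : q < R) {C : ℝ} (hC : ∀ z ∈ Metric.sphere c q, ‖f z‖ ≤ C) (k : ℕ) :
    ‖PowerSeries.coeff k (T c f)‖ ≤ C * (1 / q) ^ k := by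
  have hsub : Metric.closedBall c q ⊆ Metric.ball c R := Metric.closedBall_subset_ball hqR
  have h1 := Complex.norm_iteratedDeriv_le_of_forall_mem_sphere_norm_le k hq
    (hf.diffContOnCl_ball hsub) hC
  have h2 : (0 : ℝ) < (k.factorial : ℝ) := by exact_mod_cast Nat.factorial_pos k
  unfold T
  rw [PowerSeries.coeff_mk, norm_div, norm_mul, norm_pow, norm_neg, norm_one, one_pow, one_mul,
    Complex.norm_natCast, div_le_iff₀ h2]
  calc ‖iteratedDeriv k f c‖ ≤ k.factorial * C / q ^ k := h1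
    _ = C * (1 / q) ^ k * k.factorial := by
        rw [one_div, inv_pow]
        ring

/-- the radius -/
noncomputable def uu (s : ℝ) : ℝ := (1 / 6 - 3 / (10 * s)) / s

noncomputable def qq (s : ℝ) : ℝ := s * Real.exp (-uu s)

theorem uu_nonneg {s : ℝ} (hs : 2 ≤ s) : 0 ≤ uu s := by
  unfold uu
  apply div_nonneg _ (by linarith)
  rw [sub_nonneg, div_le_iff₀ (by linarith)]
  linarith

theorem s_uu {s : ℝ} (hs : 2 ≤ s) : s * uu s = 1 / 6 - 3 / (10 * s) := by
  have : s ≠ 0 := by linarith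
  unfold uu; field_simp

theorem qq_sq {s : ℝ} (hs : 2 ≤ s) : qq s ^ 2 ≤ s ^ 2 - s / 3 + 3 / 5 + 1 / 18 := by
  have hs0 : 0 < s := by linarith
  set u : ℝ := uu s with hu
  have hu0 : 0 ≤ u := uu_nonneg hs
  have e1 : Real.exp (-u) ^ 2 ≤ 1 - 2 * u + 2 * u ^ 2 := by
    have h1 : Real.exp (-u) ^ 2 = Real.exp (-(2 * u)) := by
      rw [← Real.exp_nat_mul]; congr 1; push_cast; ring
    rw [h1, Real.exp_neg]
    have h2 := Real.quadratic_le_exp_of_nonneg (x := 2 * u) (by linarith)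
    rw [inv_le_comm₀ (Real.exp_pos _) (by nlinarith)]
    refine le_trans ?_ h2
    rw [inv_le_iff_one_le_mul₀ (by nlinarith)]
    nlinarith [sq_nonneg (u ^ 2), mul_nonneg hu0 hu0]
  have e2 : qq s ^ 2 = s ^ 2 * Real.exp (-u) ^ 2 := by unfold qq; ring
  have e3 : s * u = 1 / 6 - 3 / (10 * s) := s_uu hs
  have e4 : s ^ 2 * u = s / 6 - 3 / 10 := by
    have : s ^ 2 * u = s * (s * u) := by ring
    rw [this, e3]; field_simp
  have e5 : s * u ≤ 1 / 6 := by
    rw [e3]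
    have : 0 ≤ 3 / (10 * s) := by positivity
    linarith
  have e6 : 0 ≤ s * u := by positivity
  rw [e2]
  calc s ^ 2 * Real.exp (-u) ^ 2 ≤ s ^ 2 * (1 - 2 * u + 2 * u ^ 2) :=
        mul_le_mul_of_nonneg_left e1 (by positivity)
    _ = s ^ 2 - 2 * (s ^ 2 * u) + 2 * (s * u) ^ 2 := by ring
    _ ≤ _ := by rw [e4]; nlinarith

theorem qq_lower {s : ℝ} (hs : 2 ≤ s) : s - 1 / 6 ≤ qq s := by
  have hs0 : 0 < s := by linarith
  have h1 := Real.add_one_le_exp (-uu s)
  have h2 : s * (-uu s + 1) ≤ s * Real.exp (-uu s) := mul_le_mul_of_nonneg_left h1 hs0.le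
  have h3 := s_uu hs
  have h4 : 0 ≤ 3 / (10 * s) := by positivity
  unfold qq
  nlinarith

theorem qq_upper {s : ℝ} (hs : 2 ≤ s) : qq s ≤ s - 1 / 63 := by
  have hs0 : 0 < s := by linarith
  have hu0 := uu_nonneg hs
  have h3 := s_uu hs
  have h4 : 3 / (10 * s) ≤ 3 / 20 := by
    apply div_le_div_of_nonneg_left (by norm_num) (by norm_num) (by linarith)
  have h5 : 1 / 60 ≤ s * uu s := by rw [h3]; linarith
  have h5' : s * uu s ≤ 1 / 6 := by
    rw [h3]
    have : 0 ≤ 3 / (10 * s) := by positivity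
    linarith
  have h6 : uu s ≤ 1 / 12 := by nlinarith
  have h7 : Real.exp (-uu s) ≤ 1 - uu s + uu s ^ 2 / 2 := by
    rw [Real.exp_neg]
    have h2 := Real.quadratic_le_exp_of_nonneg (x := uu s) hu0
    rw [inv_le_comm₀ (Real.exp_pos _) (by nlinarith)]
    refine le_trans ?_ h2
    rw [inv_le_iff_one_le_mul₀ (by nlinarith)]
    nlinarith [sq_nonneg (uu s ^ 2), mul_nonneg hu0 hu0]
  have h8 : s * Real.exp (-uu s) ≤ s * (1 - uu s + uu s ^ 2 / 2) :=
    mul_le_mul_of_nonneg_left h7 hs0.le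
  unfold qq
  nlinarith

/-- `1/zeta(6z)` in the closed disc -/
theorem inv_bound : ∃ B : ℝ, 0 < B ∧ ∀ s : ℝ, 2 ≤ s → ∀ z ∈ Metric.closedBall (s : ℂ) (qq s),
    riemannZeta₁ (6 * z) ≠ 0 ∧ ‖(6 * z - 1) / riemannZeta₁ (6 * z)‖ ≤ B * s := by
  obtain ⟨C, hC0, hC⟩ := zlb
  set K : Set ℂ := Metric.closedBall 2 2 ∪ ({z : ℂ | 1 / 6 ≤ z.re} ∩ Metric.closedBall 0 2) with hK
  have hKc : IsCompact K := (isCompact_closedBall _ _).union
    ((isCompact_closedBall (0 : ℂ) 2).inter_left (isClosed_le continuous_const Complex.continuous_re))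
  have hKz : ∀ z ∈ K, riemannZeta₁ (6 * z) ≠ 0 := by
    rintro z (hz | ⟨hz, _⟩)
    · apply zf
      rw [Metric.mem_closedBall, dist_eq_norm] at hz
      have : 6 * z - 12 = 6 * (z - 2) := by ring
      rw [this, norm_mul]
      have h6 : ‖(6 : ℂ)‖ = 6 := by norm_num
      rw [h6]
      linarith
    · apply zf_one
      have hz' : 1 / 6 ≤ z.re := hz
      simp
      linarith
  have hcont : ContinuousOn (fun z : ℂ => (6 * z - 1) / riemannZeta₁ (6 * z)) K := by
    refine ContinuousOn.div (by fun_prop) ?_ hKz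
    exact (differentiable_riemannZeta₁.continuous.comp
      (continuous_const.mul continuous_id)).continuousOn
  obtain ⟨B0, hB0⟩ := hKc.exists_bound_of_continuousOn hcont
  refine ⟨|B0| + 17 * C, by positivity, fun s hs z hz => ?_⟩
  have hs0 : 0 < s := by linarith
  rw [Metric.mem_closedBall, dist_eq_norm] at hz
  have hsq : ‖z - s‖ ^ 2 ≤ qq s ^ 2 := pow_le_pow_left₀ (norm_nonneg _) hz 2
  have hq2 := qq_sq hs
  rw [Complex.sq_norm, Complex.normSq_apply] at hsq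
  simp only [Complex.sub_re, Complex.sub_im, Complex.ofReal_re, Complex.ofReal_im,
    sub_zero] at hsq
  have hKs : z ∈ K → riemannZeta₁ (6 * z) ≠ 0 ∧
      ‖(6 * z - 1) / riemannZeta₁ (6 * z)‖ ≤ (|B0| + 17 * C) * s := by
    intro h
    refine ⟨hKz z h, (hB0 z h).trans ?_⟩
    have h1 := le_abs_self B0
    have h2 := abs_nonneg B0
    nlinarith
  rcases lt_or_ge z.re (1 / 6) with h1 | h1
  · apply hKs
    left
    rw [Metric.mem_closedBall, dist_eq_norm]
    have h2 : ‖z - 2‖ ^ 2 ≤ 2 ^ 2 := by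
      rw [Complex.sq_norm, Complex.normSq_apply]
      simp only [Complex.sub_re, Complex.sub_im]
      norm_num
      nlinarith
    exact le_of_sq_le_sq h2 (by norm_num)
  rcases lt_or_ge z.re (1 / 6 + 1 / (100 * s)) with h3 | h3
  · apply hKs
    right
    refine ⟨h1, ?_⟩
    rw [Metric.mem_closedBall, dist_zero_right]
    have h4 : 1 / (100 * s) ≤ 1 / 200 := by
      apply one_div_le_one_div_of_le (by norm_num) (by linarith)
    have h5 : s * (1 / (100 * s)) = 1 / 100 := by field_simp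
    have h2 : ‖z‖ ^ 2 ≤ 2 ^ 2 := by
      rw [Complex.sq_norm, Complex.normSq_apply]
      have h6 : z.re < 1 / 6 + 1 / 200 := by linarith
      have h7 : z.im * z.im ≤ qq s ^ 2 - (z.re - s) * (z.re - s) := by linarith
      have h8 : s * z.re ≤ s / 6 + 1 / 100 := by
        have := mul_le_mul_of_nonneg_left h3.le hs0.le
        rw [mul_add, h5] at this
        linarith
      nlinarith
    exact le_of_sq_le_sq h2 (by norm_num)
  · have hre : 1 + 6 / (100 * s) ≤ (6 * z).re := by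
      have : (6 * z).re = 6 * z.re := by simp
      rw [this]
      have h4 : 6 * (1 / 6 + 1 / (100 * s)) = 1 + 6 / (100 * s) := by ring
      linarith
    have h4 : 0 < 6 / (100 * s) := by positivity
    have h5 : 6 / (100 * s) ≤ 1 := by
      rw [div_le_one (by positivity)]
      linarith
    have hz1 : riemannZeta₁ (6 * z) ≠ 0 := zf_one (by linarith)
    refine ⟨hz1, ?_⟩
    have h6 := hC (1 + 6 / (100 * s)) (by linarith) (by linarith) (6 * z) hre
    rw [add_sub_cancel_left] at h6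
    have hne : 6 * z - 1 ≠ 0 := by
      intro h
      have h7 : 6 * z = 1 := sub_eq_zero.mp h
      rw [h7] at hre
      simp at hre
      linarith
    have hne' : (6 * z) ≠ 1 := sub_ne_zero.mp hne
    have e : (6 * z - 1) / riemannZeta₁ (6 * z) = (riemannZeta (6 * z))⁻¹ := by
      rw [riemannZeta_eq_inv_sub_mul hne', mul_inv, inv_inv]
      rfl
    have hpos : 0 < ‖riemannZeta (6 * z)‖ := by
      by_contra h
      have h7 : ‖riemannZeta (6 * z)‖ = 0 := le_antisymm (not_lt.mp h) (norm_nonneg _)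
      rw [h7, mul_zero] at h6
      linarith
    rw [e, norm_inv, inv_le_iff_one_le_mul₀ hpos]
    rw [div_le_iff₀ (by positivity)] at h6
    have h8 : 0 ≤ ‖riemannZeta (6 * z)‖ := hpos.le
    have h9 : 0 ≤ |B0| * s * ‖riemannZeta (6 * z)‖ := by positivity
    nlinarith [mul_pos (mul_pos hC0 hs0) hpos]

private theorem key2 (z P a b c : ℂ) (h0 : z ≠ 0) (h2 : z - 1 / 2 ≠ 0) (h3 : z - 1 / 3 ≠ 0) :
    (P - c) / z + 2 * ((P - a) / (z - 1 / 2)) - 3 * ((P - b) / (z - 1 / 3)) =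
    P / (6 * (z * (z - 1 / 2) * (z - 1 / 3))) - c / z - 2 * a / (z - 1 / 2) +
      3 * b / (z - 1 / 3) := by
  set u := z - 1 / 2 with hu
  set v := z - 1 / 3 with hv
  have h1 : ((P - c) / z + 2 * ((P - a) / u) - 3 * ((P - b) / v)) -
    (P / (6 * (z * u * v)) - c / z - 2 * a / u + 3 * b / v) =
    P / (6 * (z * u * v)) * (6 * u * v + 12 * z * v - 18 * z * u - 1) := by
    field_simp
    ring
  have h4 : 6 * u * v + 12 * z * v - 18 * z * u - 1 = 0 := by rw [hu, hv]; ring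
  rw [h4, mul_zero] at h1
  exact sub_eq_zero.mp h1

/-- the bound on the circle -/
theorem kf_bound : ∃ C : ℝ, 0 < C ∧ ∀ s : ℝ, 2 ≤ s → ∀ z ∈ Metric.sphere (s : ℂ) (qq s),
    ‖Kf z‖ ≤ C * s ^ 2 := by
  obtain ⟨B, hB0, hB⟩ := inv_bound
  obtain ⟨C, hC0, hC⟩ := zub (show (0 : ℝ) < 1 / 63 by norm_num)
  set P : ℝ := ‖Phi 0‖ + ‖Phi (1 / 2)‖ + ‖Phi (1 / 3)‖ with hP
  have hP0 : 0 ≤ P := by positivity
  refine ⟨3000 * ((1 + 9 * C) ^ 2 * B) + 100 * P, by positivity, fun s hs z hz => ?_⟩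
  have hs0 : 0 < s := by linarith
  obtain ⟨hz1, hz2⟩ := hB s hs z (Metric.sphere_subset_closedBall hz)
  rw [Metric.mem_sphere, dist_eq_norm] at hz
  have hql := qq_lower hs
  have hqu := qq_upper hs
  -- the distances
  have hre : 1 / 63 ≤ z.re := by
    have h1 : |(z - s).re| ≤ ‖z - s‖ := Complex.abs_re_le_norm _
    have h2 := neg_abs_le (z - s).re
    simp only [Complex.sub_re, Complex.ofReal_re] at h1 h2
    linarith
  have hnz : 1 / 63 ≤ ‖z‖ := hre.trans (Complex.re_le_norm z)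
  have htri : ∀ c : ℝ, c ≤ 1 / 2 → ‖z - s‖ ≤ ‖z - c‖ + (s - c) := by
    intro c hc
    have h1 : z - s = (z - c) - (((s - c : ℝ)) : ℂ) := by push_cast; ring
    rw [h1]
    refine (norm_sub_le _ _).trans ?_
    rw [Complex.norm_real, Real.norm_of_nonneg (by linarith)]
  have hd2 : 1 / 3 ≤ ‖z - 1 / 2‖ := by
    have h1 := htri (1 / 2) le_rfl
    push_cast at h1
    linarith
  have hd3 : 1 / 6 ≤ ‖z - 1 / 3‖ := by
    have h1 := htri (1 / 3) (by norm_num)
    push_cast at h1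
    linarith
  have hn0 : z ≠ 0 := by rintro rfl; simp at hnz; norm_num at hnz
  have hn2 : z - 1 / 2 ≠ 0 := by
    intro h; rw [h, norm_zero] at hd2; norm_num at hd2
  have hn3 : z - 1 / 3 ≠ 0 := by
    intro h; rw [h, norm_zero] at hd3; norm_num at hd3
  set N : ℝ := 1 + ‖z‖ with hN
  have hN1 : 1 ≤ N := by rw [hN]; linarith [norm_nonneg z]
  have b0 : N ≤ 64 * ‖z‖ := by linarith
  have b2 : N ≤ 6 * ‖z - 1 / 2‖ := by
    have h1 : ‖z‖ ≤ ‖z - 1 / 2‖ + 1 / 2 := by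
      have := norm_add_le (z - 1 / 2) (1 / 2)
      rw [sub_add_cancel] at this
      refine this.trans (le_of_eq ?_)
      norm_num
    linarith
  have b3 : N ≤ 9 * ‖z - 1 / 3‖ := by
    have h1 : ‖z‖ ≤ ‖z - 1 / 3‖ + 1 / 3 := by
      have := norm_add_le (z - 1 / 3) (1 / 3)
      rw [sub_add_cancel] at this
      refine this.trans (le_of_eq ?_)
      norm_num
    linarith
  have hNs : N ≤ 3 * s := by
    have h1 : ‖z‖ ≤ ‖z - s‖ + s := by
      have := norm_add_le (z - s) s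
      rw [sub_add_cancel, Complex.norm_real, Real.norm_of_nonneg hs0.le] at this
      exact this
    linarith
  -- the bounds for `Z`
  have hZ : ∀ c : ℝ, 2 ≤ c → c ≤ 3 → ‖riemannZeta₁ (c * z)‖ ≤ (1 + 9 * C) * N ^ 2 := by
    intro c hc2 hc3
    have h1 := hC (c * z) (by
      have : ((c : ℂ) * z).re = c * z.re := by simp
      rw [this]
      nlinarith)
    refine h1.trans ?_
    have h2 : ‖(c : ℂ) * z‖ ≤ 3 * N := by
      rw [norm_mul, Complex.norm_real, Real.norm_of_nonneg (by linarith)]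
      nlinarith [norm_nonneg z]
    have h3 : ‖(c : ℂ) * z - 1‖ ≤ 3 * N := by
      refine (norm_sub_le _ _).trans ?_
      rw [norm_mul, Complex.norm_real, Real.norm_of_nonneg (by linarith), norm_one]
      nlinarith [norm_nonneg z]
    have h4 : ‖(c : ℂ) * z - 1‖ * ‖(c : ℂ) * z‖ ≤ (3 * N) * (3 * N) :=
      mul_le_mul h3 h2 (norm_nonneg _) (by positivity)
    nlinarith
  have hPhi : ‖Phi z‖ ≤ (1 + 9 * C) ^ 2 * B * s * N ^ 4 := by
    have e : Phi z = riemannZeta₁ (2 * z) * riemannZeta₁ (3 * z) *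
        ((6 * z - 1) / riemannZeta₁ (6 * z)) := by
      unfold Phi; ring
    rw [e, norm_mul, norm_mul]
    have h2 := hZ 2 le_rfl (by norm_num)
    have h3 := hZ 3 (by norm_num) le_rfl
    push_cast at h2 h3
    calc ‖riemannZeta₁ (2 * z)‖ * ‖riemannZeta₁ (3 * z)‖ * ‖(6 * z - 1) / riemannZeta₁ (6 * z)‖ ≤
        ((1 + 9 * C) * N ^ 2) * ((1 + 9 * C) * N ^ 2) * (B * s) := by
          apply mul_le_mul (mul_le_mul h2 h3 (norm_nonneg _) (by positivity)) hz2 (norm_nonneg _)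
            (by positivity)
      _ = _ := by ring
  have hK : Kf z = Phi z / (6 * (z * (z - 1 / 2) * (z - 1 / 3))) - Phi 0 / z -
      2 * Phi (1 / 2) / (z - 1 / 2) + 3 * Phi (1 / 3) / (z - 1 / 3) := by
    unfold Kf
    rw [dslope_of_ne _ hn0, dslope_of_ne _ (sub_ne_zero.mp hn2),
      dslope_of_ne _ (sub_ne_zero.mp hn3), slope_def_field, slope_def_field, slope_def_field,
      sub_zero]
    exact key2 z _ _ _ _ hn0 hn2 hn3
  rw [hK]
  have t1 : ‖Phi z / (6 * (z * (z - 1 / 2) * (z - 1 / 3)))‖ ≤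
      1000 * ((1 + 9 * C) ^ 2 * B) * s * N := by
    rw [norm_div, norm_mul, norm_mul, norm_mul]
    have h6 : ‖(6 : ℂ)‖ = 6 := by norm_num
    rw [h6, div_le_iff₀ (by positivity)]
    refine hPhi.trans ?_
    have h7 : N ^ 3 ≤ (64 * ‖z‖) * (6 * ‖z - 1 / 2‖) * (9 * ‖z - 1 / 3‖) := by
      have : N ^ 3 = N * N * N := by ring
      rw [this]
      gcongr
    have h8 : 0 ≤ (1 + 9 * C) ^ 2 * B * s * N := by positivity
    calc (1 + 9 * C) ^ 2 * B * s * N ^ 4 = ((1 + 9 * C) ^ 2 * B * s * N) * N ^ 3 := by ring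
      _ ≤ ((1 + 9 * C) ^ 2 * B * s * N) *
          ((64 * ‖z‖) * (6 * ‖z - 1 / 2‖) * (9 * ‖z - 1 / 3‖)) :=
            mul_le_mul_of_nonneg_left h7 h8
      _ = 3456 / 6000 * (1000 * ((1 + 9 * C) ^ 2 * B) * s * N *
          (6 * (‖z‖ * ‖z - 1 / 2‖ * ‖z - 1 / 3‖))) := by ring
      _ ≤ 1 * (1000 * ((1 + 9 * C) ^ 2 * B) * s * N *
          (6 * (‖z‖ * ‖z - 1 / 2‖ * ‖z - 1 / 3‖))) :=
            mul_le_mul_of_nonneg_right (by norm_num) (by positivity)
      _ = _ := by ring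
  have t2 : ‖Phi 0 / z‖ ≤ 63 * P := by
    rw [norm_div, div_le_iff₀ (by linarith)]
    have h1 : ‖Phi 0‖ ≤ P := by
      rw [hP]; linarith [norm_nonneg (Phi (1 / 2)), norm_nonneg (Phi (1 / 3))]
    nlinarith
  have t3 : ‖2 * Phi (1 / 2) / (z - 1 / 2)‖ ≤ 6 * P := by
    rw [norm_div, norm_mul, div_le_iff₀ (by linarith)]
    have h1 : ‖Phi (1 / 2)‖ ≤ P := by
      rw [hP]; linarith [norm_nonneg (Phi 0), norm_nonneg (Phi (1 / 3))]
    have h6 : ‖(2 : ℂ)‖ = 2 := by norm_num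
    rw [h6]
    nlinarith
  have t4 : ‖3 * Phi (1 / 3) / (z - 1 / 3)‖ ≤ 18 * P := by
    rw [norm_div, norm_mul, div_le_iff₀ (by linarith)]
    have h1 : ‖Phi (1 / 3)‖ ≤ P := by
      rw [hP]; linarith [norm_nonneg (Phi 0), norm_nonneg (Phi (1 / 2))]
    have h6 : ‖(3 : ℂ)‖ = 3 := by norm_num
    rw [h6]
    nlinarith
  have t5 : ‖Phi z / (6 * (z * (z - 1 / 2) * (z - 1 / 3))) - Phi 0 / z -
      2 * Phi (1 / 2) / (z - 1 / 2) + 3 * Phi (1 / 3) / (z - 1 / 3)‖ ≤
      1000 * ((1 + 9 * C) ^ 2 * B) * s * N + 63 * P + 6 * P + 18 * P := by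
    refine (norm_add_le _ _).trans (add_le_add ?_ t4)
    refine (norm_sub_le _ _).trans (add_le_add ?_ t3)
    exact (norm_sub_le _ _).trans (add_le_add t1 t2)
  refine t5.trans ?_
  have h9 : 1000 * ((1 + 9 * C) ^ 2 * B) * s * N ≤ 1000 * ((1 + 9 * C) ^ 2 * B) * s * (3 * s) :=
    mul_le_mul_of_nonneg_left hNs (by positivity)
  have h11 : 1 ≤ s ^ 2 := by nlinarith
  have h10 : P ≤ P * s ^ 2 := le_mul_of_one_le_right hP0 h11
  nlinarith

/-- an explicit power saving below the exponent `1/6`, with a constant `C s^3`, for all `s >= 2` -/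
theorem all_unif : ∃ C : ℝ, ∀ (k : ℕ) (s : ℝ), 2 ≤ s →
    |s ^ (k + 1) / (k.factorial : ℝ) *
      (∫ x in Set.Ioi (1 : ℝ), E x * Real.log x ^ k * x ^ (-s - 1))| ≤
      C * s ^ 3 * Real.exp ((k : ℝ) / s) ^ (1 / 6 - 3 / (10 * s)) := by
  obtain ⟨B, hB0, hB⟩ := inv_bound
  obtain ⟨C, hC0, hC⟩ := kf_bound
  refine ⟨1 + C, fun k s hs => ?_⟩
  have hs0 : 0 < s := by linarith
  have hq0 : 0 < qq s := by unfold qq; positivity
  have hqs : qq s ≤ s := by linarith [qq_upper hs]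
  have hcont : Continuous fun z : ℂ => riemannZeta₁ (6 * z) :=
    differentiable_riemannZeta₁.continuous.comp (continuous_const.mul continuous_id)
  have hopen : IsOpen {z : ℂ | riemannZeta₁ (6 * z) ≠ 0} := isOpen_ne_fun hcont continuous_const
  obtain ⟨R, hR, hball⟩ := ball_of_closedBall hq0 hopen (fun z hz => (hB s hs z hz).1)
  have hK := kf_diff' (phi_diff' hball)
  have hKk := T_bound' hK hq0 hR (hC s hs) k
  have hopen2 : {s : ℂ | 1 / 2 < s.re} ∈ 𝓝 (s : ℂ) := by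
    apply (isOpen_lt continuous_const Complex.continuous_re).mem_nhds
    show 1 / 2 < (s : ℂ).re
    rw [Complex.ofReal_re]
    linarith
  have hcongr : T (s : ℂ) Hf = T (s : ℂ) (fun z => (-1 / 2 : ℂ) / (z - 0) + Kf z) := by
    apply T_congr
    filter_upwards [hopen2] with z hz
    exact hf_eq hz
  have hadd : T (s : ℂ) (fun z => (-1 / 2 : ℂ) / (z - 0) + Kf z) =
      T (s : ℂ) (fun z => (-1 / 2 : ℂ) / (z - 0)) + T (s : ℂ) Kf := by
    apply T_add
    · apply DifferentiableOn.analyticAt (s := {z : ℂ | 1 / 2 < z.re}) _ hopen2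
      intro z hz
      have hz1 : 1 / 2 < z.re := hz
      have hne : z - 0 ≠ 0 := by
        rw [sub_zero]; rintro rfl; norm_num at hz1
      have hd : DifferentiableAt ℂ (fun z : ℂ => z - 0) z := by fun_prop
      exact ((differentiableAt_const _).div hd hne).differentiableWithinAt
    · exact hK.analyticAt (Metric.isOpen_ball.mem_nhds (Metric.mem_ball_self (by linarith)))
  have hsne : (s : ℂ) ≠ 0 := by exact_mod_cast hs0.ne'
  have hcoef : ‖PowerSeries.coeff k (T (s : ℂ) Hf)‖ ≤ (1 + C) * s ^ 2 * (1 / qq s) ^ k := by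
    rw [hcongr, hadd, map_add, T_inv hsne, sub_zero]
    have h1 : ‖(-1 / 2 : ℂ) * (1 / (s : ℂ)) ^ (k + 1)‖ ≤ 1 * s ^ 2 * (1 / qq s) ^ k := by
      have h2 : ‖(-1 / 2 : ℂ)‖ = 1 / 2 := by norm_num
      have h5 : ‖1 / (s : ℂ)‖ = 1 / s := by
        rw [norm_div, norm_one, Complex.norm_real, Real.norm_of_nonneg hs0.le]
      rw [norm_mul, norm_pow, h5]
      have h3 : (1 / s) ^ k ≤ (1 / qq s) ^ k :=
        pow_le_pow_left₀ (by positivity) (one_div_le_one_div_of_le hq0 hqs) k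
      rw [h2, pow_succ]
      have h4 : 1 / 2 * ((1 / s) ^ k * (1 / s)) = 1 / (2 * s) * (1 / s) ^ k := by
        field_simp
      rw [h4]
      have h6 : 1 / (2 * s) ≤ 1 * s ^ 2 := by
        rw [div_le_iff₀ (by positivity)]
        nlinarith [pow_pos hs0 3]
      exact mul_le_mul h6 h3 (by positivity) (by positivity)
    calc _ ≤ ‖(-1 / 2 : ℂ) * (1 / (s : ℂ)) ^ (k + 1)‖ + ‖PowerSeries.coeff k (T (s : ℂ) Kf)‖ :=
          norm_add_le _ _
      _ ≤ 1 * s ^ 2 * (1 / qq s) ^ k + C * s ^ 2 * (1 / qq s) ^ k := add_le_add h1 hKk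
      _ = _ := by ring
  have hk : (0 : ℝ) < (k.factorial : ℝ) := by exact_mod_cast k.factorial_pos
  rw [abs_mul, mean_coeff (by linarith), abs_of_nonneg (by positivity)]
  have e1 : s ^ (k + 1) / (k.factorial : ℝ) *
      ((k.factorial : ℝ) * ‖PowerSeries.coeff k (T (s : ℂ) Hf)‖) =
      s ^ (k + 1) * ‖PowerSeries.coeff k (T (s : ℂ) Hf)‖ := by
    field_simp
  rw [e1]
  have e2 : s ^ (k + 1) * ((1 + C) * s ^ 2 * (1 / qq s) ^ k) =
      (1 + C) * s ^ 3 * Real.exp ((k : ℝ) / s) ^ (1 / 6 - 3 / (10 * s)) := by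
    have e3 : Real.exp ((k : ℝ) / s) ^ (1 / 6 - 3 / (10 * s)) = (s * (1 / qq s)) ^ k := by
      have e4 : s * (1 / qq s) = Real.exp (uu s) := by
        unfold qq
        rw [Real.exp_neg]
        field_simp
      rw [e4, ← Real.exp_mul, ← Real.exp_nat_mul]
      congr 1
      unfold uu
      field_simp
    rw [e3, mul_pow, pow_succ]
    ring
  rw [← e2]
  exact mul_le_mul_of_nonneg_left hcoef (by positivity)

end Pool.PWF
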